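import Pool.Agent.Helper30.BX.Pigeon

/-!
# Exponential moments of the number of misses of a random sample
-/

set_option autoImplicit false

open MeasureTheory Set

namespace Pool.Agent.Helper30.BX

variable {G : Type*} [AddCommGroup G] [MeasurableSpace G] [MeasurableAdd₂ G] [MeasurableNeg G]

/-- The number of indices `j` with `x + b j ∉ U`. -/
noncomputable def miss (U : Set G) {N : ℕ} (b : Fin N → G) (x : G) : ℝ :=
  ∑ j, (Uᶜ).indicator (fun _ => (1 : ℝ)) (x + b j)

/-- The proportion of the `b ∈ B` with `x + b ∉ U`. -/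
noncomputable def vv (μ : Measure G) (B U : Set G) (x : G) : ℝ :=
  μ.real {b | b ∈ B ∧ x + b ∉ U} / μ.real B

theorem vv_nonneg (μ : Measure G) (B U : Set G) (x : G) : 0 ≤ vv μ B U x :=
  div_nonneg measureReal_nonneg measureReal_nonneg

theorem vv_le_one (μ : Measure G) [IsProbabilityMeasure μ] (B U : Set G) (x : G) :
    vv μ B U x ≤ 1 := by
  unfold vv
  apply div_le_one_of_le₀ _ measureReal_nonneg
  refine measureReal_mono ?_ (measure_ne_top _ _)
  rintro b ⟨hb, -⟩
  exact hb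

/-- The one-sample exponential weight. -/
noncomputable def wt (B U : Set G) (s : ℝ) (x b : G) : ℝ :=
  B.indicator (fun b => Real.exp (s * (Uᶜ).indicator (fun _ => (1 : ℝ)) (x + b))) b

theorem integral_wt (μ : Measure G) [IsProbabilityMeasure μ] {B U : Set G} (hB : MeasurableSet B)
    (hU : MeasurableSet U) (hpos : 0 < μ.real B) (s : ℝ) (x : G) :
    Integrable (wt B U s x) μ ∧
    ∫ b, wt B U s x b ∂μ = μ.real B * (1 + vv μ B U x * (Real.exp s - 1)) := by
  have hadd : Measurable (fun b : G => x + b) := measurable_const.add measurable_id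
  have hF : MeasurableSet {b | b ∈ B ∧ x + b ∉ U} := hB.inter (hadd hU.compl)
  have heq : wt B U s x = fun b => B.indicator (fun _ => (1 : ℝ)) b +
      {b | b ∈ B ∧ x + b ∉ U}.indicator (fun _ => Real.exp s - 1) b := by
    funext b
    unfold wt
    by_cases hb : b ∈ B
    · rw [indicator_of_mem hb, indicator_of_mem hb]
      by_cases hx : x + b ∈ U
      · rw [indicator_of_notMem (fun h : x + b ∈ Uᶜ => h hx),
          indicator_of_notMem (fun h : b ∈ {b | b ∈ B ∧ x + b ∉ U} => h.2 hx)]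
        rw [mul_zero, Real.exp_zero, add_zero]
      · rw [indicator_of_mem (show x + b ∈ Uᶜ from hx),
          indicator_of_mem (show b ∈ {b | b ∈ B ∧ x + b ∉ U} from ⟨hb, hx⟩), mul_one]
        ring
    · rw [indicator_of_notMem hb, indicator_of_notMem hb,
        indicator_of_notMem (fun h : b ∈ {b | b ∈ B ∧ x + b ∉ U} => hb h.1), add_zero]
  have i1 : Integrable (fun b => B.indicator (fun _ => (1 : ℝ)) b) μ :=
    (integrable_const _).indicator hB
  have i2 : Integrable (fun b => {b | b ∈ B ∧ x + b ∉ U}.indicator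
      (fun _ => Real.exp s - 1) b) μ := (integrable_const _).indicator hF
  rw [heq]
  refine ⟨i1.add i2, ?_⟩
  rw [integral_add i1 i2, integral_indicator hB, integral_indicator hF, setIntegral_const,
    setIntegral_const]
  unfold vv
  simp only [smul_eq_mul]
  field_simp

/-- The Chernoff bound for one point `x`. -/
theorem chernoff (μ : Measure G) [IsProbabilityMeasure μ] {B U : Set G} (hB : MeasurableSet B)
    (hU : MeasurableSet U) (hpos : 0 < μ.real B) (N : ℕ) (s a : ℝ) (x : G) :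
    (Measure.pi (fun _ : Fin N => μ)).real {b | (∀ j, b j ∈ B) ∧ s * a ≤ s * miss U b x} ≤
      (μ.real B) ^ N * Real.exp (N * (vv μ B U x * (Real.exp s - 1)) - s * a) := by
  obtain ⟨hi, hint⟩ := integral_wt μ hB hU hpos s x
  have h1 : Integrable (fun b : Fin N → G => ∏ j, wt B U s x (b j))
      (Measure.pi (fun _ : Fin N => μ)) := Integrable.fintype_prod (fun _ => hi)
  have hw0 : ∀ b, 0 ≤ wt B U s x b := by
    intro b
    unfold wt
    exact indicator_nonneg (fun _ _ => (Real.exp_pos _).le) b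
  have h2 := mul_meas_ge_le_integral_of_nonneg
    (ae_of_all (Measure.pi (fun _ : Fin N => μ))
      (fun b => Finset.prod_nonneg (fun j _ => hw0 (b j)))) h1 (Real.exp (s * a))
  have h3 : ∫ b : Fin N → G, ∏ j, wt B U s x (b j) ∂(Measure.pi (fun _ : Fin N => μ)) =
      (∫ b, wt B U s x b ∂μ) ^ N := by
    rw [integral_fintype_prod_eq_pow, Fintype.card_fin]
  rw [h3, hint] at h2
  have h4 : {b : Fin N → G | (∀ j, b j ∈ B) ∧ s * a ≤ s * miss U b x} ⊆
      {b | Real.exp (s * a) ≤ ∏ j, wt B U s x (b j)} := by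
    rintro b ⟨hb, hs⟩
    change Real.exp (s * a) ≤ ∏ j, wt B U s x (b j)
    have h5 : ∏ j, wt B U s x (b j) = Real.exp (s * miss U b x) := by
      unfold miss
      rw [Finset.mul_sum, Real.exp_sum]
      apply Finset.prod_congr rfl
      intro j _
      unfold wt
      rw [indicator_of_mem (hb j)]
    rw [h5]
    exact Real.exp_le_exp.mpr hs
  have h5 : (Measure.pi (fun _ : Fin N => μ)).real
      {b | (∀ j, b j ∈ B) ∧ s * a ≤ s * miss U b x} ≤
      (Measure.pi (fun _ : Fin N => μ)).real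
      {b | Real.exp (s * a) ≤ ∏ j, wt B U s x (b j)} := measureReal_mono h4
  have h6 : 0 ≤ 1 + vv μ B U x * (Real.exp s - 1) := by
    have h7 := vv_nonneg μ B U x
    have h8 := vv_le_one μ B U x
    have h9 := Real.exp_pos s
    nlinarith [mul_nonneg h7 h9.le]
  have h7 : (μ.real B * (1 + vv μ B U x * (Real.exp s - 1))) ^ N ≤
      (μ.real B) ^ N * Real.exp (N * (vv μ B U x * (Real.exp s - 1))) := by
    rw [mul_pow]
    apply mul_le_mul_of_nonneg_left _ (pow_nonneg measureReal_nonneg _)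
    rw [Real.exp_nat_mul]
    apply pow_le_pow_left₀ h6
    have := Real.add_one_le_exp (vv μ B U x * (Real.exp s - 1))
    linarith
  rw [Real.exp_sub, ← mul_div_assoc, le_div_iff₀ (Real.exp_pos _), mul_comm]
  exact le_trans (mul_le_mul_of_nonneg_left h5 (Real.exp_pos _).le) (h2.trans h7)

/-- Upper tail. -/
theorem upper_tail (μ : Measure G) [IsProbabilityMeasure μ] {B U : Set G} (hB : MeasurableSet B)
    (hU : MeasurableSet U) (hpos : 0 < μ.real B) (N : ℕ) (r ρ : ℝ) (hρ0 : 0 ≤ ρ) (hρ : ρ ≤ 2)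
    (x : G) (hx : vv μ B U x ≤ r) :
    (Measure.pi (fun _ : Fin N => μ)).real {b | (∀ j, b j ∈ B) ∧ (r + ρ) * N < miss U b x} ≤
      (μ.real B) ^ N * Real.exp (-(N * ρ ^ 2 / 4)) := by
  have h1 : (Measure.pi (fun _ : Fin N => μ)).real
      {b | (∀ j, b j ∈ B) ∧ (r + ρ) * N < miss U b x} ≤
      (Measure.pi (fun _ : Fin N => μ)).real
      {b | (∀ j, b j ∈ B) ∧ (ρ / 2) * ((r + ρ) * N) ≤ (ρ / 2) * miss U b x} := by
    refine measureReal_mono ?_ (measure_ne_top _ _)
    rintro b ⟨hb, hm⟩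
    exact ⟨hb, mul_le_mul_of_nonneg_left hm.le (by linarith)⟩
  refine h1.trans ((chernoff μ hB hU hpos N (ρ / 2) ((r + ρ) * N) x).trans ?_)
  apply mul_le_mul_of_nonneg_left _ (pow_nonneg measureReal_nonneg _)
  apply Real.exp_le_exp.mpr
  have h2 : Real.exp (ρ / 2) - 1 ≤ ρ / 2 + (ρ / 2) ^ 2 := by
    have h3 := Real.abs_exp_sub_one_sub_id_le (x := ρ / 2) (by rw [abs_le]; constructor <;> linarith)
    have h4 := abs_le.mp h3
    linarith [h4.2]
  have h3 : vv μ B U x * (Real.exp (ρ / 2) - 1) ≤ r * (ρ / 2) + (ρ / 2) ^ 2 := by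
    have h4 := vv_nonneg μ B U x
    have h5 := vv_le_one μ B U x
    calc vv μ B U x * (Real.exp (ρ / 2) - 1) ≤ vv μ B U x * (ρ / 2 + (ρ / 2) ^ 2) :=
          mul_le_mul_of_nonneg_left h2 h4
      _ = vv μ B U x * (ρ / 2) + vv μ B U x * (ρ / 2) ^ 2 := by ring
      _ ≤ r * (ρ / 2) + 1 * (ρ / 2) ^ 2 := by
          apply add_le_add
          · exact mul_le_mul_of_nonneg_right hx (by linarith)
          · exact mul_le_mul_of_nonneg_right h5 (sq_nonneg _)
      _ = r * (ρ / 2) + (ρ / 2) ^ 2 := by ring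
  have hN : (0 : ℝ) ≤ N := Nat.cast_nonneg N
  nlinarith [mul_le_mul_of_nonneg_left h3 hN]

/-- Lower tail. -/
theorem lower_tail (μ : Measure G) [IsProbabilityMeasure μ] {B U : Set G} (hB : MeasurableSet B)
    (hU : MeasurableSet U) (hpos : 0 < μ.real B) (N : ℕ) (θ u ρ : ℝ) (hρ0 : 0 ≤ ρ) (hρ : ρ ≤ 2)
    (x : G) (hx : θ + u ≤ vv μ B U x) :
    (Measure.pi (fun _ : Fin N => μ)).real {b | (∀ j, b j ∈ B) ∧ miss U b x ≤ θ * N} ≤
      (μ.real B) ^ N * Real.exp (-(N * (ρ / 2) * (u - ρ / 2))) := by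
  have h1 : (Measure.pi (fun _ : Fin N => μ)).real
      {b | (∀ j, b j ∈ B) ∧ miss U b x ≤ θ * N} ≤
      (Measure.pi (fun _ : Fin N => μ)).real
      {b | (∀ j, b j ∈ B) ∧ (-(ρ / 2)) * (θ * N) ≤ (-(ρ / 2)) * miss U b x} := by
    refine measureReal_mono ?_ (measure_ne_top _ _)
    rintro b ⟨hb, hm⟩
    refine ⟨hb, ?_⟩
    have := mul_le_mul_of_nonneg_left hm (show (0 : ℝ) ≤ ρ / 2 by linarith)
    linarith
  refine h1.trans ((chernoff μ hB hU hpos N (-(ρ / 2)) (θ * N) x).trans ?_)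
  apply mul_le_mul_of_nonneg_left _ (pow_nonneg measureReal_nonneg _)
  apply Real.exp_le_exp.mpr
  have h2 : Real.exp (-(ρ / 2)) - 1 ≤ -(ρ / 2) + (ρ / 2) ^ 2 := by
    have h3 := Real.abs_exp_sub_one_sub_id_le (x := -(ρ / 2))
      (by rw [abs_le]; constructor <;> linarith)
    have h4 := abs_le.mp h3
    have h5 : (-(ρ / 2)) ^ 2 = (ρ / 2) ^ 2 := by ring
    linarith [h4.2]
  have h3 : vv μ B U x * (Real.exp (-(ρ / 2)) - 1) ≤ -((θ + u) * (ρ / 2)) + (ρ / 2) ^ 2 := by
    have h4 := vv_nonneg μ B U x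
    have h5 := vv_le_one μ B U x
    calc vv μ B U x * (Real.exp (-(ρ / 2)) - 1) ≤ vv μ B U x * (-(ρ / 2) + (ρ / 2) ^ 2) :=
          mul_le_mul_of_nonneg_left h2 h4
      _ = -(vv μ B U x * (ρ / 2)) + vv μ B U x * (ρ / 2) ^ 2 := by ring
      _ ≤ -((θ + u) * (ρ / 2)) + 1 * (ρ / 2) ^ 2 := by
          apply add_le_add
          · exact neg_le_neg (mul_le_mul_of_nonneg_right hx (by linarith))
          · exact mul_le_mul_of_nonneg_right h5 (sq_nonneg _)
      _ = -((θ + u) * (ρ / 2)) + (ρ / 2) ^ 2 := by ring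
  have hN : (0 : ℝ) ≤ N := Nat.cast_nonneg N
  nlinarith [mul_le_mul_of_nonneg_left h3 hN]

end Pool.Agent.Helper30.BX
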