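import Pool.Agent.Helper30.BX.Sample

/-!
# Far false positives, and the total mass of the hit probability
-/

set_option autoImplicit false

open MeasureTheory Set

namespace Pool.Agent.Helper30.BX

variable {G : Type*} [AddCommGroup G] [MeasurableSpace G] [MeasurableAdd₂ G] [MeasurableNeg G]

/-- Far points are seen as near points with a very small probability, proportional to the hit
probability. -/
theorem far_tail (μ : Measure G) [IsProbabilityMeasure μ] {B U : Set G} (hB : MeasurableSet B)
    (hU : MeasurableSet U) (hpos : 0 < μ.real B) (N : ℕ) (hN : 1 ≤ N) (θ ρ : ℝ) (hρ0 : 0 ≤ ρ)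
    (hρ : ρ ≤ 1 / 16) (hθ : θ ≤ 5 / 16) (x : G) (hx : 7 / 16 ≤ vv μ B U x) :
    (Measure.pi (fun _ : Fin N => μ)).real {b | (∀ j, b j ∈ B) ∧ miss U b x ≤ θ * N} ≤
      (μ.real B) ^ N * (2 * (1 - vv μ B U x) * Real.exp (-(3 / 64 * (N * ρ)))) := by
  classical
  set ν : Measure (Fin N → G) := Measure.pi (fun _ : Fin N => μ) with hν
  set v := vv μ B U x with hv
  have hv0 : 0 ≤ v := vv_nonneg μ B U x
  have hv1 : v ≤ 1 := vv_le_one μ B U x
  set l : ℝ := ρ / 2 with hl
  have hadd : Measurable (fun b : G => x + b) := measurable_const.add measurable_id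
  -- the weights
  set H : G → ℝ := {b | b ∈ B ∧ x + b ∈ U}.indicator (fun _ => (1 : ℝ)) with hH
  have hHm : MeasurableSet {b | b ∈ B ∧ x + b ∈ U} := hB.inter (hadd hU)
  have hHi : Integrable H μ := (integrable_const _).indicator hHm
  have hHint : ∫ b, H b ∂μ = μ.real B * (1 - v) := by
    rw [hH, integral_indicator hHm, setIntegral_const, smul_eq_mul, mul_one]
    have h1 : μ.real {b | b ∈ B ∧ x + b ∈ U} + μ.real {b | b ∈ B ∧ x + b ∉ U} = μ.real B := by
      have h2 : {b | b ∈ B ∧ x + b ∉ U} = B \ {b | b ∈ B ∧ x + b ∈ U} := by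
        ext b
        constructor
        · rintro ⟨hb, h⟩
          exact ⟨hb, fun h' => h h'.2⟩
        · rintro ⟨hb, h⟩
          exact ⟨hb, fun h' => h ⟨hb, h'⟩⟩
      rw [h2, measureReal_sdiff (fun b hb => hb.1) hHm]
      ring
    have h3 : μ.real B * v = μ.real {b | b ∈ B ∧ x + b ∉ U} := by
      rw [hv]
      unfold vv
      field_simp
    linarith
  obtain ⟨hwi, hwint⟩ := integral_wt μ hB hU hpos (-l) x
  set F : Fin N → (Fin N → G → ℝ) := fun j i => if i = j then H else wt B U (-l) x with hF
  have hFi : ∀ j i, Integrable (F j i) μ := by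
    intro j i
    rw [hF]
    simp only
    by_cases h : i = j
    · rw [if_pos h]
      exact hHi
    · rw [if_neg h]
      exact hwi
  have hPi : ∀ j, Integrable (fun b : Fin N → G => ∏ i, F j i (b i)) ν := fun j =>
    Integrable.fintype_prod (hFi j)
  have hw0 : ∀ b, 0 ≤ wt B U (-l) x b := by
    intro b
    unfold wt
    exact indicator_nonneg (fun _ _ => (Real.exp_pos _).le) b
  have hH0 : ∀ b, 0 ≤ H b := fun b => indicator_nonneg (fun _ _ => zero_le_one) b
  have hF0 : ∀ j i b, 0 ≤ F j i b := by
    intro j i b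
    rw [hF]
    simp only
    by_cases h : i = j
    · rw [if_pos h]
      exact hH0 b
    · rw [if_neg h]
      exact hw0 b
  have hPint : ∀ j, ∫ b : Fin N → G, ∏ i, F j i (b i) ∂ν =
      (μ.real B * (1 - v)) * (μ.real B * (1 + v * (Real.exp (-l) - 1))) ^ (N - 1) := by
    intro j
    rw [hν, integral_fintype_prod_eq_prod]
    rw [← Finset.mul_prod_erase Finset.univ _ (Finset.mem_univ j)]
    have h1 : ∫ b, F j j b ∂μ = μ.real B * (1 - v) := by
      rw [hF]
      simp only [if_true]
      exact hHint
    have h2 : ∀ i ∈ Finset.univ.erase j, ∫ b, F j i b ∂μ =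
        μ.real B * (1 + v * (Real.exp (-l) - 1)) := by
      intro i hi
      rw [hF]
      simp only
      rw [if_neg (Finset.ne_of_mem_erase hi)]
      exact hwint
    rw [h1, Finset.prod_congr rfl h2, Finset.prod_const, Finset.card_erase_of_mem (Finset.mem_univ j),
      Finset.card_univ, Fintype.card_fin]
  -- the sum of the products
  set S : (Fin N → G) → ℝ := fun b => ∑ j, ∏ i, F j i (b i) with hS
  have hSi : Integrable S ν := integrable_finsetSum _ (fun j _ => hPi j)
  have hS0 : ∀ b, 0 ≤ S b := fun b =>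
    Finset.sum_nonneg (fun j _ => Finset.prod_nonneg (fun i _ => hF0 j i (b i)))
  have hSint : ∫ b, S b ∂ν =
      N * ((μ.real B * (1 - v)) * (μ.real B * (1 + v * (Real.exp (-l) - 1))) ^ (N - 1)) := by
    rw [hS, integral_finsetSum _ (fun j _ => hPi j), Finset.sum_congr rfl (fun j _ => hPint j),
      Finset.sum_const, Finset.card_univ, Fintype.card_fin, nsmul_eq_mul]
  -- value of `S` on samples from `B`
  have hSval : ∀ b : Fin N → G, (∀ j, b j ∈ B) →
      S b = (N - miss U b x) * Real.exp (-l * miss U b x) := by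
    intro b hb
    have h1 : ∀ j, ∏ i, F j i (b i) =
        (1 - (Uᶜ).indicator (fun _ => (1 : ℝ)) (x + b j)) * Real.exp (-l * miss U b x) := by
      intro j
      by_cases hj : x + b j ∈ U
      · have h2 : (Uᶜ).indicator (fun _ => (1 : ℝ)) (x + b j) = 0 :=
          indicator_of_notMem (fun h : x + b j ∈ Uᶜ => h hj) _
        have h3 : ∀ i, F j i (b i) = Real.exp (-l * (Uᶜ).indicator (fun _ => (1 : ℝ)) (x + b i)) := by
          intro i
          rw [hF]
          simp only
          by_cases h : i = j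
          · rw [if_pos h, h, h2, mul_zero, Real.exp_zero, hH,
              indicator_of_mem (show b j ∈ {b | b ∈ B ∧ x + b ∈ U} from ⟨hb j, hj⟩)]
          · rw [if_neg h]
            unfold wt
            rw [indicator_of_mem (hb i)]
        rw [h2, sub_zero, one_mul, Finset.prod_congr rfl (fun i _ => h3 i)]
        unfold miss
        rw [Finset.mul_sum, Real.exp_sum]
      · have h2 : (Uᶜ).indicator (fun _ => (1 : ℝ)) (x + b j) = 1 :=
          indicator_of_mem (show x + b j ∈ Uᶜ from hj) _
        rw [h2, sub_self, zero_mul]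
        apply Finset.prod_eq_zero (Finset.mem_univ j)
        rw [hF]
        simp only [if_true]
        rw [hH]
        exact indicator_of_notMem (fun h => hj h.2) _
    rw [hS]
    simp only
    rw [Finset.sum_congr rfl (fun j _ => h1 j), ← Finset.sum_mul, Finset.sum_sub_distrib,
      Finset.sum_const, Finset.card_univ, Fintype.card_fin, nsmul_eq_mul, mul_one]
    rfl
  have hNR : (1 : ℝ) ≤ N := by exact_mod_cast hN
  -- Markov
  set ε : ℝ := 11 / 16 * N * Real.exp (-l * (θ * N)) with hε
  have hε0 : 0 < ε := by positivity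
  have hl0 : 0 ≤ l := by rw [hl]; linarith
  have h1 := mul_meas_ge_le_integral_of_nonneg (ae_of_all ν hS0) hSi ε
  have h2 : {b : Fin N → G | (∀ j, b j ∈ B) ∧ miss U b x ≤ θ * N} ⊆ {b | ε ≤ S b} := by
    rintro b ⟨hb, hm⟩
    change ε ≤ S b
    rw [hSval b hb, hε]
    have h3 : 11 / 16 * (N : ℝ) ≤ N - miss U b x := by
      have : θ * N ≤ 5 / 16 * N := mul_le_mul_of_nonneg_right hθ (by linarith)
      linarith
    have h4 : Real.exp (-l * (θ * N)) ≤ Real.exp (-l * miss U b x) := by
      apply Real.exp_le_exp.mpr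
      nlinarith
    exact mul_le_mul h3 h4 (Real.exp_pos _).le (le_trans (by positivity) h3)
  have h3 : ε * ν.real {b | (∀ j, b j ∈ B) ∧ miss U b x ≤ θ * N} ≤ ∫ b, S b ∂ν :=
    le_trans (mul_le_mul_of_nonneg_left (measureReal_mono h2 (measure_ne_top _ _)) hε0.le) h1
  rw [hSint] at h3
  -- numerics
  have hexp1 : Real.exp (-l) - 1 ≤ -l + l ^ 2 := by
    have h5 := Real.abs_exp_sub_one_sub_id_le (x := -l)
      (by rw [abs_le]; constructor <;> rw [hl] <;> linarith)
    have h6 := (abs_le.mp h5).2
    have h7 : (-l) ^ 2 = l ^ 2 := by ring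
    linarith
  have hbase0 : 0 ≤ 1 + v * (Real.exp (-l) - 1) := by
    have := Real.exp_pos (-l)
    nlinarith
  have hbase : 1 + v * (Real.exp (-l) - 1) ≤ Real.exp (-(l * v) + l ^ 2) := by
    have h5 : v * (Real.exp (-l) - 1) ≤ -(l * v) + l ^ 2 := by
      calc v * (Real.exp (-l) - 1) ≤ v * (-l + l ^ 2) := mul_le_mul_of_nonneg_left hexp1 hv0
        _ = -(l * v) + v * l ^ 2 := by ring
        _ ≤ -(l * v) + 1 * l ^ 2 := by
            have := mul_le_mul_of_nonneg_right hv1 (sq_nonneg l)
            linarith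
        _ = _ := by ring
    have h6 := Real.add_one_le_exp (v * (Real.exp (-l) - 1))
    calc 1 + v * (Real.exp (-l) - 1) ≤ Real.exp (v * (Real.exp (-l) - 1)) := by linarith
      _ ≤ _ := Real.exp_le_exp.mpr h5
  have hNm : ((N - 1 : ℕ) : ℝ) = (N : ℝ) - 1 := by
    rw [Nat.cast_sub hN]
    simp
  have hpow : (μ.real B * (1 + v * (Real.exp (-l) - 1))) ^ (N - 1) ≤
      (μ.real B) ^ (N - 1) * Real.exp (((N : ℝ) - 1) * (-(l * v) + l ^ 2)) := by
    rw [mul_pow]
    apply mul_le_mul_of_nonneg_left _ (pow_nonneg measureReal_nonneg _)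
    rw [← hNm, Real.exp_nat_mul]
    exact pow_le_pow_left₀ hbase0 hbase _
  have hg0 : 0 ≤ 1 - v := by linarith
  have hBN : (μ.real B) * (μ.real B) ^ (N - 1) = (μ.real B) ^ N := by
    rw [← pow_succ']
    congr 1
    omega
  have h4 : ε * ν.real {b | (∀ j, b j ∈ B) ∧ miss U b x ≤ θ * N} ≤
      N * ((1 - v) * (μ.real B) ^ N * Real.exp (((N : ℝ) - 1) * (-(l * v) + l ^ 2))) := by
    refine h3.trans ?_
    apply mul_le_mul_of_nonneg_left _ (by linarith)
    calc μ.real B * (1 - v) * (μ.real B * (1 + v * (Real.exp (-l) - 1))) ^ (N - 1)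
        ≤ μ.real B * (1 - v) * ((μ.real B) ^ (N - 1) *
          Real.exp (((N : ℝ) - 1) * (-(l * v) + l ^ 2))) :=
          mul_le_mul_of_nonneg_left hpow (mul_nonneg hpos.le hg0)
      _ = (1 - v) * (μ.real B * (μ.real B) ^ (N - 1)) *
          Real.exp (((N : ℝ) - 1) * (-(l * v) + l ^ 2)) := by ring
      _ = _ := by rw [hBN]
  have h5 : (N : ℝ) * ((1 - v) * (μ.real B) ^ N * Real.exp (((N : ℝ) - 1) * (-(l * v) + l ^ 2))) ≤
      ε * ((μ.real B) ^ N * (2 * (1 - v) * Real.exp (-(3 / 64 * (N * ρ))))) := by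
    have h6 : Real.exp (((N : ℝ) - 1) * (-(l * v) + l ^ 2)) ≤
        11 / 8 * (Real.exp (-l * (θ * N)) * Real.exp (-(3 / 64 * (N * ρ)))) := by
      have h7 : Real.exp (((N : ℝ) - 1) * (-(l * v) + l ^ 2)) ≤
          Real.exp (1 / 32) * (Real.exp (-l * (θ * N)) * Real.exp (-(3 / 64 * (N * ρ)))) := by
        rw [← Real.exp_add, ← Real.exp_add]
        apply Real.exp_le_exp.mpr
        have hl32 : l ≤ 1 / 32 := by rw [hl]; linarith
        have hρl : ρ = 2 * l := by rw [hl]; ring
        rw [hρl]
        have e1 : l * (N * (v - θ)) ≥ l * (N * (1 / 8)) := by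
          apply mul_le_mul_of_nonneg_left _ hl0
          apply mul_le_mul_of_nonneg_left _ (by linarith)
          linarith
        have e2 : l * (N * l) ≤ l * (N * (1 / 32)) := by
          apply mul_le_mul_of_nonneg_left _ hl0
          exact mul_le_mul_of_nonneg_left hl32 (by linarith)
        have e3 : l * v ≤ 1 / 32 := by nlinarith
        nlinarith [sq_nonneg l]
      have h8 : Real.exp (1 / 32) ≤ 11 / 8 := by
        have h9 := Real.abs_exp_sub_one_sub_id_le (x := (1 : ℝ) / 32)
          (by rw [abs_le]; constructor <;> norm_num)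
        have h10 := (abs_le.mp h9).2
        norm_num at h10 ⊢
        linarith
      refine h7.trans ?_
      exact mul_le_mul_of_nonneg_right h8 (by positivity)
    calc (N : ℝ) * ((1 - v) * (μ.real B) ^ N * Real.exp (((N : ℝ) - 1) * (-(l * v) + l ^ 2)))
        ≤ (N : ℝ) * ((1 - v) * (μ.real B) ^ N *
          (11 / 8 * (Real.exp (-l * (θ * N)) * Real.exp (-(3 / 64 * (N * ρ)))))) := by
          apply mul_le_mul_of_nonneg_left _ (by linarith)
          exact mul_le_mul_of_nonneg_left h6 (mul_nonneg hg0 (pow_nonneg hpos.le _))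
      _ = _ := by rw [hε]; ring
  exact le_of_mul_le_mul_left (h4.trans h5) hε0

/-- The hit probability has total mass `μ U`. -/
theorem integral_hit (μ : Measure G) [IsProbabilityMeasure μ] [μ.IsAddLeftInvariant] {B U : Set G}
    (hB : MeasurableSet B) (hU : MeasurableSet U) (hpos : 0 < μ.real B) :
    Integrable (fun x => 1 - vv μ B U x) μ ∧ ∫ x, (1 - vv μ B U x) ∂μ = μ.real U := by
  have hadd : Measurable (fun p : G × G => p.1 + p.2) := measurable_fst.add measurable_snd
  have hint : Integrable (fun x => 1 - vv μ B U x) μ := by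
    refine Integrable.of_bound (C := 1)
      (measurable_const.sub (measurable_vv μ hB hU)).aestronglyMeasurable (ae_of_all _ ?_)
    intro x
    have h1 := vv_nonneg μ B U x
    have h2 := vv_le_one μ B U x
    rw [Real.norm_eq_abs, abs_le]
    constructor <;> linarith
  refine ⟨hint, ?_⟩
  set S : Set (G × G) := {p | p.2 ∈ B ∧ p.1 + p.2 ∈ U} with hS
  have hSm : MeasurableSet S := (measurable_snd hB).inter (hadd hU)
  have h1 : (μ.prod μ) S = μ B * μ U := by
    rw [Measure.prod_apply_symm hSm]
    have h2 : ∀ b, μ ((fun x => (x, b)) ⁻¹' S) = B.indicator (fun _ => μ U) b := by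
      intro b
      by_cases hb : b ∈ B
      · rw [indicator_of_mem hb]
        have h3 : (fun x => (x, b)) ⁻¹' S = (fun x => b + x) ⁻¹' U := by
          ext x
          constructor
          · rintro ⟨-, h⟩
            change b + x ∈ U
            rw [add_comm]
            exact h
          · intro h
            refine ⟨hb, ?_⟩
            change x + b ∈ U
            rw [add_comm]
            exact h
        rw [h3, measure_preimage_add]
      · rw [indicator_of_notMem hb]
        have h3 : (fun x => (x, b)) ⁻¹' S = ∅ := by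
          ext x
          constructor
          · rintro ⟨h, -⟩
            exact absurd h hb
          · intro h
            exact absurd h (notMem_empty _)
        rw [h3, measure_empty]
    rw [lintegral_congr h2, lintegral_indicator hB, setLIntegral_const, mul_comm]
  have h2 : (μ.prod μ) S = ENNReal.ofReal (∫ x, μ.real B * (1 - vv μ B U x) ∂μ) := by
    rw [ofReal_integral_eq_lintegral_ofReal (hint.const_mul _) (ae_of_all _ (fun x =>
      mul_nonneg hpos.le (by have := vv_le_one μ B U x; linarith))), Measure.prod_apply hSm]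
    apply lintegral_congr
    intro x
    have h3 : μ.real B * (1 - vv μ B U x) = μ.real {b | b ∈ B ∧ x + b ∈ U} := by
      have hadd' : Measurable (fun b : G => x + b) := measurable_const.add measurable_id
      have hHm : MeasurableSet {b | b ∈ B ∧ x + b ∈ U} := hB.inter (hadd' hU)
      have h4 : {b | b ∈ B ∧ x + b ∉ U} = B \ {b | b ∈ B ∧ x + b ∈ U} := by
        ext b
        constructor
        · rintro ⟨hb, h⟩
          exact ⟨hb, fun h' => h h'.2⟩
        · rintro ⟨hb, h⟩
          exact ⟨hb, fun h' => h ⟨hb, h'⟩⟩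
      have h5 : μ.real B * vv μ B U x = μ.real {b | b ∈ B ∧ x + b ∉ U} := by
        unfold vv
        field_simp
      rw [h4, measureReal_sdiff (fun b hb => hb.1) hHm] at h5
      linarith
    rw [h3, measureReal_def, ENNReal.ofReal_toReal (measure_ne_top _ _)]
    rfl
  rw [h1] at h2
  have h3 := congrArg ENNReal.toReal h2
  have h4 : 0 ≤ ∫ x, μ.real B * (1 - vv μ B U x) ∂μ := integral_nonneg (fun x =>
    mul_nonneg hpos.le (by have := vv_le_one μ B U x; linarith))
  rw [ENNReal.toReal_mul, ENNReal.toReal_ofReal h4, integral_const_mul] at h3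
  exact (mul_left_cancel₀ hpos.ne' h3).symm

/-- The level sets up to level `1/2` are at most twice as large as `U`. -/
theorem DD_le (μ : Measure G) [IsProbabilityMeasure μ] [μ.IsAddLeftInvariant] {B U : Set G}
    (hB : MeasurableSet B) (hU : MeasurableSet U) (hpos : 0 < μ.real B) {r : ℝ} (hr : r ≤ 1 / 2) :
    μ.real (DD μ B U r) ≤ 2 * μ.real U := by
  obtain ⟨hi, hint⟩ := integral_hit μ hB hU hpos
  have h1 := mul_meas_ge_le_integral_of_nonneg (f := fun x => 1 - vv μ B U x)
    (ae_of_all μ (fun x => by have := vv_le_one μ B U x; simp only [Pi.zero_apply]; linarith)) hi (1 / 2)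
  rw [hint] at h1
  have h2 : μ.real (DD μ B U r) ≤ μ.real {x | (1 : ℝ) / 2 ≤ 1 - vv μ B U x} := by
    refine measureReal_mono ?_ (measure_ne_top _ _)
    intro x hx
    have h3 : vv μ B U x ≤ r := hx
    change (1 : ℝ) / 2 ≤ 1 - vv μ B U x
    linarith
  linarith

end Pool.Agent.Helper30.BX
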