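import Mathlib

/-!
# Parseval for the indicator function of a subset of the torus
-/

set_option autoImplicit false

open MeasureTheory Set UnitAddTorus

namespace Pool.Agent.Helper30.BX

/-- The product Haar measure on the torus. -/
noncomputable def Pd (d : ℕ) : Measure (Fin d → UnitAddCircle) :=
  Measure.pi (fun _ => AddCircle.haarAddCircle)

instance (d : ℕ) : IsProbabilityMeasure (Pd d) := by
  unfold Pd
  infer_instance

instance (d : ℕ) : (Pd d).IsAddLeftInvariant := by
  unfold Pd
  infer_instance

theorem volume_circle : (volume : Measure UnitAddCircle) = AddCircle.haarAddCircle := by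
  have h := AddCircle.volume_eq_smul_haarAddCircle (T := (1 : ℝ))
  rw [ENNReal.ofReal_one, one_smul] at h
  exact h

theorem volume_eq_Pd (d : ℕ) : (volume : Measure (Fin d → UnitAddCircle)) = Pd d := by
  unfold Pd
  rw [MeasureTheory.volume_pi, volume_circle]

section local_haar

/-- The circle with its normalised Haar measure. -/
@[reducible] noncomputable def msCircle : MeasureSpace UnitAddCircle := ⟨AddCircle.haarAddCircle⟩

attribute [local instance] msCircle

theorem parseval_aux (d : ℕ) (g : (Fin d → UnitAddCircle) → ℂ) (hg : MemLp g 2 (Pd d)) :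
    HasSum (fun n : Fin d → ℤ => ‖∫ t, mFourier (-n) t * g t ∂(Pd d)‖ ^ 2)
      (∫ t, ‖g t‖ ^ 2 ∂(Pd d)) := by
  have h1 := hasSum_sq_mFourierCoeff (d := Fin d) (MemLp.toLp g hg)
  have h2 : ∀ n : Fin d → ℤ, mFourierCoeff (MemLp.toLp g hg) n =
      ∫ t, mFourier (-n) t * g t ∂(Pd d) := by
    intro n
    unfold mFourierCoeff
    apply integral_congr_ae
    filter_upwards [MemLp.coeFn_toLp hg] with t ht
    rw [ht, smul_eq_mul]
  have h3 : ∫ t, ‖(MemLp.toLp g hg) t‖ ^ 2 ∂(Pd d) = ∫ t, ‖g t‖ ^ 2 ∂(Pd d) := by
    apply integral_congr_ae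
    filter_upwards [MemLp.coeFn_toLp hg] with t ht
    rw [ht]
  rw [← h3]
  refine h1.congr_fun ?_
  intro n
  exact congrArg (fun z : ℂ => ‖z‖ ^ 2) (h2 n).symm

end local_haar

theorem mF_mul_conj (d : ℕ) (n : Fin d → ℤ) (t : Fin d → UnitAddCircle) :
    ‖mFourier n t‖ = 1 := by
  unfold mFourier
  simp only [ContinuousMap.coe_mk, norm_prod, fourier_apply, Circle.norm_coe, Finset.prod_const_one]

theorem mF_add_arg (d : ℕ) (n : Fin d → ℤ) (s t : Fin d → UnitAddCircle) :
    mFourier n (s + t) = mFourier n s * mFourier n t := by
  unfold mFourier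
  simp only [ContinuousMap.coe_mk]
  rw [← Finset.prod_mul_distrib]
  apply Finset.prod_congr rfl
  intro i _
  rw [Pi.add_apply]
  simp only [fourier_apply, smul_add, AddCircle.toCircle_add, Circle.coe_mul]

theorem mF_neg_arg (d : ℕ) (n : Fin d → ℤ) (t : Fin d → UnitAddCircle) :
    mFourier (-n) (-t) = mFourier n t := by
  unfold mFourier
  simp only [ContinuousMap.coe_mk]
  apply Finset.prod_congr rfl
  intro i _
  simp only [fourier_apply, Pi.neg_apply, neg_smul, smul_neg, neg_neg]

/-- The spectral weights of a set. -/
theorem exists_weights (d : ℕ) (B : Set (Fin d → UnitAddCircle)) (hB : MeasurableSet B) :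
    ∃ w : (Fin d → ℤ) → ℝ, (∀ n, 0 ≤ w n) ∧ HasSum w ((Pd d).real B) ∧
      ∀ t, HasSum (fun n => w n * (1 - (mFourier n t).re)) ((Pd d).real {b | b ∈ B ∧ b + t ∉ B}) := by
  classical
  set f : (Fin d → UnitAddCircle) → ℂ := B.indicator (fun _ => (1 : ℂ)) with hf
  have hfm : Measurable f := measurable_const.indicator hB
  have hfb : ∀ x, ‖f x‖ ≤ 1 := by
    intro x
    by_cases hx : x ∈ B
    · rw [hf, indicator_of_mem hx, norm_one]
    · rw [hf, indicator_of_notMem hx, norm_zero]
      exact zero_le_one
  have hmem : ∀ g : (Fin d → UnitAddCircle) → ℂ, Measurable g → (∀ x, ‖g x‖ ≤ 2) →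
      MemLp g 2 (Pd d) := by
    intro g hg hb
    exact MemLp.of_bound hg.aestronglyMeasurable 2 (ae_of_all _ hb)
  have hint : ∀ (n : Fin d → ℤ) (g : (Fin d → UnitAddCircle) → ℂ), Measurable g →
      (∀ x, ‖g x‖ ≤ 2) → Integrable (fun x => mFourier (-n) x * g x) (Pd d) := by
    intro n g hg hb
    refine Integrable.of_bound (C := 2) ?_ (ae_of_all _ ?_)
    · exact ((mFourier (-n)).continuous.measurable.mul hg).aestronglyMeasurable
    · intro x
      rw [norm_mul, mF_mul_conj, one_mul]
      exact hb x
  set F : (Fin d → ℤ) → ℂ := fun n => ∫ x, mFourier (-n) x * f x ∂(Pd d) with hF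
  refine ⟨fun n => ‖F n‖ ^ 2, fun n => sq_nonneg _, ?_, ?_⟩
  · have h1 := parseval_aux d f (hmem f hfm (fun x => (hfb x).trans one_le_two))
    have h2 : ∫ x, ‖f x‖ ^ 2 ∂(Pd d) = (Pd d).real B := by
      have h3 : (fun x => ‖f x‖ ^ 2) = B.indicator (fun _ => (1 : ℝ)) := by
        funext x
        by_cases hx : x ∈ B
        · rw [hf, indicator_of_mem hx, indicator_of_mem hx, norm_one, one_pow]
        · rw [hf, indicator_of_notMem hx, indicator_of_notMem hx, norm_zero]
          norm_num
      rw [h3, integral_indicator hB, setIntegral_const, smul_eq_mul, mul_one]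
    rw [h2] at h1
    exact h1
  · intro t
    have hadd : Measurable (fun x : Fin d → UnitAddCircle => t + x) :=
      measurable_const.add measurable_id
    have hft : Measurable (fun x => f (t + x)) := hfm.comp hadd
    set g : (Fin d → UnitAddCircle) → ℂ := fun x => f (t + x) - f x with hg
    have hgm : Measurable g := hft.sub hfm
    have hgb : ∀ x, ‖g x‖ ≤ 2 := by
      intro x
      calc ‖g x‖ ≤ ‖f (t + x)‖ + ‖f x‖ := norm_sub_le _ _
        _ ≤ 1 + 1 := add_le_add (hfb _) (hfb _)
        _ = 2 := by norm_num
    have h1 := parseval_aux d g (hmem g hgm hgb)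
    have h2 : ∀ n : Fin d → ℤ, ∫ x, mFourier (-n) x * g x ∂(Pd d) = (mFourier n t - 1) * F n := by
      intro n
      have h3 : (fun x => mFourier (-n) x * g x) =
          fun x => mFourier (-n) x * f (t + x) - mFourier (-n) x * f x := by
        funext x
        rw [hg]
        ring
      rw [h3, integral_sub (hint n (fun x => f (t + x)) hft
        (fun x => (hfb _).trans one_le_two)) (hint n f hfm (fun x => (hfb x).trans one_le_two))]
      have h4 : ∫ x, mFourier (-n) x * f (t + x) ∂(Pd d) = mFourier n t * F n := by
        have h5 : (fun x => mFourier (-n) x * f (t + x)) =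
            fun x => (fun z => mFourier (-n) (z + -t) * f z) (t + x) := by
          funext x
          simp only
          congr 2
          abel
        rw [h5, integral_add_left_eq_self (μ := Pd d) (fun z => mFourier (-n) (z + -t) * f z) t, hF]
        simp only
        rw [← integral_const_mul]
        congr 1
        funext z
        rw [mF_add_arg, mF_neg_arg]
        ring
      rw [h4]
      ring
    have h5 : ∀ n : Fin d → ℤ, ‖∫ x, mFourier (-n) x * g x ∂(Pd d)‖ ^ 2 =
        2 * (‖F n‖ ^ 2 * (1 - (mFourier n t).re)) := by
      intro n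
      rw [h2, norm_mul, mul_pow]
      have h6 : ‖mFourier n t - 1‖ ^ 2 = 2 * (1 - (mFourier n t).re) := by
        have h7 := mF_mul_conj d n t
        have h8 : (mFourier n t).re ^ 2 + (mFourier n t).im ^ 2 = 1 := by
          have h9 := Complex.sq_norm (mFourier n t)
          rw [h7, Complex.normSq_apply] at h9
          nlinarith
        rw [Complex.sq_norm, Complex.normSq_apply]
        simp only [Complex.sub_re, Complex.one_re, Complex.sub_im, Complex.one_im, sub_zero]
        nlinarith
      rw [h6]
      ring
    have h6 : ∫ x, ‖g x‖ ^ 2 ∂(Pd d) = 2 * (Pd d).real {b | b ∈ B ∧ b + t ∉ B} := by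
      have hBt : MeasurableSet ((fun x : Fin d → UnitAddCircle => t + x) ⁻¹' B) := hadd hB
      have h7 : (fun x => ‖g x‖ ^ 2) = fun x =>
          (B \ ((fun x => t + x) ⁻¹' B)).indicator (fun _ => (1 : ℝ)) x +
          (((fun x => t + x) ⁻¹' B) \ B).indicator (fun _ => (1 : ℝ)) x := by
        funext x
        by_cases hx : x ∈ B
        · by_cases hy : t + x ∈ B
          · rw [hg]
            simp only [hf]
            rw [indicator_of_mem hx, indicator_of_mem hy, indicator_of_notMem, indicator_of_notMem]
            · norm_num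
            · exact fun h => h.2 hx
            · exact fun h => h.2 hy
          · rw [hg]
            simp only [hf]
            rw [indicator_of_mem hx, indicator_of_notMem hy, indicator_of_mem, indicator_of_notMem]
            · norm_num
            · exact fun h => h.2 hx
            · exact ⟨hx, hy⟩
        · by_cases hy : t + x ∈ B
          · rw [hg]
            simp only [hf]
            rw [indicator_of_notMem hx, indicator_of_mem hy, indicator_of_notMem, indicator_of_mem]
            · norm_num
            · exact ⟨hy, hx⟩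
            · exact fun h => hx h.1
          · rw [hg]
            simp only [hf]
            rw [indicator_of_notMem hx, indicator_of_notMem hy, indicator_of_notMem,
              indicator_of_notMem]
            · norm_num
            · exact fun h => hy h.1
            · exact fun h => hx h.1
      have hm1 : MeasurableSet (B \ ((fun x => t + x) ⁻¹' B)) := hB.diff hBt
      have hm2 : MeasurableSet (((fun x => t + x) ⁻¹' B) \ B) := hBt.diff hB
      have i1 : Integrable (fun x => (B \ ((fun x => t + x) ⁻¹' B)).indicator
          (fun _ => (1 : ℝ)) x) (Pd d) := (integrable_const _).indicator hm1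
      have i2 : Integrable (fun x => (((fun x => t + x) ⁻¹' B) \ B).indicator
          (fun _ => (1 : ℝ)) x) (Pd d) := (integrable_const _).indicator hm2
      rw [h7, integral_add i1 i2, integral_indicator hm1, integral_indicator hm2,
        setIntegral_const, setIntegral_const, smul_eq_mul, smul_eq_mul, mul_one, mul_one]
      have h8 : (Pd d).real ((fun x => t + x) ⁻¹' B) = (Pd d).real B := by
        rw [measureReal_def, measureReal_def, measure_preimage_add]
      have h9 := measureReal_sdiff_add_inter (μ := Pd d) (s := B) hBt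
      have h10 := measureReal_sdiff_add_inter (μ := Pd d) (s := (fun x => t + x) ⁻¹' B) hB
      rw [inter_comm] at h10
      have h11 : {b | b ∈ B ∧ b + t ∉ B} = B \ ((fun x => t + x) ⁻¹' B) := by
        ext b
        constructor
        · rintro ⟨hb, hbt⟩
          refine ⟨hb, fun h => hbt ?_⟩
          rw [add_comm]
          exact h
        · rintro ⟨hb, hbt⟩
          refine ⟨hb, fun h => hbt ?_⟩
          rw [add_comm] at h
          exact h
      rw [h11]
      linarith
    rw [h6] at h1
    have h7 := h1.congr_fun (fun n => (h5 n).symm)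
    have h8 := h7.mul_left (1 / 2)
    have h9 : 1 / 2 * (2 * (Pd d).real {b | b ∈ B ∧ b + t ∉ B}) =
        (Pd d).real {b | b ∈ B ∧ b + t ∉ B} := by ring
    rw [h9] at h8
    refine h8.congr_fun ?_
    intro n
    ring

end Pool.Agent.Helper30.BX
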