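import Pool.Agent.Helper30.BX.Sample

/-!
# The set of good samples
-/

set_option autoImplicit false

open MeasureTheory Set

namespace Pool.Agent.Helper30.BX

variable {G : Type*} [AddCommGroup G] [MeasurableSpace G] [MeasurableAdd₂ G] [MeasurableNeg G]

theorem geom_sum_le (J : ℕ) (y : ℝ) (hy : 1 ≤ y) :
    ∑ j ∈ Finset.range J, Real.exp (-((2 * j + 1) * y)) ≤ 2 * Real.exp (-y) := by
  have h1 : ∀ j : ℕ, Real.exp (-((2 * j + 1) * y)) ≤ Real.exp (-y) * (1 / 2) ^ j := by
    intro j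
    have h2 : -((2 * (j : ℝ) + 1) * y) = -y + j * (-(2 * y)) := by ring
    rw [h2, Real.exp_add, Real.exp_nat_mul]
    apply mul_le_mul_of_nonneg_left _ (Real.exp_pos _).le
    apply pow_le_pow_left₀ (Real.exp_pos _).le
    have h3 : Real.exp (-(2 * y)) ≤ Real.exp (-1) := Real.exp_le_exp.mpr (by linarith)
    have h4 : Real.exp (-1) < 0.3678794412 := Real.exp_neg_one_lt_d9
    linarith
  calc ∑ j ∈ Finset.range J, Real.exp (-((2 * j + 1) * y))
      ≤ ∑ j ∈ Finset.range J, Real.exp (-y) * (1 / 2) ^ j := Finset.sum_le_sum (fun j _ => h1 j)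
    _ = Real.exp (-y) * ∑ j ∈ Finset.range J, (1 / 2 : ℝ) ^ j := by rw [Finset.mul_sum]
    _ ≤ Real.exp (-y) * 2 := by
        apply mul_le_mul_of_nonneg_left _ (Real.exp_pos _).le
        exact sum_geometric_two_le J
    _ = 2 * Real.exp (-y) := by ring

/-- The total measure of the error set. -/
theorem errS_total (μ : Measure G) [IsProbabilityMeasure μ] {B U : Set G}
    (hB : MeasurableSet B) (hU : MeasurableSet U) (hpos : 0 < μ.real B) (N : ℕ) (Λ r ρ y : ℝ)
    (hΛ : 0 ≤ Λ) (hρ0 : 0 < ρ) (hρ : ρ ≤ 2) (hy : 1 ≤ y)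
    (hgrow : ∀ j : ℕ, μ.real (DD μ B U (r + j * ρ)) ≤ Real.exp (Λ * ρ * j) * μ.real (DD μ B U r))
    (hN : 3 * (Λ * ρ) + y ≤ N * ρ ^ 2 / 4) :
    ((Measure.pi (fun _ : Fin N => μ)).prod μ).real (errS μ B U N r ρ) ≤
      3 * Real.exp (-y) * μ.real (DD μ B U r) * (μ.real B) ^ N := by
  classical
  set ν : Measure (Fin N → G) := Measure.pi (fun _ : Fin N => μ) with hν
  set Y : ℝ := N * ρ ^ 2 / 4 with hY
  obtain ⟨J, hJ⟩ : ∃ J : ℕ, 1 ≤ r + (J + 2) * ρ := by
    obtain ⟨J, hJ⟩ := exists_nat_ge ((1 - r) / ρ)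
    refine ⟨J, ?_⟩
    rw [div_le_iff₀ hρ0] at hJ
    nlinarith
  have hm := measurableSet_errS μ hB hU N r ρ
  have hD : ∀ s, MeasurableSet (DD μ B U s) := measurableSet_DD μ hB hU
  have hBN : 0 ≤ (μ.real B) ^ N := pow_nonneg measureReal_nonneg _
  -- the bounding function
  set g : G → ℝ := fun x => (μ.real B) ^ N *
    ((DD μ B U r).indicator (fun _ => Real.exp (-Y)) x +
      ∑ j ∈ Finset.range J, (DD μ B U (r + (j + 3) * ρ)).indicator
        (fun _ => Real.exp (-((2 * j + 1) * Y))) x) with hg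
  have hg0 : ∀ x, 0 ≤ g x := fun x => mul_nonneg hBN (add_nonneg
    (indicator_nonneg (fun _ _ => (Real.exp_pos _).le) x)
    (Finset.sum_nonneg (fun j _ => indicator_nonneg (fun _ _ => (Real.exp_pos _).le) x)))
  have i1 : Integrable (fun x => (DD μ B U r).indicator (fun _ => Real.exp (-Y)) x) μ :=
    (integrable_const _).indicator (hD r)
  have i2 : ∀ j ∈ Finset.range J, Integrable (fun x => (DD μ B U (r + ((j : ℝ) + 3) * ρ)).indicator
        (fun _ => Real.exp (-((2 * j + 1) * Y))) x) μ :=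
    fun j _ => (integrable_const _).indicator (hD _)
  have i3 : Integrable (fun x => ∑ j ∈ Finset.range J,
      (DD μ B U (r + ((j : ℝ) + 3) * ρ)).indicator
        (fun _ => Real.exp (-((2 * j + 1) * Y))) x) μ := integrable_finsetSum _ i2
  have hgi : Integrable g μ := (i1.add i3).const_mul _
  have hint : ∫ x, g x ∂μ = (μ.real B) ^ N * (Real.exp (-Y) * μ.real (DD μ B U r) +
      ∑ j ∈ Finset.range J, Real.exp (-((2 * j + 1) * Y)) *
        μ.real (DD μ B U (r + (j + 3) * ρ))) := by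
    rw [hg, integral_const_mul, integral_add i1 i3, integral_finsetSum _ i2,
      integral_indicator (hD r), setIntegral_const]
    congr 2
    · rw [smul_eq_mul, mul_comm]
    · apply Finset.sum_congr rfl
      intro j _
      rw [integral_indicator (hD _), setIntegral_const, smul_eq_mul, mul_comm]
  have hle : ((ν.prod μ) (errS μ B U N r ρ)) ≤ ENNReal.ofReal (∫ x, g x ∂μ) := by
    rw [ofReal_integral_eq_lintegral_ofReal hgi (ae_of_all _ hg0), Measure.prod_apply_symm hm]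
    apply lintegral_mono
    intro x
    have h1 := slice_bound μ hB hU hpos N J r ρ hρ0 hρ hJ x
    have h2 : ν ((fun b => (b, x)) ⁻¹' errS μ B U N r ρ) =
        ENNReal.ofReal (ν.real {b | (b, x) ∈ errS μ B U N r ρ}) := by
      rw [measureReal_def, ENNReal.ofReal_toReal (measure_ne_top _ _)]
      rfl
    change ν ((fun b => (b, x)) ⁻¹' errS μ B U N r ρ) ≤ ENNReal.ofReal (g x)
    rw [h2]
    exact ENNReal.ofReal_le_ofReal h1
  have hint0 : 0 ≤ ∫ x, g x ∂μ := integral_nonneg hg0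
  have hle2 : (ν.prod μ).real (errS μ B U N r ρ) ≤ ∫ x, g x ∂μ := by
    rw [measureReal_def]
    exact ENNReal.toReal_le_of_le_ofReal hint0 hle
  refine hle2.trans ?_
  rw [hint]
  have hμ0 : 0 ≤ μ.real (DD μ B U r) := measureReal_nonneg
  have hYy : y ≤ Y := by nlinarith [mul_nonneg hΛ hρ0.le]
  have t1 : Real.exp (-Y) * μ.real (DD μ B U r) ≤ Real.exp (-y) * μ.real (DD μ B U r) :=
    mul_le_mul_of_nonneg_right (Real.exp_le_exp.mpr (by linarith)) hμ0
  have t2 : ∑ j ∈ Finset.range J, Real.exp (-((2 * j + 1) * Y)) *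
        μ.real (DD μ B U (r + (j + 3) * ρ)) ≤ 2 * Real.exp (-y) * μ.real (DD μ B U r) := by
    have t3 : ∀ j ∈ Finset.range J, Real.exp (-((2 * (j : ℝ) + 1) * Y)) *
        μ.real (DD μ B U (r + (j + 3) * ρ)) ≤
        Real.exp (-((2 * j + 1) * y)) * μ.real (DD μ B U r) := by
      intro j _
      have h1 := hgrow (j + 3)
      have h2 : ((j + 3 : ℕ) : ℝ) = (j : ℝ) + 3 := by push_cast; ring
      rw [h2] at h1
      calc Real.exp (-((2 * (j : ℝ) + 1) * Y)) * μ.real (DD μ B U (r + (j + 3) * ρ))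
          ≤ Real.exp (-((2 * (j : ℝ) + 1) * Y)) *
            (Real.exp (Λ * ρ * (j + 3)) * μ.real (DD μ B U r)) :=
            mul_le_mul_of_nonneg_left h1 (Real.exp_pos _).le
        _ = Real.exp (-((2 * (j : ℝ) + 1) * Y) + Λ * ρ * (j + 3)) * μ.real (DD μ B U r) := by
            rw [Real.exp_add]
            ring
        _ ≤ Real.exp (-((2 * j + 1) * y)) * μ.real (DD μ B U r) := by
            apply mul_le_mul_of_nonneg_right _ hμ0
            apply Real.exp_le_exp.mpr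
            have hj : (0 : ℝ) ≤ j := Nat.cast_nonneg j
            have h3 : (2 * (j : ℝ) + 1) * (3 * (Λ * ρ) + y) ≤ (2 * (j : ℝ) + 1) * Y :=
              mul_le_mul_of_nonneg_left hN (by linarith)
            have h4 : 0 ≤ Λ * ρ := mul_nonneg hΛ hρ0.le
            nlinarith [mul_nonneg hj h4]
    calc _ ≤ ∑ j ∈ Finset.range J, Real.exp (-((2 * (j : ℝ) + 1) * y)) * μ.real (DD μ B U r) :=
          Finset.sum_le_sum t3
      _ = (∑ j ∈ Finset.range J, Real.exp (-((2 * (j : ℝ) + 1) * y))) * μ.real (DD μ B U r) := by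
          rw [Finset.sum_mul]
      _ ≤ (2 * Real.exp (-y)) * μ.real (DD μ B U r) :=
          mul_le_mul_of_nonneg_right (geom_sum_le J y hy) hμ0
      _ = _ := by ring
  calc (μ.real B) ^ N * (Real.exp (-Y) * μ.real (DD μ B U r) +
      ∑ j ∈ Finset.range J, Real.exp (-((2 * j + 1) * Y)) *
        μ.real (DD μ B U (r + (j + 3) * ρ)))
      ≤ (μ.real B) ^ N * (Real.exp (-y) * μ.real (DD μ B U r) +
        2 * Real.exp (-y) * μ.real (DD μ B U r)) :=
        mul_le_mul_of_nonneg_left (add_le_add t1 t2) hBN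
    _ = _ := by ring

/-- At least half of the samples are good. -/
theorem exists_good (μ : Measure G) [IsProbabilityMeasure μ] {B U : Set G}
    (hB : MeasurableSet B) (hU : MeasurableSet U) (hpos : 0 < μ.real B) (N : ℕ) (Λ r ρ y : ℝ)
    (hΛ : 0 ≤ Λ) (hρ0 : 0 < ρ) (hρ : ρ ≤ 2) (hy : 1 ≤ y)
    (hD0 : 0 < μ.real (DD μ B U r))
    (hgrow : ∀ j : ℕ, μ.real (DD μ B U (r + j * ρ)) ≤ Real.exp (Λ * ρ * j) * μ.real (DD μ B U r))
    (hN : 3 * (Λ * ρ) + y ≤ N * ρ ^ 2 / 4) :
    ∃ Good : Set (Fin N → G), MeasurableSet Good ∧ (∀ b ∈ Good, ∀ j, b j ∈ B) ∧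
      (μ.real B) ^ N / 2 ≤ (Measure.pi (fun _ : Fin N => μ)).real Good ∧
      ∀ b ∈ Good, μ.real {x | (b, x) ∈ errS μ B U N r ρ} ≤
        6 * Real.exp (-y) * μ.real (DD μ B U r) := by
  classical
  set ν : Measure (Fin N → G) := Measure.pi (fun _ : Fin N => μ) with hν
  have hm := measurableSet_errS μ hB hU N r ρ
  have htot := errS_total μ hB hU hpos N Λ r ρ y hΛ hρ0 hρ hy hgrow hN
  set c : ℝ := 6 * Real.exp (-y) * μ.real (DD μ B U r) with hc
  have hc0 : 0 < c := by positivity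
  have hf : Measurable (fun b : Fin N → G => μ (Prod.mk b ⁻¹' errS μ B U N r ρ)) :=
    measurable_measure_prodMk_left hm
  set BN : Set (Fin N → G) := univ.pi (fun _ => B) with hBNdef
  have hBNm : MeasurableSet BN := MeasurableSet.univ_pi (fun _ => hB)
  have hBNr : ν.real BN = (μ.real B) ^ N := by
    rw [hBNdef, hν, pi_real, Finset.prod_const, Finset.card_univ, Fintype.card_fin]
  refine ⟨BN ∩ {b | μ (Prod.mk b ⁻¹' errS μ B U N r ρ) ≤ ENNReal.ofReal c},
    hBNm.inter (measurableSet_le hf measurable_const), ?_, ?_, ?_⟩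
  · intro b hb j
    exact hb.1 j (mem_univ j)
  · have h1 := mul_meas_ge_le_lintegral (μ := ν) hf (ENNReal.ofReal c)
    rw [← Measure.prod_apply hm] at h1
    have h2 : ν.real {b | ENNReal.ofReal c ≤ μ (Prod.mk b ⁻¹' errS μ B U N r ρ)} ≤
        (μ.real B) ^ N / 2 := by
      have h3 := ENNReal.toReal_mono (measure_ne_top _ _) h1
      rw [ENNReal.toReal_mul, ENNReal.toReal_ofReal hc0.le] at h3
      have h4 : c * ν.real {b | ENNReal.ofReal c ≤ μ (Prod.mk b ⁻¹' errS μ B U N r ρ)} ≤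
          c * ((μ.real B) ^ N / 2) := by
        calc c * ν.real {b | ENNReal.ofReal c ≤ μ (Prod.mk b ⁻¹' errS μ B U N r ρ)}
            ≤ (ν.prod μ).real (errS μ B U N r ρ) := h3
          _ ≤ 3 * Real.exp (-y) * μ.real (DD μ B U r) * (μ.real B) ^ N := htot
          _ = c * ((μ.real B) ^ N / 2) := by rw [hc]; ring
      exact le_of_mul_le_mul_left h4 hc0
    have h3 : BN ⊆ (BN ∩ {b | μ (Prod.mk b ⁻¹' errS μ B U N r ρ) ≤ ENNReal.ofReal c}) ∪
        {b | ENNReal.ofReal c ≤ μ (Prod.mk b ⁻¹' errS μ B U N r ρ)} := by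
      intro b hb
      rcases le_total (μ (Prod.mk b ⁻¹' errS μ B U N r ρ)) (ENNReal.ofReal c) with h | h
      · exact Or.inl ⟨hb, h⟩
      · exact Or.inr h
    have h4 := (measureReal_mono h3 (measure_ne_top ν _)).trans (measureReal_union_le _ _)
    rw [hBNr] at h4
    linarith
  · rintro b ⟨hb, h⟩
    exact ENNReal.toReal_le_of_le_ofReal hc0.le h

end Pool.Agent.Helper30.BX
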