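import Pool.Agent.Helper30.BX.Good
import Pool.Agent.Helper30.BX.Far

/-!
# The set of good samples, version for small doubling

Only the levels up to `1/2` are assumed to grow slowly; the far points are controlled by
`far_tail` and the total mass of the hit probability.
-/

set_option autoImplicit false

open MeasureTheory Set

namespace Pool.Agent.Helper30.BX

variable {G : Type*} [AddCommGroup G] [MeasurableSpace G] [MeasurableAdd₂ G] [MeasurableNeg G]

/-- The slice bound. -/
theorem slice_bound2 (μ : Measure G) [IsProbabilityMeasure μ] {B U : Set G}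
    (hB : MeasurableSet B) (hU : MeasurableSet U) (hpos : 0 < μ.real B) (N J : ℕ) (hN : 1 ≤ N)
    (r ρ : ℝ) (hρ0 : 0 < ρ) (hρ : ρ ≤ 1 / 16) (hr : r ≤ 1 / 4) (hJ : 1 / 2 < r + (J + 3) * ρ)
    (x : G) :
    (Measure.pi (fun _ : Fin N => μ)).real {b | (b, x) ∈ errS μ B U N r ρ} ≤
      (μ.real B) ^ N * ((DD μ B U r).indicator (fun _ => Real.exp (-(N * ρ ^ 2 / 4))) x +
        ∑ j ∈ Finset.range J, (DD μ B U (r + (j + 3) * ρ)).indicator
          (fun _ => Real.exp (-((2 * j + 1) * (N * ρ ^ 2 / 4)))) x +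
        2 * (1 - vv μ B U x) * Real.exp (-(3 / 64 * (N * ρ)))) := by
  classical
  have hBN : 0 ≤ (μ.real B) ^ N := pow_nonneg measureReal_nonneg _
  have hsum0 : 0 ≤ ∑ j ∈ Finset.range J, (DD μ B U (r + (j + 3) * ρ)).indicator
          (fun _ => Real.exp (-((2 * j + 1) * (N * ρ ^ 2 / 4)))) x :=
    Finset.sum_nonneg (fun j _ => indicator_nonneg (fun _ _ => (Real.exp_pos _).le) x)
  have hind0 : 0 ≤ (DD μ B U r).indicator (fun _ => Real.exp (-(N * ρ ^ 2 / 4))) x :=
    indicator_nonneg (fun _ _ => (Real.exp_pos _).le) x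
  have hv1 := vv_le_one μ B U x
  have hfar0 : 0 ≤ 2 * (1 - vv μ B U x) * Real.exp (-(3 / 64 * (N * ρ))) :=
    mul_nonneg (by linarith) (Real.exp_pos _).le
  by_cases h0 : x ∈ DD μ B U r
  · have h2 : x ∈ DD μ B U (r + 2 * ρ) := DD_mono μ B U (by linarith) h0
    have h3 : (Measure.pi (fun _ : Fin N => μ)).real {b | (b, x) ∈ errS μ B U N r ρ} ≤
        (Measure.pi (fun _ : Fin N => μ)).real
          {b | (∀ j, b j ∈ B) ∧ (r + ρ) * N < miss U b x} := by
      refine measureReal_mono ?_ (measure_ne_top _ _)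
      rintro b ⟨hb, h | h⟩
      · exact ⟨hb, h.2⟩
      · exact absurd h2 h.1
    refine (h3.trans (upper_tail μ hB hU hpos N r ρ hρ0.le (by linarith) x h0)).trans ?_
    apply mul_le_mul_of_nonneg_left _ hBN
    rw [indicator_of_mem h0]
    linarith
  · by_cases h2 : x ∈ DD μ B U (r + 2 * ρ)
    · have h3 : {b : Fin N → G | (b, x) ∈ errS μ B U N r ρ} = ∅ := by
        ext b
        constructor
        · rintro ⟨hb, h | h⟩
          · exact absurd h.1 h0
          · exact absurd h2 h.1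
        · intro h
          exact absurd h (notMem_empty _)
      rw [h3, measureReal_empty]
      exact mul_nonneg hBN (add_nonneg (add_nonneg hind0 hsum0) hfar0)
    · have h3 : (Measure.pi (fun _ : Fin N => μ)).real {b | (b, x) ∈ errS μ B U N r ρ} ≤
          (Measure.pi (fun _ : Fin N => μ)).real
            {b | (∀ j, b j ∈ B) ∧ miss U b x ≤ (r + ρ) * N} := by
        refine measureReal_mono ?_ (measure_ne_top _ _)
        rintro b ⟨hb, h | h⟩
        · exact absurd h.1 h0
        · exact ⟨hb, h.2⟩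
      -- the shell of `x`
      have hex : ∃ j : ℕ, vv μ B U x ≤ r + (j + 3) * ρ := by
        obtain ⟨j, hj⟩ := exists_nat_ge ((1 - r) / ρ)
        refine ⟨j, ?_⟩
        rw [div_le_iff₀ hρ0] at hj
        nlinarith
      have hJex : vv μ B U x ≤ r + ((Nat.find hex : ℕ) + 3) * ρ := Nat.find_spec hex
      set k := Nat.find hex with hk
      have hk2 : r + (k + 2) * ρ < vv μ B U x := by
        by_cases hk0 : k = 0
        · rw [hk0]
          have h4 : ¬ vv μ B U x ≤ r + 2 * ρ := h2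
          push Not at h4
          simpa using h4
        · have h4 := Nat.find_min hex (m := k - 1) (by rw [← hk]; omega)
          push Not at h4
          have h5 : ((k - 1 : ℕ) : ℝ) = (k : ℝ) - 1 := by
            rw [Nat.cast_sub (by omega)]
            simp
          rw [h5] at h4
          calc r + (k + 2) * ρ = r + ((k : ℝ) - 1 + 3) * ρ := by ring
            _ < _ := h4
      by_cases hkJ : k < J
      · have h4 := lower_tail μ hB hU hpos N (r + ρ) ((k + 1) * ρ) ρ hρ0.le (by linarith) x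
          (by nlinarith)
        refine (h3.trans h4).trans ?_
        apply mul_le_mul_of_nonneg_left _ hBN
        have h5 : Real.exp (-(N * (ρ / 2) * ((k + 1) * ρ - ρ / 2))) =
            (DD μ B U (r + (k + 3) * ρ)).indicator
              (fun _ => Real.exp (-((2 * k + 1) * (N * ρ ^ 2 / 4)))) x := by
          rw [indicator_of_mem (show x ∈ DD μ B U (r + (k + 3) * ρ) from hJex)]
          congr 1
          ring
        rw [h5]
        have h6 := Finset.single_le_sum (f := fun j : ℕ => (DD μ B U (r + (j + 3) * ρ)).indicator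
            (fun _ => Real.exp (-((2 * j + 1) * (N * ρ ^ 2 / 4)))) x)
          (fun j _ => indicator_nonneg (fun _ _ => (Real.exp_pos _).le) x)
          (Finset.mem_range.mpr hkJ)
        linarith
      · push Not at hkJ
        have h4 : (J : ℝ) ≤ k := by exact_mod_cast hkJ
        have h5 : 7 / 16 ≤ vv μ B U x := by nlinarith
        have h6 := far_tail μ hB hU hpos N hN (r + ρ) ρ hρ0.le hρ (by linarith) x h5
        refine (h3.trans h6).trans ?_
        apply mul_le_mul_of_nonneg_left _ hBN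
        linarith

/-- The total measure of the error set. -/
theorem errS_total2 (μ : Measure G) [IsProbabilityMeasure μ] [μ.IsAddLeftInvariant] {B U : Set G}
    (hB : MeasurableSet B) (hU : MeasurableSet U) (hpos : 0 < μ.real B) (N : ℕ) (Λ r ρ y : ℝ)
    (hΛ : 0 ≤ Λ) (hρ0 : 0 < ρ) (hρ : ρ ≤ 1 / 16) (hr : r ≤ 1 / 4) (hy : 1 ≤ y)
    (hgrow : ∀ j : ℕ, r + j * ρ ≤ 1 / 2 →
      μ.real (DD μ B U (r + j * ρ)) ≤ Real.exp (Λ * ρ * j) * μ.real (DD μ B U r))
    (hfar : μ.real U ≤ Real.exp (Λ / 2) * μ.real (DD μ B U r))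
    (hN : 3 * (Λ * ρ) + y ≤ N * ρ ^ 2 / 4) :
    ((Measure.pi (fun _ : Fin N => μ)).prod μ).real (errS μ B U N r ρ) ≤
      5 * Real.exp (-y) * μ.real (DD μ B U r) * (μ.real B) ^ N := by
  classical
  set ν : Measure (Fin N → G) := Measure.pi (fun _ : Fin N => μ) with hν
  set Y : ℝ := N * ρ ^ 2 / 4 with hY
  have hΛρ : 0 ≤ Λ * ρ := mul_nonneg hΛ hρ0.le
  have hN1 : 1 ≤ N := by
    by_contra hcon
    push Not at hcon
    have h1 : N = 0 := by omega
    rw [hY, h1, Nat.cast_zero, zero_mul, zero_div] at hN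
    linarith
  have hexJ : ∃ J : ℕ, 1 / 2 < r + (J + 3) * ρ := by
    obtain ⟨J, hJ⟩ := exists_nat_ge ((1 - r) / ρ)
    refine ⟨J, ?_⟩
    rw [div_le_iff₀ hρ0] at hJ
    nlinarith
  set J := Nat.find hexJ with hJdef
  have hJ : 1 / 2 < r + (J + 3) * ρ := Nat.find_spec hexJ
  have hJmin : ∀ j : ℕ, j < J → r + (j + 3) * ρ ≤ 1 / 2 := by
    intro j hj
    have := Nat.find_min hexJ (m := j) (by rw [← hJdef]; exact hj)
    push Not at this
    exact this
  have hm := measurableSet_errS μ hB hU N r ρ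
  have hD : ∀ s, MeasurableSet (DD μ B U s) := measurableSet_DD μ hB hU
  have hBN : 0 ≤ (μ.real B) ^ N := pow_nonneg measureReal_nonneg _
  obtain ⟨hhi, hhint⟩ := integral_hit μ hB hU hpos
  set e : ℝ := Real.exp (-(3 / 64 * (N * ρ))) with he
  have he0 : 0 < e := Real.exp_pos _
  -- the bounding function
  set g : G → ℝ := fun x => (μ.real B) ^ N *
    ((DD μ B U r).indicator (fun _ => Real.exp (-Y)) x +
      ∑ j ∈ Finset.range J, (DD μ B U (r + (j + 3) * ρ)).indicator
        (fun _ => Real.exp (-((2 * j + 1) * Y))) x + 2 * (1 - vv μ B U x) * e) with hg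
  have hfar0 : ∀ x, 0 ≤ 2 * (1 - vv μ B U x) * e := fun x =>
    mul_nonneg (by have := vv_le_one μ B U x; linarith) he0.le
  have hg0 : ∀ x, 0 ≤ g x := fun x => mul_nonneg hBN (add_nonneg (add_nonneg
    (indicator_nonneg (fun _ _ => (Real.exp_pos _).le) x)
    (Finset.sum_nonneg (fun j _ => indicator_nonneg (fun _ _ => (Real.exp_pos _).le) x))) (hfar0 x))
  have i1 : Integrable (fun x => (DD μ B U r).indicator (fun _ => Real.exp (-Y)) x) μ :=
    (integrable_const _).indicator (hD r)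
  have i2 : ∀ j ∈ Finset.range J, Integrable (fun x => (DD μ B U (r + ((j : ℝ) + 3) * ρ)).indicator
        (fun _ => Real.exp (-((2 * j + 1) * Y))) x) μ :=
    fun j _ => (integrable_const _).indicator (hD _)
  have i3 : Integrable (fun x => ∑ j ∈ Finset.range J,
      (DD μ B U (r + ((j : ℝ) + 3) * ρ)).indicator
        (fun _ => Real.exp (-((2 * j + 1) * Y))) x) μ := integrable_finsetSum _ i2
  have i4 : Integrable (fun x => 2 * (1 - vv μ B U x) * e) μ := (hhi.const_mul 2).mul_const e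
  have hgi : Integrable g μ := ((i1.add i3).add i4).const_mul _
  have hint : ∫ x, g x ∂μ = (μ.real B) ^ N * (Real.exp (-Y) * μ.real (DD μ B U r) +
      ∑ j ∈ Finset.range J, Real.exp (-((2 * j + 1) * Y)) *
        μ.real (DD μ B U (r + (j + 3) * ρ)) + 2 * μ.real U * e) := by
    have h1 : ∫ x, ((DD μ B U r).indicator (fun _ => Real.exp (-Y)) x +
      ∑ j ∈ Finset.range J, (DD μ B U (r + (j + 3) * ρ)).indicator
        (fun _ => Real.exp (-((2 * j + 1) * Y))) x + 2 * (1 - vv μ B U x) * e) ∂μ =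
      ∫ x, ((DD μ B U r).indicator (fun _ => Real.exp (-Y)) x +
      ∑ j ∈ Finset.range J, (DD μ B U (r + (j + 3) * ρ)).indicator
        (fun _ => Real.exp (-((2 * j + 1) * Y))) x) ∂μ + ∫ x, 2 * (1 - vv μ B U x) * e ∂μ :=
      integral_add (i1.add i3) i4
    rw [hg, integral_const_mul, h1, integral_add i1 i3, integral_finsetSum _ i2,
      integral_indicator (hD r), setIntegral_const, integral_mul_const, integral_const_mul, hhint]
    congr 3
    · rw [smul_eq_mul, mul_comm]
    · apply Finset.sum_congr rfl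
      intro j _
      rw [integral_indicator (hD _), setIntegral_const, smul_eq_mul, mul_comm]
  have hle : ((ν.prod μ) (errS μ B U N r ρ)) ≤ ENNReal.ofReal (∫ x, g x ∂μ) := by
    rw [ofReal_integral_eq_lintegral_ofReal hgi (ae_of_all _ hg0), Measure.prod_apply_symm hm]
    apply lintegral_mono
    intro x
    have h1 := slice_bound2 μ hB hU hpos N J hN1 r ρ hρ0 hρ hr hJ x
    have h2 : ν ((fun b => (b, x)) ⁻¹' errS μ B U N r ρ) =
        ENNReal.ofReal (ν.real {b | (b, x) ∈ errS μ B U N r ρ}) := by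
      rw [measureReal_def, ENNReal.ofReal_toReal (measure_ne_top _ _)]
      rfl
    change ν ((fun b => (b, x)) ⁻¹' errS μ B U N r ρ) ≤ ENNReal.ofReal (g x)
    rw [h2]
    exact ENNReal.ofReal_le_ofReal h1
  have hint0 : 0 ≤ ∫ x, g x ∂μ := integral_nonneg hg0
  have hle2 : (ν.prod μ).real (errS μ B U N r ρ) ≤ ∫ x, g x ∂μ := by
    rw [measureReal_def]
    exact ENNReal.toReal_le_of_le_ofReal hint0 hle
  refine hle2.trans ?_
  rw [hint]
  have hμ0 : 0 ≤ μ.real (DD μ B U r) := measureReal_nonneg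
  have hYy : y ≤ Y := by linarith
  have t1 : Real.exp (-Y) * μ.real (DD μ B U r) ≤ Real.exp (-y) * μ.real (DD μ B U r) :=
    mul_le_mul_of_nonneg_right (Real.exp_le_exp.mpr (by linarith)) hμ0
  have t2 : ∑ j ∈ Finset.range J, Real.exp (-((2 * j + 1) * Y)) *
        μ.real (DD μ B U (r + (j + 3) * ρ)) ≤ 2 * Real.exp (-y) * μ.real (DD μ B U r) := by
    have t3 : ∀ j ∈ Finset.range J, Real.exp (-((2 * (j : ℝ) + 1) * Y)) *
        μ.real (DD μ B U (r + (j + 3) * ρ)) ≤
        Real.exp (-((2 * j + 1) * y)) * μ.real (DD μ B U r) := by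
      intro j hj
      have h2 : ((j + 3 : ℕ) : ℝ) = (j : ℝ) + 3 := by push_cast; ring
      have h1 := hgrow (j + 3) (by rw [h2]; exact hJmin j (Finset.mem_range.mp hj))
      rw [h2] at h1
      calc Real.exp (-((2 * (j : ℝ) + 1) * Y)) * μ.real (DD μ B U (r + (j + 3) * ρ))
          ≤ Real.exp (-((2 * (j : ℝ) + 1) * Y)) *
            (Real.exp (Λ * ρ * (j + 3)) * μ.real (DD μ B U r)) :=
            mul_le_mul_of_nonneg_left h1 (Real.exp_pos _).le
        _ = Real.exp (-((2 * (j : ℝ) + 1) * Y) + Λ * ρ * (j + 3)) * μ.real (DD μ B U r) := by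
            rw [Real.exp_add]
            ring
        _ ≤ Real.exp (-((2 * j + 1) * y)) * μ.real (DD μ B U r) := by
            apply mul_le_mul_of_nonneg_right _ hμ0
            apply Real.exp_le_exp.mpr
            have hj : (0 : ℝ) ≤ j := Nat.cast_nonneg j
            have h3 : (2 * (j : ℝ) + 1) * (3 * (Λ * ρ) + y) ≤ (2 * (j : ℝ) + 1) * Y :=
              mul_le_mul_of_nonneg_left hN (by linarith)
            nlinarith [mul_nonneg hj hΛρ]
    calc _ ≤ ∑ j ∈ Finset.range J, Real.exp (-((2 * (j : ℝ) + 1) * y)) * μ.real (DD μ B U r) :=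
          Finset.sum_le_sum t3
      _ = (∑ j ∈ Finset.range J, Real.exp (-((2 * (j : ℝ) + 1) * y))) * μ.real (DD μ B U r) := by
          rw [Finset.sum_mul]
      _ ≤ (2 * Real.exp (-y)) * μ.real (DD μ B U r) :=
          mul_le_mul_of_nonneg_right (geom_sum_le J y hy) hμ0
      _ = _ := by ring
  have t4 : 2 * μ.real U * e ≤ 2 * Real.exp (-y) * μ.real (DD μ B U r) := by
    have h1 : Real.exp (Λ / 2) * e ≤ Real.exp (-y) := by
      rw [he, ← Real.exp_add]
      apply Real.exp_le_exp.mpr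
      -- `N ρ ≥ 12 Λ + 64 y`
      have h2 : (12 * Λ + 64 * y) * ρ ≤ N * ρ * ρ := by
        have h3 : N * ρ ^ 2 / 4 * 4 = N * ρ * ρ := by ring
        have h4 : (3 * (Λ * ρ) + y) * 4 ≤ N * ρ * ρ := by
          rw [← h3]
          linarith
        nlinarith
      have h3 : 12 * Λ + 64 * y ≤ N * ρ := le_of_mul_le_mul_right h2 hρ0
      linarith
    calc 2 * μ.real U * e ≤ 2 * (Real.exp (Λ / 2) * μ.real (DD μ B U r)) * e := by
          apply mul_le_mul_of_nonneg_right _ he0.le
          linarith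
      _ = 2 * (Real.exp (Λ / 2) * e) * μ.real (DD μ B U r) := by ring
      _ ≤ 2 * Real.exp (-y) * μ.real (DD μ B U r) := by
          apply mul_le_mul_of_nonneg_right _ hμ0
          linarith
  calc (μ.real B) ^ N * (Real.exp (-Y) * μ.real (DD μ B U r) +
      ∑ j ∈ Finset.range J, Real.exp (-((2 * j + 1) * Y)) *
        μ.real (DD μ B U (r + (j + 3) * ρ)) + 2 * μ.real U * e)
      ≤ (μ.real B) ^ N * (Real.exp (-y) * μ.real (DD μ B U r) +
        2 * Real.exp (-y) * μ.real (DD μ B U r) + 2 * Real.exp (-y) * μ.real (DD μ B U r)) :=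
        mul_le_mul_of_nonneg_left (add_le_add (add_le_add t1 t2) t4) hBN
    _ = _ := by ring

/-- At least half of the samples are good. -/
theorem exists_good2 (μ : Measure G) [IsProbabilityMeasure μ] [μ.IsAddLeftInvariant] {B U : Set G}
    (hB : MeasurableSet B) (hU : MeasurableSet U) (hpos : 0 < μ.real B) (N : ℕ) (Λ r ρ y : ℝ)
    (hΛ : 0 ≤ Λ) (hρ0 : 0 < ρ) (hρ : ρ ≤ 1 / 16) (hr : r ≤ 1 / 4) (hy : 1 ≤ y)
    (hD0 : 0 < μ.real (DD μ B U r))
    (hgrow : ∀ j : ℕ, r + j * ρ ≤ 1 / 2 →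
      μ.real (DD μ B U (r + j * ρ)) ≤ Real.exp (Λ * ρ * j) * μ.real (DD μ B U r))
    (hfar : μ.real U ≤ Real.exp (Λ / 2) * μ.real (DD μ B U r))
    (hN : 3 * (Λ * ρ) + y ≤ N * ρ ^ 2 / 4) :
    ∃ Good : Set (Fin N → G), MeasurableSet Good ∧ (∀ b ∈ Good, ∀ j, b j ∈ B) ∧
      (μ.real B) ^ N / 2 ≤ (Measure.pi (fun _ : Fin N => μ)).real Good ∧
      ∀ b ∈ Good, μ.real {x | (b, x) ∈ errS μ B U N r ρ} ≤
        10 * Real.exp (-y) * μ.real (DD μ B U r) := by
  classical
  set ν : Measure (Fin N → G) := Measure.pi (fun _ : Fin N => μ) with hν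
  have hm := measurableSet_errS μ hB hU N r ρ
  have htot := errS_total2 μ hB hU hpos N Λ r ρ y hΛ hρ0 hρ hr hy hgrow hfar hN
  set c : ℝ := 10 * Real.exp (-y) * μ.real (DD μ B U r) with hc
  have hc0 : 0 < c := by positivity
  have hf : Measurable (fun b : Fin N → G => μ (Prod.mk b ⁻¹' errS μ B U N r ρ)) :=
    measurable_measure_prodMk_left hm
  set BN : Set (Fin N → G) := univ.pi (fun _ => B) with hBNdef
  have hBNm : MeasurableSet BN := MeasurableSet.univ_pi (fun _ => hB)
  have hBNr : ν.real BN = (μ.real B) ^ N := by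
    rw [hBNdef, hν, pi_real, Finset.prod_const, Finset.card_univ, Fintype.card_fin]
  refine ⟨BN ∩ {b | μ (Prod.mk b ⁻¹' errS μ B U N r ρ) ≤ ENNReal.ofReal c},
    hBNm.inter (measurableSet_le hf measurable_const), ?_, ?_, ?_⟩
  · intro b hb j
    exact hb.1 j (mem_univ j)
  · have h1 := mul_meas_ge_le_lintegral (μ := ν) hf (ENNReal.ofReal c)
    rw [← Measure.prod_apply hm] at h1
    have h2 : ν.real {b | ENNReal.ofReal c ≤ μ (Prod.mk b ⁻¹' errS μ B U N r ρ)} ≤
        (μ.real B) ^ N / 2 := by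
      have h3 := ENNReal.toReal_mono (measure_ne_top _ _) h1
      rw [ENNReal.toReal_mul, ENNReal.toReal_ofReal hc0.le] at h3
      have h4 : c * ν.real {b | ENNReal.ofReal c ≤ μ (Prod.mk b ⁻¹' errS μ B U N r ρ)} ≤
          c * ((μ.real B) ^ N / 2) := by
        calc c * ν.real {b | ENNReal.ofReal c ≤ μ (Prod.mk b ⁻¹' errS μ B U N r ρ)}
            ≤ (ν.prod μ).real (errS μ B U N r ρ) := h3
          _ ≤ 5 * Real.exp (-y) * μ.real (DD μ B U r) * (μ.real B) ^ N := htot
          _ = c * ((μ.real B) ^ N / 2) := by rw [hc]; ring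
      exact le_of_mul_le_mul_left h4 hc0
    have h3 : BN ⊆ (BN ∩ {b | μ (Prod.mk b ⁻¹' errS μ B U N r ρ) ≤ ENNReal.ofReal c}) ∪
        {b | ENNReal.ofReal c ≤ μ (Prod.mk b ⁻¹' errS μ B U N r ρ)} := by
      intro b hb
      rcases le_total (μ (Prod.mk b ⁻¹' errS μ B U N r ρ)) (ENNReal.ofReal c) with h | h
      · exact Or.inl ⟨hb, h⟩
      · exact Or.inr h
    have h4 := (measureReal_mono h3 (measure_ne_top ν _)).trans (measureReal_union_le _ _)
    rw [hBNr] at h4
    linarith
  · rintro b ⟨hb, h⟩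
    exact ENNReal.toReal_le_of_le_ofReal hc0.le h

end Pool.Agent.Helper30.BX
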