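import Pool.Agent.Helper30.BX.Moment

/-!
# The subtorus annihilated by a set of characters of small rank
-/

set_option autoImplicit false

open MeasureTheory Set UnitAddTorus

namespace Pool.Agent.Helper30.BX

/-- A maximal independent subfamily. -/
theorem exists_max_indep (d : ℕ) (S : Set (Fin d → ℤ)) :
    ∃ (r : ℕ) (v : Fin r → Fin d → ℤ), (∀ i, v i ∈ S) ∧ LinearIndependent ℤ v ∧
      ∀ n ∈ S, ∃ (c : ℤ) (m : Fin r → ℤ), c ≠ 0 ∧ c • n = ∑ i, m i • v i := by
  classical
  set P : ℕ → Prop := fun r => ∃ v : Fin r → Fin d → ℤ, (∀ i, v i ∈ S) ∧ LinearIndependent ℤ v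
    with hP
  have hP0 : P 0 := ⟨Fin.elim0, fun i => i.elim0, linearIndependent_empty_type⟩
  have hPd : ∀ r, P r → r ≤ d := by
    rintro r ⟨v, -, hv⟩
    have := hv.fintype_card_le_finrank
    rw [Fintype.card_fin, Module.finrank_fin_fun] at this
    exact this
  set r := Nat.findGreatest P d with hr
  have hPr : P r := Nat.findGreatest_spec (Nat.zero_le d) hP0
  have hnot : ¬ P (r + 1) := by
    intro h
    have h1 := hPd _ h
    have h2 := Nat.le_findGreatest h1 h
    rw [← hr] at h2
    omega
  obtain ⟨v, hvS, hv⟩ := hPr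
  refine ⟨r, v, hvS, hv, ?_⟩
  intro n hn
  have h1 : ¬ LinearIndependent ℤ (Fin.snoc v n : Fin (r + 1) → Fin d → ℤ) := by
    intro h
    apply hnot
    refine ⟨Fin.snoc v n, ?_, h⟩
    intro i
    refine Fin.lastCases ?_ (fun j => ?_) i
    · rw [Fin.snoc_last]
      exact hn
    · rw [Fin.snoc_castSucc]
      exact hvS j
  rw [Fintype.not_linearIndependent_iff] at h1
  obtain ⟨g, hg, i, hi⟩ := h1
  rw [Fin.sum_univ_castSucc] at hg
  simp only [Fin.snoc_castSucc, Fin.snoc_last] at hg
  have hlast : g (Fin.last r) ≠ 0 := by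
    intro h0
    rw [h0, zero_smul, add_zero] at hg
    have h2 := Fintype.linearIndependent_iff.mp hv (fun j => g j.castSucc) hg
    apply hi
    refine Fin.lastCases h0 (fun j => h2 j) i
  refine ⟨g (Fin.last r), fun j => -g j.castSucc, hlast, ?_⟩
  have h3 : ∑ j : Fin r, (-g j.castSucc) • v j = -∑ j : Fin r, g j.castSucc • v j := by
    rw [← Finset.sum_neg_distrib]
    apply Finset.sum_congr rfl
    intro j _
    rw [neg_smul]
  rw [h3]
  exact eq_neg_of_add_eq_zero_right hg

/-- Integer matrices `M`, `P` with `P M = 1`, `k ≥ d - r` and `M` orthogonal to `v`. -/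
theorem exists_matrices (d r : ℕ) (v : Fin r → Fin d → ℤ) :
    ∃ (k : ℕ) (M : Fin d → Fin k → ℤ) (P : Fin k → Fin d → ℤ), d ≤ k + r ∧
      (∀ j j', ∑ i, P j i * M i j' = if j = j' then 1 else 0) ∧
      ∀ l j, ∑ i, v l i * M i j = 0 := by
  classical
  set f : (Fin d → ℤ) →ₗ[ℤ] (Fin r → ℤ) :=
    LinearMap.pi (fun l => ∑ i, v l i • LinearMap.proj i) with hf
  have hfa : ∀ m l, f m l = ∑ i, v l i * m i := by
    intro m l
    rw [hf]
    simp [LinearMap.pi_apply, LinearMap.sum_apply]
  set L := LinearMap.ker f with hL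
  set k := Module.finrank ℤ L with hk
  have hrank : Module.finrank ℤ (LinearMap.range f) + Module.finrank ℤ L = d := by
    have h1 := Submodule.finrank_quotient_add_finrank L
    rw [Module.finrank_fin_fun, LinearEquiv.finrank_eq f.quotKerEquivRange] at h1
    exact h1
  have hr : Module.finrank ℤ (LinearMap.range f) ≤ r := by
    have := Submodule.finrank_le (LinearMap.range f)
    rw [Module.finrank_fin_fun] at this
    exact this
  -- the splitting
  obtain ⟨s, hs⟩ := LinearMap.exists_rightInverse_of_surjective f.rangeRestrict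
    (LinearMap.range_rangeRestrict f)
  have hsf : ∀ y : LinearMap.range f, f (s y) = y := by
    intro y
    have h1 := LinearMap.congr_fun hs y
    have h2 := congrArg Subtype.val h1
    exact h2
  set π₀ : (Fin d → ℤ) →ₗ[ℤ] (Fin d → ℤ) := LinearMap.id - s ∘ₗ f.rangeRestrict with hπ₀
  have hπ₀L : ∀ m, π₀ m ∈ L := by
    intro m
    rw [hL, LinearMap.mem_ker, hπ₀]
    simp only [LinearMap.sub_apply, LinearMap.id_apply, LinearMap.comp_apply, map_sub]
    rw [hsf]
    simp
  set π : (Fin d → ℤ) →ₗ[ℤ] L := LinearMap.codRestrict L π₀ hπ₀L with hπ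
  have hπid : ∀ m : L, π m = m := by
    intro m
    apply Subtype.ext
    rw [hπ, LinearMap.codRestrict_apply, hπ₀]
    simp only [LinearMap.sub_apply, LinearMap.id_apply, LinearMap.comp_apply]
    have h1 : f.rangeRestrict (m : Fin d → ℤ) = 0 := by
      apply Subtype.ext
      exact LinearMap.mem_ker.mp m.2
    rw [h1, map_zero, sub_zero]
  set b := Module.finBasis ℤ L with hb
  refine ⟨k, fun i j => (b j : Fin d → ℤ) i, fun j i => b.repr (π (Pi.single i 1)) j, by omega,
    ?_, ?_⟩
  · intro j j'
    have h1 : (b j' : Fin d → ℤ) = ∑ i, (b j' : Fin d → ℤ) i • (Pi.single i (1 : ℤ) : Fin d → ℤ) := by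
      funext l
      rw [Finset.sum_apply]
      simp [Pi.single_apply]
    have h2 : b.repr (π (b j' : Fin d → ℤ)) j =
        ∑ i, (b j' : Fin d → ℤ) i * b.repr (π (Pi.single i 1)) j := by
      conv_lhs => rw [h1]
      rw [map_sum, map_sum, Finsupp.coe_finsetSum, Finset.sum_apply]
      apply Finset.sum_congr rfl
      intro i _
      rw [map_smul, map_smul]
      rfl
    rw [hπid, b.repr_self, Finsupp.single_apply] at h2
    rw [show (∑ i, (fun j i => b.repr (π (Pi.single i 1)) j) j i * (fun i j => (b j : Fin d → ℤ) i) i j')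
      = ∑ i, (b j' : Fin d → ℤ) i * b.repr (π (Pi.single i 1)) j from
        Finset.sum_congr rfl (fun i _ => mul_comm _ _), ← h2]
    by_cases h : j = j'
    · rw [if_pos h, if_pos h.symm]
    · rw [if_neg h, if_neg (fun h' => h h'.symm)]
  · intro l j
    have h1 : f (b j : Fin d → ℤ) = 0 := LinearMap.mem_ker.mp (b j).2
    rw [← hfa, h1]
    rfl

/-- The homomorphism of tori given by an integer matrix. -/
noncomputable def torHom {d k : ℕ} (M : Fin d → Fin k → ℤ) :
    (Fin k → UnitAddCircle) →+ (Fin d → UnitAddCircle) where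
  toFun y := fun i => ∑ j, M i j • y j
  map_zero' := by
    funext i
    simp
  map_add' y z := by
    funext i
    simp [smul_add, Finset.sum_add_distrib]

theorem torHom_continuous {d k : ℕ} (M : Fin d → Fin k → ℤ) : Continuous (torHom M) := by
  apply continuous_pi
  intro i
  change Continuous (fun y : Fin k → UnitAddCircle => ∑ j, M i j • y j)
  refine continuous_finsetSum _ (fun j _ => ?_)
  have h : Continuous (fun y : Fin k → UnitAddCircle => y j) := continuous_apply j
  exact h.zsmul (M i j)

theorem torHom_injective {d k : ℕ} (M : Fin d → Fin k → ℤ) (P : Fin k → Fin d → ℤ)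
    (h : ∀ j j', ∑ i, P j i * M i j' = if j = j' then 1 else 0) :
    Function.Injective (torHom M) := by
  classical
  have key : ∀ y : Fin k → UnitAddCircle, ∀ j, ∑ i, P j i • torHom M y i = y j := by
    intro y j
    have h1 : ∀ i, P j i • torHom M y i = ∑ j', (P j i * M i j') • y j' := by
      intro i
      change P j i • ∑ j', M i j' • y j' = _
      rw [Finset.smul_sum]
      apply Finset.sum_congr rfl
      intro j' _
      rw [mul_smul]
    rw [Finset.sum_congr rfl (fun i _ => h1 i), Finset.sum_comm]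
    have h2 : ∀ j', ∑ i, (P j i * M i j') • y j' = (if j = j' then (1 : ℤ) else 0) • y j' := by
      intro j'
      rw [← Finset.sum_smul, h]
    rw [Finset.sum_congr rfl (fun j' _ => h2 j'), Finset.sum_eq_single j]
    · rw [if_pos rfl, one_smul]
    · intro j' _ hj'
      rw [if_neg (fun h' => hj' h'.symm), zero_smul]
    · intro h'
      exact absurd (Finset.mem_univ j) h'
  intro y z hyz
  funext j
  rw [← key y j, ← key z j, hyz]

theorem toCircle_sum {ι : Type*} (s : Finset ι) (f : ι → UnitAddCircle) :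
    AddCircle.toCircle (∑ i ∈ s, f i) = ∏ i ∈ s, AddCircle.toCircle (f i) := by
  classical
  induction s using Finset.induction_on with
  | empty => rw [Finset.sum_empty, Finset.prod_empty, AddCircle.toCircle_zero]
  | insert a s ha ih => rw [Finset.sum_insert ha, Finset.prod_insert ha, AddCircle.toCircle_add, ih]

theorem mF_torHom {d k : ℕ} (M : Fin d → Fin k → ℤ) (n : Fin d → ℤ)
    (h : ∀ j, ∑ i, n i * M i j = 0) (y : Fin k → UnitAddCircle) :
    mFourier n (torHom M y) = 1 := by
  unfold mFourier
  simp only [ContinuousMap.coe_mk]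
  have h1 : ∀ i, fourier (n i) (torHom M y i) =
      ((AddCircle.toCircle (n i • torHom M y i) : Circle) : ℂ) := by
    intro i
    rw [fourier_apply]
  rw [Finset.prod_congr rfl (fun i _ => h1 i)]
  have h2 : ∏ i, ((AddCircle.toCircle (n i • torHom M y i) : Circle) : ℂ) =
      ((∏ i, AddCircle.toCircle (n i • torHom M y i) : Circle) : ℂ) := by
    exact (map_prod Circle.coeHom _ _).symm
  rw [h2, ← toCircle_sum]
  have h3 : ∑ i, n i • torHom M y i = 0 := by
    have h4 : ∀ i, n i • torHom M y i = ∑ j, (n i * M i j) • y j := by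
      intro i
      change n i • ∑ j, M i j • y j = _
      rw [Finset.smul_sum]
      apply Finset.sum_congr rfl
      intro j _
      rw [mul_smul]
    rw [Finset.sum_congr rfl (fun i _ => h4 i), Finset.sum_comm]
    apply Finset.sum_eq_zero
    intro j _
    rw [← Finset.sum_smul, h, zero_smul]
  rw [h3, AddCircle.toCircle_zero, Circle.coe_one]

end Pool.Agent.Helper30.BX
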