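import Pool.Agent.Helper30.BX.Rec2

/-!
# The outcome of the recursion for small doubling

If `μ U ≤ exp ℓ * μ A` then there are a set `B` and a set `T` of translations with
`μ T ≥ exp (- C ℓ ^ 2 (1 + log ℓ)) * μ A` such that `B` is almost invariant under `T`.
-/

set_option autoImplicit false

open MeasureTheory Set

namespace Pool.Agent.Helper30.BX

variable {G : Type*} [AddCommGroup G] [MeasurableSpace G] [MeasurableAdd₂ G] [MeasurableNeg G]

theorem State2.mono {μ : Measure G} {U A : Set G} {Λ : ℝ} {n : ℕ} {κ η σ σ' : ℝ} {i : ℕ}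
    (h : State2 μ U A Λ n κ η σ i) (hσ : σ ≤ σ') : State2 μ U A Λ n κ η σ' i := by
  obtain ⟨B, W, T, Bs, c, p, h1, h2, h3, h4, h5, h6, h7, h8, h9, h10, h11, h12⟩ := h
  refine ⟨B, W, T, Bs, c, p, h1, h2, h3, h4, h5, h6, h7, h8, h9, h10, h11, ?_⟩
  refine le_trans ?_ h12
  apply mul_le_mul_of_nonneg_right _ measureReal_nonneg
  apply Real.exp_le_exp.mpr
  linarith

theorem sq_le_four_pow (m : ℕ) : ((m : ℝ) + 1) ^ 2 ≤ 4 * 2 ^ m := by
  have h : ∀ m : ℕ, (m + 1) ^ 2 ≤ 4 * 2 ^ m := by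
    intro m
    induction m with
    | zero => norm_num
    | succ k ih =>
      rcases Nat.lt_or_ge k 2 with hk | hk
      · interval_cases k <;> norm_num
      · have h1 : (k + 1 + 1) ^ 2 ≤ 2 * (k + 1) ^ 2 := by nlinarith
        calc (k + 1 + 1) ^ 2 ≤ 2 * (k + 1) ^ 2 := h1
          _ ≤ 2 * (4 * 2 ^ k) := by omega
          _ = 4 * 2 ^ (k + 1) := by ring
  exact_mod_cast h m

theorem levels2 (μ : Measure G) [IsProbabilityMeasure μ] [μ.IsAddLeftInvariant] {U A : Set G}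
    (hA : MeasurableSet A) (hU : MeasurableSet U) (hpos : 0 < μ.real A)
    (hAU : ∀ a ∈ A, ∀ b ∈ A, a + b ∈ U) (ℓ : ℝ) (hℓ : 1 ≤ ℓ)
    (hK : μ.real U ≤ Real.exp ℓ * μ.real A) :
    ∃ B Bs T : Set G, MeasurableSet B ∧ MeasurableSet Bs ∧ MeasurableSet T ∧ 0 < μ.real B ∧
      0 < μ.real Bs ∧ (∀ x ∈ B, vv μ Bs U x ≤ 1 / 4) ∧
      Real.exp (-(7 * 10 ^ 10 * ℓ ^ 2 * (1 + Real.log ℓ))) * μ.real A ≤ μ.real T ∧
      ∀ t ∈ T, μ.real {b | b ∈ B ∧ b + t ∉ B} ≤ μ.real B / 8 := by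
  classical
  have hlogℓ : 0 ≤ Real.log ℓ := Real.log_nonneg hℓ
  set Y : ℝ := 40 + 2 * Real.log ℓ with hY
  have hY1 : 1 ≤ Y := by rw [hY]; linarith
  have hexm : ∃ m : ℕ, ℓ < 2 ^ (m + 1) * Y := by
    obtain ⟨m, hm⟩ := pow_unbounded_of_one_lt ℓ (by norm_num : (1 : ℝ) < 2)
    refine ⟨m, ?_⟩
    have h1 : (2 : ℝ) ^ m ≤ 2 ^ (m + 1) := pow_le_pow_right₀ (by norm_num) (Nat.le_succ m)
    have h2 : (0 : ℝ) < 2 ^ (m + 1) := by positivity
    nlinarith
  set m : ℕ := Nat.find hexm with hm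
  have hm1 : ℓ < 2 ^ (m + 1) * Y := Nat.find_spec hexm
  have hm2 : ∀ j : ℕ, 1 ≤ j → j ≤ m → 2 ^ j * Y ≤ ℓ := by
    intro j hj1 hjm
    have h1 := Nat.find_min hexm (m := j - 1) (by rw [← hm]; omega)
    push Not at h1
    have h2 : j - 1 + 1 = j := by omega
    rw [h2] at h1
    exact h1
  have h2m : (2 : ℝ) ^ m ≤ ℓ := by
    rcases Nat.eq_zero_or_pos m with h0 | h0
    · rw [h0, pow_zero]
      exact hℓ
    · have h1 := hm2 m h0 le_rfl
      have h2 : (0 : ℝ) < 2 ^ m := by positivity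
      nlinarith
  set n : ℕ := m + 1 with hn
  set Λ : ℝ := 128 * ℓ with hΛdef
  have hΛ1 : 1 ≤ Λ := by rw [hΛdef]; linarith
  have hΛ0 : 0 < Λ := by linarith
  have hΛ2 : Λ ^ 2 = 16384 * ℓ ^ 2 := by rw [hΛdef]; ring
  have hΛΛ : 1 ≤ Λ ^ 2 := one_le_pow₀ hΛ1
  have hΛ : 8 * (2 * (ℓ + 1) + n * Real.log (8 * n)) ≤ Λ := by
    have hnR : (n : ℝ) = (m : ℝ) + 1 := by rw [hn]; push_cast; ring
    have hn1 : (1 : ℝ) ≤ n := by rw [hnR]; have := Nat.cast_nonneg (α := ℝ) m; linarith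
    have h1 : Real.log (8 * n) ≤ 3 * n := by
      rw [Real.log_mul (by norm_num) (by positivity)]
      have h2 : Real.log 8 = 3 * Real.log 2 := by
        rw [show (8 : ℝ) = 2 ^ 3 by norm_num, Real.log_pow]
        norm_num
      have h3 := Real.log_two_lt_d9
      have h4 := Real.log_le_sub_one_of_pos (show (0 : ℝ) < n by positivity)
      linarith
    have h2 : (n : ℝ) * Real.log (8 * n) ≤ 3 * (n : ℝ) ^ 2 := by
      have := mul_le_mul_of_nonneg_left h1 (show (0 : ℝ) ≤ n by positivity)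
      nlinarith
    have h3 : (n : ℝ) ^ 2 ≤ 4 * 2 ^ m := by
      rw [hnR]
      exact sq_le_four_pow m
    rw [hΛdef]
    nlinarith
  have hn1 : 1 ≤ n := by rw [hn]; omega
  -- the size of `exp (-Y)`
  have hexpY : 52001 * Λ ^ 2 * (80 * Real.exp (-Y)) ≤ 1 := by
    have h1 : Real.exp (-Y) = Real.exp (-40) * (ℓ ^ 2)⁻¹ := by
      rw [hY, neg_add, Real.exp_add]
      congr 1
      rw [Real.exp_neg]
      congr 1
      rw [mul_comm, Real.exp_mul, Real.exp_log (by linarith)]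
      norm_num
    have h2 : Real.exp (-40) ≤ (1 / 2) ^ 40 := by
      have h3 : Real.exp (-40) = Real.exp (-1) ^ 40 := by
        rw [← Real.exp_nat_mul]
        norm_num
      have h4 : Real.exp (-1) < 0.3678794412 := Real.exp_neg_one_lt_d9
      rw [h3]
      exact pow_le_pow_left₀ (Real.exp_pos _).le (by linarith) 40
    have hℓ2 : 0 < ℓ ^ 2 := by positivity
    rw [h1, hΛ2]
    calc 52001 * (16384 * ℓ ^ 2) * (80 * (Real.exp (-40) * (ℓ ^ 2)⁻¹))
        = 52001 * 16384 * 80 * Real.exp (-40) * (ℓ ^ 2 * (ℓ ^ 2)⁻¹) := by ring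
      _ = 52001 * 16384 * 80 * Real.exp (-40) := by
          rw [mul_inv_cancel₀ hℓ2.ne', mul_one]
      _ ≤ 52001 * 16384 * 80 * (1 / 2) ^ 40 := mul_le_mul_of_nonneg_left h2 (by norm_num)
      _ ≤ 1 := by norm_num
  have hexpY0 : 0 < Real.exp (-Y) := Real.exp_pos _
  -- the intermediate states
  have hstate : ∀ i : ℕ, i ≤ m → State2 μ U A Λ n (ℓ / 2 ^ i)
      (if i = 0 then 0 else 20 * Real.exp (-Y)) (i * (84 * Λ ^ 2)) i := by
    intro i
    induction i with
    | zero =>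
      intro _
      have h0 := state2_zero μ hA hU hpos hAU ℓ Λ n hK
      simpa using h0
    | succ i ih =>
      intro hi
      have hSi := ih (by omega)
      set k : ℝ := ℓ / 2 ^ (i + 1) with hk
      have hkY : Y ≤ k := by
        rw [hk, le_div_iff₀ (by positivity), mul_comm]
        exact hm2 (i + 1) (by omega) hi
      have hk0 : 0 < k := by linarith
      have hk1 : 1 ≤ k := by linarith
      have hkℓ : k ≤ ℓ := by
        rw [hk]
        exact div_le_self (by linarith) (one_le_pow₀ (by norm_num))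
      have hk2 : ℓ / 2 ^ i = 2 * k := by
        rw [hk, pow_succ]
        field_simp
      set N : ℕ := ⌈40 * Λ ^ 2 / k⌉₊ with hN
      have hN1 : 40 * Λ ^ 2 / k ≤ N := Nat.le_ceil _
      have hN2 : (N : ℝ) ≤ 40 * Λ ^ 2 / k + 1 := (Nat.ceil_lt_add_one (by positivity)).le
      have hN3 : (N : ℝ) ≤ 52001 * Λ ^ 2 := by
        have h1 : 40 * Λ ^ 2 / k ≤ 40 * Λ ^ 2 := div_le_self (by positivity) hk1
        linarith
      have hstep := state2_succ μ hU hpos ℓ Λ n hn1 hℓ hK hΛ (ℓ / 2 ^ i)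
        (if i = 0 then 0 else 20 * Real.exp (-Y)) (i * (84 * Λ ^ 2)) i (by omega) k Y N hk0 hkℓ
        hY1 ?_ ?_ hSi
      · rw [if_neg (Nat.succ_ne_zero i)]
        refine hstep.mono ?_
        have h1 : ℓ / 2 ^ i * N ≤ 80 * Λ ^ 2 + 2 * ℓ := by
          rw [hk2]
          calc 2 * k * N ≤ 2 * k * (40 * Λ ^ 2 / k + 1) :=
                mul_le_mul_of_nonneg_left hN2 (by linarith)
            _ = 80 * Λ ^ 2 + 2 * k := by
                field_simp
                ring
            _ ≤ _ := by linarith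
        have h2 : 2 * ℓ + 2 ≤ 4 * Λ ^ 2 := by
          rw [hΛ2]
          nlinarith
        push_cast
        linarith
      · have h1 : 40 * Λ ^ 2 / k * (k / (2 * Λ)) ^ 2 / 4 = 5 / 2 * k := by
          field_simp
          ring
        have h2 : 40 * Λ ^ 2 / k * (k / (2 * Λ)) ^ 2 / 4 ≤ N * (k / (2 * Λ)) ^ 2 / 4 := by
          apply div_le_div_of_nonneg_right _ (by norm_num)
          exact mul_le_mul_of_nonneg_right hN1 (sq_nonneg _)
        linarith
      · by_cases hi0 : i = 0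
        · rw [if_pos hi0, mul_zero]
          norm_num
        · rw [if_neg hi0]
          have h1 : (N : ℝ) * (20 * Real.exp (-Y)) ≤ 52001 * Λ ^ 2 * (20 * Real.exp (-Y)) :=
            mul_le_mul_of_nonneg_right hN3 (by positivity)
          linarith
  -- the last step
  have hSm := hstate m le_rfl
  set N : ℕ := ⌈52000 * Λ ^ 2⌉₊ with hN
  have hN1 : 52000 * Λ ^ 2 ≤ N := Nat.le_ceil _
  have hN2 : (N : ℝ) ≤ 52001 * Λ ^ 2 := by
    have := (Nat.ceil_lt_add_one (show (0 : ℝ) ≤ 52000 * Λ ^ 2 by positivity)).le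
    linarith
  have hkm : ℓ / 2 ^ m ≤ 2 * Y := by
    rw [div_le_iff₀ (by positivity)]
    have h1 : (2 : ℝ) ^ (m + 1) = 2 * 2 ^ m := by ring
    rw [h1] at hm1
    linarith
  have hfin := state2_succ μ hU hpos ℓ Λ n hn1 hℓ hK hΛ (ℓ / 2 ^ m)
    (if m = 0 then 0 else 20 * Real.exp (-Y)) (m * (84 * Λ ^ 2)) m (by omega) (1 / 20) 8 N
    (by norm_num) (by linarith) (by norm_num) ?_ ?_ hSm
  · obtain ⟨B, W, T, Bs, c, p, hR, hBW, hBsm, hBspos, hBsv, -, -, -, -, -, -, hT⟩ := hfin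
    have hBW' : B ⊆ W := by
      rcases hBW with h | h
      · exact absurd h (Nat.succ_ne_zero m)
      · exact h
    refine ⟨B, Bs, T, hR.mB, hBsm, hR.mT, hR.pos, hBspos, hBsv, ?_, ?_⟩
    · refine le_trans ?_ hT
      apply mul_le_mul_of_nonneg_right _ measureReal_nonneg
      apply Real.exp_le_exp.mpr
      have hmlog : (m : ℝ) ≤ 2 * Real.log ℓ := by
        have h1 := Real.log_le_log (by positivity) h2m
        rw [Real.log_pow] at h1
        have h2 := Real.log_two_gt_d9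
        have h3 : (0 : ℝ) ≤ m := Nat.cast_nonneg m
        nlinarith
      have h1 : ℓ / 2 ^ m * N ≤ 2 * Y * (52001 * Λ ^ 2) := by
        apply mul_le_mul hkm hN2 (Nat.cast_nonneg _) (by linarith)
      have h2 : (m : ℝ) * (84 * Λ ^ 2) ≤ 2 * Real.log ℓ * (84 * Λ ^ 2) :=
        mul_le_mul_of_nonneg_right hmlog (by positivity)
      have h3 : (m : ℝ) * (84 * Λ ^ 2) + ℓ / 2 ^ m * N + 2 ≤
          4160082 * Λ ^ 2 * (1 + Real.log ℓ) := by
        rw [hY] at h1
        nlinarith [mul_nonneg hlogℓ (show (0 : ℝ) ≤ Λ ^ 2 by positivity)]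
      have h4 : 4160082 * Λ ^ 2 * (1 + Real.log ℓ) ≤ 7 * 10 ^ 10 * ℓ ^ 2 * (1 + Real.log ℓ) := by
        apply mul_le_mul_of_nonneg_right _ (by linarith)
        rw [hΛ2]
        nlinarith [sq_nonneg ℓ]
      linarith
    · intro t ht
      have h1 := hR.stay t ht
      have h2 := hR.growth
      have he : 20 * Real.exp (-8) ≤ 1 / 100 := by
        have h4 : Real.exp (-8) = Real.exp (-1) ^ 8 := by
          rw [← Real.exp_nat_mul]
          norm_num
        have h5 : Real.exp (-1) < 0.3678794412 := Real.exp_neg_one_lt_d9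
        have h6 : Real.exp (-1) ^ 8 ≤ (0.368 : ℝ) ^ 8 :=
          pow_le_pow_left₀ (Real.exp_pos _).le (by linarith) 8
        have h7 : (0.368 : ℝ) ^ 8 ≤ 1 / 2000 := by norm_num
        linarith
      have hexp : Real.exp (1 / 20) ≤ 1 + 11 / 200 := by
        have h3 := Real.abs_exp_sub_one_sub_id_le (x := (1 : ℝ) / 20)
          (by rw [abs_le]; constructor <;> norm_num)
        have h4 := (abs_le.mp h3).2
        norm_num at h4 ⊢
        linarith
      have hsub : {b | b ∈ B ∧ b + t ∉ B} ⊆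
          {b | b ∈ B ∧ b + t ∉ W} ∪ ((fun b => t + b) ⁻¹' (W \ B)) := by
        rintro b ⟨hb, hbt⟩
        by_cases hW : b + t ∈ W
        · right
          refine ⟨?_, ?_⟩
          · change t + b ∈ W
            rw [add_comm]
            exact hW
          · change t + b ∉ B
            rw [add_comm]
            exact hbt
        · exact Or.inl ⟨hb, hW⟩
      have h3 := (measureReal_mono hsub (measure_ne_top μ _)).trans (measureReal_union_le _ _)
      have h4 : μ.real ((fun b => t + b) ⁻¹' (W \ B)) = μ.real (W \ B) := by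
        rw [measureReal_def, measureReal_def, measure_preimage_add]
      have h5 : μ.real (W \ B) = μ.real W - μ.real B := by
        rw [measureReal_sdiff hBW' hR.mB]
      rw [h4, h5] at h3
      have h6 : μ.real W ≤ (1 + 11 / 200) * μ.real B :=
        h2.trans (mul_le_mul_of_nonneg_right hexp hR.pos.le)
      have h7 : 20 * Real.exp (-8) * μ.real B ≤ 1 / 100 * μ.real B :=
        mul_le_mul_of_nonneg_right he hR.pos.le
      have h8 := hR.pos
      linarith
  · have h1 : 52000 * Λ ^ 2 * (1 / 20 / (2 * Λ)) ^ 2 / 4 = 65 / 8 := by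
      field_simp
      norm_num
    have h2 : 52000 * Λ ^ 2 * (1 / 20 / (2 * Λ)) ^ 2 / 4 ≤ N * (1 / 20 / (2 * Λ)) ^ 2 / 4 := by
      apply div_le_div_of_nonneg_right _ (by norm_num)
      exact mul_le_mul_of_nonneg_right hN1 (sq_nonneg _)
    linarith
  · by_cases hi0 : m = 0
    · rw [if_pos hi0, mul_zero]
      norm_num
    · rw [if_neg hi0]
      have h1 : (N : ℝ) * (20 * Real.exp (-Y)) ≤ 52001 * Λ ^ 2 * (20 * Real.exp (-Y)) :=
        mul_le_mul_of_nonneg_right hN2 (by positivity)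
      linarith

end Pool.Agent.Helper30.BX
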