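import Pool.Agent.Helper30.BX.Four

/-!
# Independent characters: the exponential moment
-/

set_option autoImplicit false

open MeasureTheory Set UnitAddTorus

namespace Pool.Agent.Helper30.BX

theorem int_mF (d : ℕ) (n : Fin d → ℤ) (hn : n ≠ 0) : ∫ t, mFourier n t ∂(Pd d) = 0 := by
  classical
  obtain ⟨i, hi⟩ : ∃ i, n i ≠ 0 := by
    by_contra hcon
    push Not at hcon
    exact hn (funext hcon)
  set s : Fin d → UnitAddCircle := Function.update 0 i (((1 : ℝ) / 2 / (n i : ℝ) : ℝ) : UnitAddCircle)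
    with hs
  have h1 : mFourier n s = -1 := by
    unfold mFourier
    simp only [ContinuousMap.coe_mk]
    rw [Finset.prod_eq_single i]
    · rw [hs, Function.update_self]
      have h2 := fourier_add_half_inv_index (T := (1 : ℝ)) (n := n i) hi one_pos 0
      rw [zero_add, fourier_eval_zero] at h2
      exact h2
    · intro j _ hj
      rw [hs, Function.update_of_ne hj]
      exact fourier_eval_zero _
    · intro h
      exact absurd (Finset.mem_univ i) h
  have h2 : ∫ t, mFourier n (s + t) ∂(Pd d) = ∫ t, mFourier n t ∂(Pd d) :=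
    integral_add_left_eq_self (μ := Pd d) (fun t => mFourier n t) s
  have h3 : ∫ t, mFourier n (s + t) ∂(Pd d) = -∫ t, mFourier n t ∂(Pd d) := by
    rw [← integral_neg]
    congr 1
    funext t
    rw [mF_add_arg, h1]
    ring
  rw [h3] at h2
  have h4 : (2 : ℂ) * ∫ t, mFourier n t ∂(Pd d) = 0 := by linear_combination -h2
  rcases mul_eq_zero.mp h4 with h | h
  · norm_num at h
  · exact h

theorem int_mF_zero (d : ℕ) : ∫ t, mFourier (0 : Fin d → ℤ) t ∂(Pd d) = 1 := by
  rw [mFourier_zero]
  simp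

theorem mF_zsmul (d : ℕ) (m : ℤ) (n : Fin d → ℤ) (t : Fin d → UnitAddCircle) :
    mFourier (m • n) t = (mFourier n t) ^ m := by
  unfold mFourier
  simp only [ContinuousMap.coe_mk]
  rw [← Finset.prod_zpow]
  apply Finset.prod_congr rfl
  intro i _
  simp only [fourier_apply, Pi.smul_apply, smul_eq_mul]
  rw [mul_comm, mul_smul, ← Circle.coe_zpow]
  congr 1
  rw [smul_comm]
  exact AddCircle.toCircle_zsmul _ _

theorem mF_sum (d : ℕ) {ι : Type*} (s : Finset ι) (n : ι → Fin d → ℤ)
    (t : Fin d → UnitAddCircle) : mFourier (∑ i ∈ s, n i) t = ∏ i ∈ s, mFourier (n i) t := by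
  classical
  induction s using Finset.induction_on with
  | empty => rw [Finset.sum_empty, Finset.prod_empty, mFourier_zero]; rfl
  | insert a s ha ih => rw [Finset.sum_insert ha, Finset.prod_insert ha, mFourier_add, ih]

/-- The coefficients of `1 + cos + cos ^ 2`. -/
noncomputable def cf (m : ℤ) : ℂ := if m = 0 then 3 / 2 else if m = 1 ∨ m = -1 then 1 / 2 else 1 / 4

theorem quad_eq (z : ℂ) (hz : ‖z‖ = 1) :
    ((1 + z.re + z.re ^ 2 : ℝ) : ℂ) = ∑ m ∈ ({-2, -1, 0, 1, 2} : Finset ℤ), cf m * z ^ m := by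
  have hz0 : z ≠ 0 := by
    intro h
    rw [h, norm_zero] at hz
    exact zero_ne_one hz
  have hinv : z⁻¹ = (starRingEnd ℂ) z := by
    rw [Complex.inv_def, Complex.normSq_eq_norm_sq, hz]
    simp
  have hre : ((z.re : ℝ) : ℂ) = (z + z⁻¹) / 2 := by
    rw [hinv]
    have := Complex.add_conj z
    rw [this]
    push_cast
    ring
  have h1 : ∑ m ∈ ({-2, -1, 0, 1, 2} : Finset ℤ), cf m * z ^ m =
      1 / 4 * z ^ (-2 : ℤ) + 1 / 2 * z ^ (-1 : ℤ) + 3 / 2 * z ^ (0 : ℤ) + 1 / 2 * z ^ (1 : ℤ) +
        1 / 4 * z ^ (2 : ℤ) := by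
    rw [Finset.sum_insert (by decide), Finset.sum_insert (by decide),
      Finset.sum_insert (by decide), Finset.sum_insert (by decide), Finset.sum_singleton]
    have c1 : cf (-2) = 1 / 4 := by unfold cf; norm_num
    have c2 : cf (-1) = 1 / 2 := by unfold cf; norm_num
    have c3 : cf 0 = 3 / 2 := by unfold cf; norm_num
    have c4 : cf 1 = 1 / 2 := by unfold cf; norm_num
    have c5 : cf 2 = 1 / 4 := by unfold cf; norm_num
    rw [c1, c2, c3, c4, c5]
    ring
  rw [h1]
  have e1 : z ^ (-2 : ℤ) = z⁻¹ ^ 2 := by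
    rw [zpow_neg, inv_pow]
    rfl
  have e2 : z ^ (-1 : ℤ) = z⁻¹ := zpow_neg_one z
  have e3 : z ^ (2 : ℤ) = z ^ 2 := rfl
  rw [e1, e2, e3, zpow_zero, zpow_one]
  push_cast
  rw [hre]
  have h2 : z * z⁻¹ = 1 := mul_inv_cancel₀ hz0
  linear_combination (-(1 : ℂ) / 2) * h2 + h2

theorem integral_prod_quad (d r : ℕ) (v : Fin r → Fin d → ℤ)
    (hv : ∀ m : Fin r → ℤ, ∑ i, m i • v i = 0 → m = 0) :
    ∫ t, ∏ i, (1 + (mFourier (v i) t).re + (mFourier (v i) t).re ^ 2) ∂(Pd d) = (3 / 2) ^ r := by
  classical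
  have h1 : ∀ t, ((∏ i, (1 + (mFourier (v i) t).re + (mFourier (v i) t).re ^ 2) : ℝ) : ℂ) =
      ∑ p ∈ Fintype.piFinset (fun _ : Fin r => ({-2, -1, 0, 1, 2} : Finset ℤ)),
        (∏ i, cf (p i)) * mFourier (∑ i, p i • v i) t := by
    intro t
    rw [Complex.ofReal_prod]
    have h2 : ∀ i, ((1 + (mFourier (v i) t).re + (mFourier (v i) t).re ^ 2 : ℝ) : ℂ) =
        ∑ m ∈ ({-2, -1, 0, 1, 2} : Finset ℤ), cf m * (mFourier (v i) t) ^ m :=
      fun i => quad_eq _ (mF_mul_conj d (v i) t)
    rw [Finset.prod_congr rfl (fun i _ => h2 i), Finset.prod_univ_sum]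
    apply Finset.sum_congr rfl
    intro p _
    rw [Finset.prod_mul_distrib, mF_sum]
    congr 1
    apply Finset.prod_congr rfl
    intro i _
    rw [mF_zsmul]
  have h3 : ((∫ t, ∏ i, (1 + (mFourier (v i) t).re + (mFourier (v i) t).re ^ 2) ∂(Pd d) : ℝ) : ℂ)
      = (3 / 2) ^ r := by
    rw [← integral_complex_ofReal]
    rw [integral_congr_ae (ae_of_all _ h1), integral_finsetSum]
    · have h4 : ∀ p ∈ Fintype.piFinset (fun _ : Fin r => ({-2, -1, 0, 1, 2} : Finset ℤ)),
          ∫ t, (∏ i, cf (p i)) * mFourier (∑ i, p i • v i) t ∂(Pd d) =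
          if p = 0 then (3 / 2) ^ r else 0 := by
        intro p _
        rw [integral_const_mul]
        by_cases hp : p = 0
        · rw [if_pos hp, hp]
          have h5 : ∑ i, (0 : Fin r → ℤ) i • v i = 0 := by
            apply Finset.sum_eq_zero
            intro i _
            rw [Pi.zero_apply, zero_smul]
          rw [h5, int_mF_zero, mul_one]
          have h6 : ∀ i : Fin r, cf ((0 : Fin r → ℤ) i) = 3 / 2 := by
            intro i
            unfold cf
            rw [if_pos (Pi.zero_apply i)]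
          rw [Finset.prod_congr rfl (fun i _ => h6 i), Finset.prod_const, Finset.card_univ,
            Fintype.card_fin]
        · rw [if_neg hp, int_mF, mul_zero]
          intro h
          exact hp (hv p h)
      rw [Finset.sum_congr rfl h4, Finset.sum_ite_eq' ]
      rw [if_pos]
      rw [Fintype.mem_piFinset]
      intro i
      rw [Pi.zero_apply]
      decide
    · intro p _
      apply Integrable.const_mul
      refine Integrable.of_bound (C := 1) (mFourier _).continuous.aestronglyMeasurable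
        (ae_of_all _ ?_)
      intro x
      rw [mF_mul_conj]
  have h4 : (((3 / 2 : ℝ) ^ r : ℝ) : ℂ) = (3 / 2) ^ r := by push_cast; ring
  rw [← h4] at h3
  exact_mod_cast h3

/-- The exponential moment of the sum of the real parts of independent characters. -/
theorem exp_moment (d r : ℕ) (v : Fin r → Fin d → ℤ)
    (hv : ∀ m : Fin r → ℤ, ∑ i, m i • v i = 0 → m = 0) :
    Integrable (fun t => Real.exp (∑ i, (mFourier (v i) t).re)) (Pd d) ∧
    ∫ t, Real.exp (∑ i, (mFourier (v i) t).re) ∂(Pd d) ≤ (3 / 2) ^ r := by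
  have hre : ∀ n : Fin d → ℤ, ∀ t, |(mFourier n t).re| ≤ 1 := by
    intro n t
    have := Complex.abs_re_le_norm (mFourier n t)
    rw [mF_mul_conj] at this
    exact this
  have hc : ∀ n : Fin d → ℤ, Continuous (fun t => (mFourier n t).re) := fun n =>
    Complex.continuous_re.comp (mFourier n).continuous
  have hcs : Continuous (fun t => Real.exp (∑ i, (mFourier (v i) t).re)) :=
    Real.continuous_exp.comp (continuous_finsetSum _ (fun i _ => hc (v i)))
  have hcp : Continuous (fun t => ∏ i, (1 + (mFourier (v i) t).re + (mFourier (v i) t).re ^ 2)) :=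
    continuous_finsetProd _ (fun i _ => (continuous_const.add (hc (v i))).add ((hc (v i)).pow 2))
  have i1 : Integrable (fun t => Real.exp (∑ i, (mFourier (v i) t).re)) (Pd d) := by
    refine Integrable.of_bound (C := Real.exp r) hcs.aestronglyMeasurable (ae_of_all _ ?_)
    intro t
    rw [Real.norm_eq_abs, abs_of_pos (Real.exp_pos _)]
    apply Real.exp_le_exp.mpr
    calc ∑ i, (mFourier (v i) t).re ≤ ∑ _i : Fin r, (1 : ℝ) :=
          Finset.sum_le_sum (fun i _ => (abs_le.mp (hre (v i) t)).2)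
      _ = r := by simp
  have i2 : Integrable (fun t => ∏ i, (1 + (mFourier (v i) t).re + (mFourier (v i) t).re ^ 2))
      (Pd d) := by
    refine Integrable.of_bound (C := 3 ^ r) hcp.aestronglyMeasurable (ae_of_all _ ?_)
    intro t
    rw [Real.norm_eq_abs, Finset.abs_prod]
    calc ∏ i, |1 + (mFourier (v i) t).re + (mFourier (v i) t).re ^ 2| ≤ ∏ _i : Fin r, (3 : ℝ) := by
          apply Finset.prod_le_prod (fun i _ => abs_nonneg _)
          intro i _
          have h1 := abs_le.mp (hre (v i) t)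
          rw [abs_le]
          constructor <;> nlinarith [h1.1, h1.2]
      _ = 3 ^ r := by simp
  refine ⟨i1, ?_⟩
  rw [← integral_prod_quad d r v hv]
  apply integral_mono i1 i2
  intro t
  simp only
  rw [Real.exp_sum]
  apply Finset.prod_le_prod (fun i _ => (Real.exp_pos _).le)
  intro i _
  have h1 := Real.abs_exp_sub_one_sub_id_le (hre (v i) t)
  have h2 := (abs_le.mp h1).2
  linarith

/-- Few independent characters can be close to `1` on average on a set which is not tiny. -/
theorem rank_bound (d r : ℕ) (v : Fin r → Fin d → ℤ)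
    (hv : ∀ m : Fin r → ℤ, ∑ i, m i • v i = 0 → m = 0) (T : Set (Fin d → UnitAddCircle))
    (hpos : 0 < (Pd d).real T)
    (hav : ∀ i, ∫ t in T, (1 - (mFourier (v i) t).re) ∂(Pd d) ≤ 3 / 10 * (Pd d).real T) :
    (r : ℝ) ≤ 4 * Real.log (1 / (Pd d).real T) := by
  obtain ⟨hi, hle⟩ := exp_moment d r v hv
  set m : ℝ := 7 / 10 * r with hm
  have hre : ∀ n : Fin d → ℤ, ∀ t, |(mFourier n t).re| ≤ 1 := by
    intro n t
    have := Complex.abs_re_le_norm (mFourier n t)
    rw [mF_mul_conj] at this
    exact this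
  have hc : ∀ n : Fin d → ℤ, Continuous (fun t => (mFourier n t).re) := fun n =>
    Complex.continuous_re.comp (mFourier n).continuous
  have hint : ∀ i, Integrable (fun t => (mFourier (v i) t).re) (Pd d) := by
    intro i
    refine Integrable.of_bound (C := 1) (hc (v i)).aestronglyMeasurable (ae_of_all _ ?_)
    intro t
    exact hre (v i) t
  have h1 : ∀ i, 7 / 10 * (Pd d).real T ≤ ∫ t in T, (mFourier (v i) t).re ∂(Pd d) := by
    intro i
    have h2 := hav i
    rw [integral_sub (integrable_const _) (hint i).integrableOn, setIntegral_const, smul_eq_mul,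
      mul_one] at h2
    linarith
  have h2 : m * (Pd d).real T ≤ ∫ t in T, ∑ i, (mFourier (v i) t).re ∂(Pd d) := by
    rw [integral_finsetSum _ (fun i _ => (hint i).integrableOn)]
    calc m * (Pd d).real T = ∑ _i : Fin r, 7 / 10 * (Pd d).real T := by
          rw [Finset.sum_const, Finset.card_univ, Fintype.card_fin, nsmul_eq_mul, hm]
          ring
      _ ≤ _ := Finset.sum_le_sum (fun i _ => h1 i)
  have hsumi : Integrable (fun t => ∑ i, (mFourier (v i) t).re) (Pd d) :=
    integrable_finsetSum _ (fun i _ => hint i)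
  have h3 : Real.exp m * (Pd d).real T ≤ ∫ t in T, Real.exp (∑ i, (mFourier (v i) t).re) ∂(Pd d) := by
    have h4 : ∫ t in T, Real.exp m * (1 + ((∑ i, (mFourier (v i) t).re) - m)) ∂(Pd d) ≤
        ∫ t in T, Real.exp (∑ i, (mFourier (v i) t).re) ∂(Pd d) := by
      apply integral_mono
      · exact (((integrable_const _).add (hsumi.sub (integrable_const _))).const_mul _).integrableOn
      · exact hi.integrableOn
      · intro t
        simp only
        have h5 := Real.add_one_le_exp ((∑ i, (mFourier (v i) t).re) - m)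
        calc Real.exp m * (1 + ((∑ i, (mFourier (v i) t).re) - m))
            ≤ Real.exp m * Real.exp ((∑ i, (mFourier (v i) t).re) - m) :=
              mul_le_mul_of_nonneg_left (by linarith) (Real.exp_pos _).le
          _ = Real.exp (∑ i, (mFourier (v i) t).re) := by
              rw [← Real.exp_add]
              congr 1
              ring
    refine le_trans ?_ h4
    rw [integral_const_mul]
    apply mul_le_mul_of_nonneg_left _ (Real.exp_pos _).le
    have h6 : ∫ t in T, (1 + ((∑ i, (mFourier (v i) t).re) - m)) ∂(Pd d) =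
        ∫ t in T, ((∑ i, (mFourier (v i) t).re) + (1 - m)) ∂(Pd d) := by
      congr 1
      funext t
      ring
    have h7 : ∫ t in T, ((∑ i, (mFourier (v i) t).re) + (1 - m)) ∂(Pd d) =
        ∫ t in T, (∑ i, (mFourier (v i) t).re) ∂(Pd d) + ∫ _t in T, (1 - m) ∂(Pd d) :=
      integral_add hsumi.integrableOn (integrable_const _)
    rw [h6, h7, setIntegral_const, smul_eq_mul]
    linarith
  have h4 : ∫ t in T, Real.exp (∑ i, (mFourier (v i) t).re) ∂(Pd d) ≤
      ∫ t, Real.exp (∑ i, (mFourier (v i) t).re) ∂(Pd d) :=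
    setIntegral_le_integral hi (ae_of_all _ (fun t => (Real.exp_pos _).le))
  have h5 : Real.exp m * (Pd d).real T ≤ (3 / 2) ^ r := h3.trans (h4.trans hle)
  have h6 : (3 / 2 : ℝ) ≤ Real.exp (9 / 20) := by
    have := Real.quadratic_le_exp_of_nonneg (show (0 : ℝ) ≤ 9 / 20 by norm_num)
    norm_num at this ⊢
    linarith
  have h7 : (3 / 2 : ℝ) ^ r ≤ Real.exp (9 / 20 * r) := by
    calc (3 / 2 : ℝ) ^ r ≤ (Real.exp (9 / 20)) ^ r := pow_le_pow_left₀ (by norm_num) h6 r
      _ = Real.exp (9 / 20 * r) := by rw [← Real.exp_nat_mul, mul_comm]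
  have h8 : Real.exp (r / 4) ≤ 1 / (Pd d).real T := by
    rw [le_div_iff₀ hpos]
    have h9 : Real.exp m * (Pd d).real T ≤ Real.exp (9 / 20 * r) := h5.trans h7
    have h10 : Real.exp (r / 4) = Real.exp m * Real.exp (-(9 / 20 * r)) := by
      rw [← Real.exp_add, hm]
      congr 1
      ring
    rw [h10]
    calc Real.exp m * Real.exp (-(9 / 20 * r)) * (Pd d).real T
        = (Real.exp m * (Pd d).real T) * Real.exp (-(9 / 20 * r)) := by ring
      _ ≤ Real.exp (9 / 20 * r) * Real.exp (-(9 / 20 * r)) :=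
          mul_le_mul_of_nonneg_right h9 (Real.exp_pos _).le
      _ = 1 := by rw [← Real.exp_add, add_neg_cancel, Real.exp_zero]
  have h9 := Real.log_le_log (Real.exp_pos _) h8
  rw [Real.log_exp] at h9
  linarith

end Pool.Agent.Helper30.BX
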