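import Mathlib

/-!
# Simultaneous translates of a good sample (pigeonhole step)

`B` is the sampling set, `W` contains almost all of `B + t` for every `t ∈ T`, and
`μ W ≤ exp κ * μ B`. If at least half of the `N`-tuples from `B` are good, then some `z` has
`z - (t, …, t)` good for a proportion `exp (-κ N) / 4` of the `t ∈ T`.
-/

set_option autoImplicit false

open MeasureTheory Set

namespace Pool.Agent.Helper30.BX

variable {G : Type*} [AddCommGroup G] [MeasurableSpace G] [MeasurableAdd₂ G] [MeasurableNeg G]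

/-- The growth relation: for every `t ∈ T` almost all of `B + t` lies in `W`, and `W` is at most
`exp κ` times larger than `B`. -/
structure Rel (μ : Measure G) (B W T : Set G) (κ η : ℝ) : Prop where
  mB : MeasurableSet B
  mW : MeasurableSet W
  mT : MeasurableSet T
  pos : 0 < μ.real B
  growth : μ.real W ≤ Real.exp κ * μ.real B
  stay : ∀ t ∈ T, μ.real {b | b ∈ B ∧ b + t ∉ W} ≤ η * μ.real B

theorem pi_real {N : ℕ} (μ : Measure G) [IsProbabilityMeasure μ] (s : Fin N → Set G) :
    (Measure.pi (fun _ : Fin N => μ)).real (univ.pi s) = ∏ i, μ.real (s i) := by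
  rw [measureReal_def, Measure.pi_pi, ENNReal.toReal_prod]
  rfl

theorem union_bound (μ : Measure G) [IsProbabilityMeasure μ] (B F : Set G) (N : ℕ) (η : ℝ)
    (hη : μ.real F ≤ η * μ.real B) :
    (Measure.pi (fun _ : Fin N => μ)).real {b | (∀ j, b j ∈ B) ∧ ∃ j, b j ∈ F} ≤
      N * η * (μ.real B) ^ N := by
  classical
  have h1 : {b : Fin N → G | (∀ j, b j ∈ B) ∧ ∃ j, b j ∈ F} ⊆
      ⋃ j : Fin N, univ.pi (Function.update (fun _ => B) j F) := by
    rintro b ⟨hb, j, hj⟩
    rw [mem_iUnion]
    refine ⟨j, ?_⟩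
    intro i _
    by_cases h : i = j
    · subst h
      rw [Function.update_self]
      exact hj
    · rw [Function.update_of_ne h]
      exact hb i
  have h2 : (Measure.pi (fun _ : Fin N => μ)).real
      (⋃ j : Fin N, univ.pi (Function.update (fun _ => B) j F)) ≤
      ∑ j : Fin N, (Measure.pi (fun _ : Fin N => μ)).real
        (univ.pi (Function.update (fun _ => B) j F)) := measureReal_iUnion_fintype_le _
  have h3 : ∀ j : Fin N, (Measure.pi (fun _ : Fin N => μ)).real
        (univ.pi (Function.update (fun _ => B) j F)) ≤ η * (μ.real B) ^ N := by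
    intro j
    rw [pi_real]
    have h4 : ∀ i, μ.real (Function.update (fun _ => B) j F i) =
        Function.update (fun _ => μ.real B) j (μ.real F) i := by
      intro i
      by_cases h : i = j
      · subst h
        rw [Function.update_self, Function.update_self]
      · rw [Function.update_of_ne h, Function.update_of_ne h]
    rw [Finset.prod_congr rfl (fun i _ => h4 i), Finset.prod_update_of_mem (Finset.mem_univ j),
      Finset.prod_const]
    have h5 : (Finset.univ \ {j} : Finset (Fin N)).card + 1 = N := by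
      rw [Finset.card_univ_sdiff, Finset.card_singleton, Fintype.card_fin]
      have := j.pos
      omega
    calc μ.real F * μ.real B ^ (Finset.univ \ {j} : Finset (Fin N)).card
        ≤ (η * μ.real B) * μ.real B ^ (Finset.univ \ {j} : Finset (Fin N)).card :=
          mul_le_mul_of_nonneg_right hη (pow_nonneg measureReal_nonneg _)
      _ = η * μ.real B ^ ((Finset.univ \ {j} : Finset (Fin N)).card + 1) := by ring
      _ = η * μ.real B ^ N := by rw [h5]
  calc (Measure.pi (fun _ : Fin N => μ)).real {b | (∀ j, b j ∈ B) ∧ ∃ j, b j ∈ F}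
      ≤ _ := measureReal_mono h1
    _ ≤ _ := h2
    _ ≤ ∑ _j : Fin N, η * (μ.real B) ^ N := Finset.sum_le_sum (fun j _ => h3 j)
    _ = N * η * (μ.real B) ^ N := by
        rw [Finset.sum_const, Finset.card_univ, Fintype.card_fin, nsmul_eq_mul]
        ring

/-- The pigeonhole step. -/
theorem pigeon (μ : Measure G) [IsProbabilityMeasure μ] [μ.IsAddLeftInvariant]
    {B W T : Set G} {κ η : ℝ} (hR : Rel μ B W T κ η) (N : ℕ) (hN : N * η ≤ 1 / 4)
    (Good : Set (Fin N → G)) (hG : MeasurableSet Good) (hGB : ∀ b ∈ Good, ∀ j, b j ∈ B)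
    (hGood : (μ.real B) ^ N / 2 ≤ (Measure.pi (fun _ : Fin N => μ)).real Good) :
    ∃ z : Fin N → G, Real.exp (-(κ * N)) / 4 * μ.real T ≤
      μ.real {t | t ∈ T ∧ (fun j => z j - t) ∈ Good} := by
  classical
  set ν : Measure (Fin N → G) := Measure.pi (fun _ : Fin N => μ) with hν
  set WN : Set (Fin N → G) := univ.pi (fun _ => W) with hWN
  have hWNm : MeasurableSet WN := MeasurableSet.univ_pi (fun _ => hR.mW)
  -- the incidence set
  set S : Set ((Fin N → G) × G) := {p | p.1 ∈ WN ∧ p.2 ∈ T ∧ (fun j => p.1 j - p.2) ∈ Good}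
    with hS
  have hsub : Measurable (fun p : (Fin N → G) × G => (fun j => p.1 j - p.2)) := by
    apply measurable_pi_lambda
    intro j
    have h1 : Measurable (fun p : (Fin N → G) × G => p.1 j) :=
      (measurable_pi_apply j).comp measurable_fst
    have h2 : Measurable (fun p : (Fin N → G) × G => -p.2) := measurable_snd.neg
    have h3 : Measurable (fun p : (Fin N → G) × G => p.1 j + -p.2) := h1.add h2
    simp only [sub_eq_add_neg]
    exact h3
  have hSm : MeasurableSet S :=
    (measurable_fst hWNm).inter ((measurable_snd hR.mT).inter (hsub hG))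
  by_cases hT0 : μ.real T = 0
  · refine ⟨0, ?_⟩
    rw [hT0, mul_zero]
    exact measureReal_nonneg
  have hTpos : 0 < μ.real T := lt_of_le_of_ne measureReal_nonneg (Ne.symm hT0)
  have hBN : 0 < (μ.real B) ^ N := pow_pos hR.pos N
  -- lower bound for the slices at fixed `t`
  have hslice : ∀ t ∈ T, (μ.real B) ^ N / 4 ≤ ν.real {z | (z, t) ∈ S} := by
    intro t ht
    have h1 : ν.real {z | (z, t) ∈ S} = ν.real ((fun x => (fun _ => t) + x) ⁻¹' {z | (z, t) ∈ S}) := by
      rw [measureReal_def, measureReal_def, measure_preimage_add]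
    have h2 : Good ⊆ ((fun x => (fun _ => t) + x) ⁻¹' {z | (z, t) ∈ S}) ∪
        {b | (∀ j, b j ∈ B) ∧ ∃ j, b j ∈ {b | b ∈ B ∧ b + t ∉ W}} := by
      intro b hb
      by_cases hbW : ∀ j, b j + t ∈ W
      · left
        refine ⟨?_, ht, ?_⟩
        · intro j _
          have := hbW j
          rw [add_comm] at this
          exact this
        · have h3 : (fun j => ((fun _ => t) + b : Fin N → G) j - t) = b := by
            funext j
            simp only [Pi.add_apply]
            abel
          change (fun j => ((fun _ => t) + b : Fin N → G) j - t) ∈ Good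
          rw [h3]
          exact hb
      · right
        push Not at hbW
        obtain ⟨j, hj⟩ := hbW
        exact ⟨fun j => hGB b hb j, j, hGB b hb j, hj⟩
    have h3 := union_bound μ B {b | b ∈ B ∧ b + t ∉ W} N η (hR.stay t ht)
    have h4 : ν.real Good ≤ _ := (measureReal_mono h2).trans (measureReal_union_le _ _)
    have h5 : N * η * (μ.real B) ^ N ≤ 1 / 4 * (μ.real B) ^ N :=
      mul_le_mul_of_nonneg_right hN hBN.le
    rw [h1]
    linarith
  -- total mass
  set a : ENNReal := (ν.prod μ) S with ha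
  have ha1 : a = ∫⁻ t, ν {z | (z, t) ∈ S} ∂μ := by
    rw [ha, Measure.prod_apply_symm hSm]
    rfl
  have ha2 : a = ∫⁻ z, μ {t | (z, t) ∈ S} ∂ν := by
    rw [ha, Measure.prod_apply hSm]
    rfl
  have ha3 : ENNReal.ofReal ((μ.real B) ^ N / 4 * μ.real T) ≤ a := by
    rw [ha1]
    have h1 : ∫⁻ t in T, ENNReal.ofReal ((μ.real B) ^ N / 4) ∂μ ≤
        ∫⁻ t, ν {z | (z, t) ∈ S} ∂μ := by
      calc ∫⁻ t in T, ENNReal.ofReal ((μ.real B) ^ N / 4) ∂μ
          ≤ ∫⁻ t in T, ν {z | (z, t) ∈ S} ∂μ := by
            apply setLIntegral_mono' hR.mT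
            intro t ht
            have h2 := hslice t ht
            rw [measureReal_def] at h2
            exact (ENNReal.ofReal_le_iff_le_toReal (measure_ne_top _ _)).mpr h2
        _ ≤ _ := setLIntegral_le_lintegral _ _
    rw [setLIntegral_const] at h1
    rw [ENNReal.ofReal_mul (by positivity), measureReal_def, measureReal_def,
      ENNReal.ofReal_toReal (measure_ne_top μ T)]
    rw [measureReal_def] at h1
    exact h1
  have ha4 : a = ∫⁻ z in WN, μ {t | (z, t) ∈ S} ∂ν := by
    rw [ha2, ← lintegral_indicator hWNm]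
    congr 1
    funext z
    by_cases hz : z ∈ WN
    · rw [indicator_of_mem hz]
    · rw [indicator_of_notMem hz]
      have : {t | (z, t) ∈ S} = ∅ := by
        ext t
        simp only [mem_ofPred_eq, mem_empty_iff_false, iff_false]
        intro h
        exact hz h.1
      rw [this, measure_empty]
  have hafin : a ≠ ⊤ := measure_ne_top _ _
  have hW0 : ν WN ≠ 0 := by
    intro h0
    have h1 : a = 0 := by
      rw [ha4]
      exact setLIntegral_measure_zero _ _ h0
    rw [h1] at ha3
    have h2 : 0 < (μ.real B) ^ N / 4 * μ.real T := by positivity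
    have h3 : 0 < ENNReal.ofReal ((μ.real B) ^ N / 4 * μ.real T) := ENNReal.ofReal_pos.mpr h2
    exact absurd ha3 (not_le.mpr h3)
  obtain ⟨z, hz, hle⟩ := exists_setLAverage_le (μ := ν) (s := WN)
    (f := fun z => μ {t | (z, t) ∈ S}) hW0 hWNm.nullMeasurableSet (by rw [← ha4]; exact hafin)
  rw [setLAverage_eq, ← ha4] at hle
  refine ⟨z, ?_⟩
  have h1 : {t | (z, t) ∈ S} ⊆ {t | t ∈ T ∧ (fun j => z j - t) ∈ Good} := by
    intro t ht
    exact ⟨ht.2.1, ht.2.2⟩
  have h2 : μ.real {t | (z, t) ∈ S} ≤ μ.real {t | t ∈ T ∧ (fun j => z j - t) ∈ Good} :=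
    measureReal_mono h1
  have h3 : (a / ν WN).toReal ≤ μ.real {t | (z, t) ∈ S} :=
    ENNReal.toReal_mono (measure_ne_top _ _) hle
  rw [ENNReal.toReal_div] at h3
  have h4 : (ν WN).toReal = (μ.real W) ^ N := by
    have := pi_real (N := N) μ (fun _ => W)
    rw [measureReal_def, Finset.prod_const, Finset.card_univ, Fintype.card_fin] at this
    exact this
  have h5 : (μ.real B) ^ N / 4 * μ.real T ≤ a.toReal :=
    (ENNReal.ofReal_le_iff_le_toReal hafin).mp ha3
  have h6 : (μ.real W) ^ N ≤ Real.exp (κ * N) * (μ.real B) ^ N := by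
    calc (μ.real W) ^ N ≤ (Real.exp κ * μ.real B) ^ N :=
          pow_le_pow_left₀ measureReal_nonneg hR.growth N
      _ = Real.exp (κ * N) * (μ.real B) ^ N := by
          rw [mul_pow, ← Real.exp_nat_mul, mul_comm (N : ℝ) κ]
  have h7 : 0 < (μ.real W) ^ N := by
    rw [← h4]
    exact ENNReal.toReal_pos hW0 (measure_ne_top _ _)
  calc Real.exp (-(κ * N)) / 4 * μ.real T
      = (Real.exp (-(κ * N)) * (Real.exp (κ * N) * (μ.real B) ^ N)) / 4 * μ.real T /
          (Real.exp (κ * N) * (μ.real B) ^ N) := by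
        have : Real.exp (κ * N) ≠ 0 := (Real.exp_pos _).ne'
        have := hBN.ne'
        field_simp
    _ = (μ.real B) ^ N / 4 * μ.real T / (Real.exp (κ * N) * (μ.real B) ^ N) := by
        rw [← mul_assoc, ← Real.exp_add, neg_add_cancel, Real.exp_zero, one_mul]
    _ ≤ (μ.real B) ^ N / 4 * μ.real T / (μ.real W) ^ N := by
        apply div_le_div_of_nonneg_left (by positivity) h7 h6
    _ ≤ a.toReal / (μ.real W) ^ N := div_le_div_of_nonneg_right h5 h7.le
    _ = a.toReal / (ν WN).toReal := by rw [h4]
    _ ≤ μ.real {t | (z, t) ∈ S} := h3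
    _ ≤ _ := h2

end Pool.Agent.Helper30.BX
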