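import Pool.Agent.Helper30.BX.Step

/-!
# The recursion

`E U A 0 = A`, `E U A (i + 1) = {x | x + b ∈ U for some b ∈ E U A i}`. After `n` steps we have a
set `B ⊆ E U A n` which is almost invariant under a set `T` of translations of measure at least
`exp (- C x ^ (2 n + 1))`, where `x ^ n` bounds `log (2 ^ n / μ A)`.
-/

set_option autoImplicit false

open MeasureTheory Set

namespace Pool.Agent.Helper30.BX

variable {G : Type*} [AddCommGroup G] [MeasurableSpace G] [MeasurableAdd₂ G] [MeasurableNeg G]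

/-- The iterated sets. -/
def EE (U A : Set G) : ℕ → Set G
  | 0 => A
  | (i + 1) => {x | ∃ b ∈ EE U A i, x + b ∈ U}

theorem DD_subset_EE (μ : Measure G) [IsProbabilityMeasure μ] {B U A : Set G} {r : ℝ} (i : ℕ)
    (hpos : 0 < μ.real B) (hr : r < 1) (hB : B ⊆ EE U A i) : DD μ B U r ⊆ EE U A (i + 1) := by
  intro x hx
  by_contra hcon
  have h1 : ∀ b ∈ B, x + b ∉ U := by
    intro b hb hxb
    exact hcon ⟨b, hB hb, hxb⟩
  have h2 : {b | b ∈ B ∧ x + b ∉ U} = B := by
    ext b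
    constructor
    · exact fun h => h.1
    · exact fun h => ⟨h, h1 b h⟩
  have h3 : vv μ B U x = 1 := by
    unfold vv
    rw [h2, div_self hpos.ne']
  have h4 : vv μ B U x ≤ r := hx
  linarith

/-- The growth parameter after `i` steps. -/
noncomputable def kap (n : ℕ) (x : ℝ) (i : ℕ) : ℝ := if i = 0 then x ^ n else x ^ (n - i) / 20

/-- The error parameter after `i` steps. -/
noncomputable def eta (n : ℕ) (x K : ℝ) (i : ℕ) : ℝ :=
  if i = 0 then 0 else 12 * Real.exp (-(K * x ^ (n - i)))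

/-- The state after `i` steps. -/
def State (μ : Measure G) (U A : Set G) (n : ℕ) (x K C : ℝ) (i : ℕ) : Prop :=
  ∃ B W T : Set G, Rel μ B W T (kap n x i) (eta n x K i) ∧ B ⊆ W ∧ B ⊆ EE U A i ∧
    μ.real A / 2 ^ i ≤ μ.real B ∧
    μ.real A / 2 ^ i ≤ μ.real (DD μ B U ((2 ^ i - 1) / 2 ^ (n + 1))) ∧
    Real.exp (-(3 * i * C * x ^ (2 * n + 1))) ≤ μ.real T

theorem state_zero (μ : Measure G) [IsProbabilityMeasure μ] {U A : Set G}
    (hA : MeasurableSet A) (hAU : ∀ a ∈ A, ∀ b ∈ A, a + b ∈ U) (n : ℕ) (x K C : ℝ)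
    (hα : Real.exp (-(x ^ n)) ≤ μ.real A / 2 ^ n) : State μ U A n x K C 0 := by
  have h0 : 0 < μ.real A / 2 ^ n := lt_of_lt_of_le (Real.exp_pos _) hα
  have hpos : 0 < μ.real A := by
    by_contra hcon
    push Not at hcon
    have : μ.real A / 2 ^ n ≤ 0 := div_nonpos_of_nonpos_of_nonneg hcon (by positivity)
    linarith
  have h1 : μ.real A / 2 ^ n ≤ μ.real A := div_le_self hpos.le (one_le_pow₀ (by norm_num))
  refine ⟨A, univ, univ, ⟨hA, MeasurableSet.univ, MeasurableSet.univ, hpos, ?_, ?_⟩,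
    subset_univ _, subset_rfl, ?_, ?_, ?_⟩
  · unfold kap
    rw [if_pos rfl]
    have h2 : μ.real (univ : Set G) = 1 := by
      rw [measureReal_def, measure_univ]
      rfl
    rw [h2]
    calc (1 : ℝ) = Real.exp (x ^ n) * Real.exp (-(x ^ n)) := by
          rw [← Real.exp_add, add_neg_cancel, Real.exp_zero]
      _ ≤ Real.exp (x ^ n) * μ.real A :=
          mul_le_mul_of_nonneg_left (hα.trans h1) (Real.exp_pos _).le
  · intro t _
    have h2 : {b | b ∈ A ∧ b + t ∉ (univ : Set G)} = ∅ := by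
      ext b
      constructor
      · intro h
        exact absurd (mem_univ _) h.2
      · intro h
        exact absurd h (notMem_empty _)
    rw [h2, measureReal_empty]
    unfold eta
    rw [if_pos rfl, zero_mul]
  · rw [pow_zero, div_one]
  · rw [pow_zero, div_one]
    refine measureReal_mono ?_ (measure_ne_top _ _)
    intro a ha
    have h2 : {b | b ∈ A ∧ a + b ∉ U} = ∅ := by
      ext b
      constructor
      · intro h
        exact absurd (hAU a ha b h.1) h.2
      · intro h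
        exact absurd h (notMem_empty _)
    change vv μ A U a ≤ (1 - 1) / 2 ^ (n + 1)
    unfold vv
    rw [h2, measureReal_empty]
    simp
  · have h2 : μ.real (univ : Set G) = 1 := by
      rw [measureReal_def, measure_univ]
      rfl
    rw [h2]
    simp

theorem state_succ (μ : Measure G) [IsProbabilityMeasure μ] [μ.IsAddLeftInvariant] {U A : Set G}
    (hU : MeasurableSet U) (n : ℕ) (x K : ℝ) (hx : 1 ≤ x) (hK : 1 ≤ K)
    (hα : Real.exp (-(x ^ n)) ≤ μ.real A / 2 ^ n)
    (hC : 96 * (6400 * (K + 1) * 4 ^ (n + 2)) * x ^ (2 * n) ≤ Real.exp (K * x)) (i : ℕ)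
    (hi : i < n) (hS : State μ U A n x K (6400 * (K + 1) * 4 ^ (n + 2)) i) :
    State μ U A n x K (6400 * (K + 1) * 4 ^ (n + 2)) (i + 1) := by
  set C : ℝ := 6400 * (K + 1) * 4 ^ (n + 2) with hCdef
  obtain ⟨B, W, T, hR, -, hBE, hB1, hD1, hT1⟩ := hS
  have hx0 : 0 < x := by linarith
  have hC1 : 1 ≤ C := by
    rw [hCdef]
    have h1 : (1 : ℝ) ≤ 4 ^ (n + 2) := one_le_pow₀ (by norm_num)
    nlinarith
  -- the number of samples
  set N : ℕ := ⌈C * x ^ (n + (i + 1))⌉₊ with hN
  have hxi : 1 ≤ x ^ (n + (i + 1)) := one_le_pow₀ hx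
  have hCx : 1 ≤ C * x ^ (n + (i + 1)) := by nlinarith
  have hN1 : C * x ^ (n + (i + 1)) ≤ N := Nat.le_ceil _
  have hN2 : (N : ℝ) ≤ 2 * (C * x ^ (n + (i + 1))) := by
    have h1 : (N : ℝ) < C * x ^ (n + (i + 1)) + 1 := Nat.ceil_lt_add_one (by linarith)
    linarith
  have hp0 : 0 < μ.real A / 2 ^ i := by
    have h0 : 0 < μ.real A / 2 ^ n := lt_of_lt_of_le (Real.exp_pos _) hα
    have hpos : 0 < μ.real A := by
      by_contra hcon
      push Not at hcon
      have : μ.real A / 2 ^ n ≤ 0 := div_nonpos_of_nonpos_of_nonneg hcon (by positivity)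
      linarith
    positivity
  have hLp : Real.exp (-(x ^ n)) ≤ μ.real A / 2 ^ i := by
    refine hα.trans ?_
    apply div_le_div_of_nonneg_left measureReal_nonneg (by positivity)
    exact pow_le_pow_right₀ (by norm_num) hi.le
  have hxn : 0 < x ^ n := by positivity
  set Λ : ℝ := 2 ^ (n + 2) * x ^ n with hΛ
  have hΛ0 : 0 < Λ := by positivity
  set ρ : ℝ := x ^ (n - (i + 1)) / (40 * Λ) with hρ
  have hxni : 0 < x ^ (n - (i + 1)) := by positivity
  have hρ0 : 0 < ρ := by positivity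
  have hΛρ : Λ * ρ = x ^ (n - (i + 1)) / 40 := by
    rw [hρ]
    field_simp
  have hρ2 : ρ ≤ 2 := by
    rw [hρ, div_le_iff₀ (by positivity)]
    have h1 : x ^ (n - (i + 1)) ≤ x ^ n := pow_le_pow_right₀ hx (Nat.sub_le _ _)
    have h2 : (1 : ℝ) ≤ 2 ^ (n + 2) := one_le_pow₀ (by norm_num)
    have h3 : x ^ n ≤ Λ := by
      rw [hΛ]
      nlinarith
    nlinarith
  set y : ℝ := K * x ^ (n - (i + 1)) with hy
  have hy1 : 1 ≤ y := by
    have h1 : 1 ≤ x ^ (n - (i + 1)) := one_le_pow₀ hx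
    rw [hy]
    nlinarith
  have hNη : N * eta n x K i ≤ 1 / 4 := by
    unfold eta
    by_cases hi0 : i = 0
    · rw [if_pos hi0, mul_zero]
      norm_num
    · rw [if_neg hi0]
      have h1 : x ≤ x ^ (n - i) := by
        calc x = x ^ 1 := (pow_one x).symm
          _ ≤ x ^ (n - i) := pow_le_pow_right₀ hx (by omega)
      have h2 : Real.exp (-(K * x ^ (n - i))) ≤ Real.exp (-(K * x)) := by
        apply Real.exp_le_exp.mpr
        nlinarith
      have h3 : x ^ (n + (i + 1)) ≤ x ^ (2 * n) := pow_le_pow_right₀ hx (by omega)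
      have h4 : (N : ℝ) ≤ 2 * (C * x ^ (2 * n)) := by
        have : C * x ^ (n + (i + 1)) ≤ C * x ^ (2 * n) :=
          mul_le_mul_of_nonneg_left h3 (by linarith)
        linarith
      have h5 : Real.exp (-(K * x)) * Real.exp (K * x) = 1 := by
        rw [← Real.exp_add, neg_add_cancel, Real.exp_zero]
      have h6 : 0 < Real.exp (-(K * x)) := Real.exp_pos _
      calc (N : ℝ) * (12 * Real.exp (-(K * x ^ (n - i))))
          ≤ (2 * (C * x ^ (2 * n))) * (12 * Real.exp (-(K * x))) := by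
            apply mul_le_mul h4 (by linarith) (by positivity) (by positivity)
        _ = (96 * C * x ^ (2 * n)) * Real.exp (-(K * x)) / 4 := by ring
        _ ≤ Real.exp (K * x) * Real.exp (-(K * x)) / 4 := by
            apply div_le_div_of_nonneg_right _ (by norm_num)
            exact mul_le_mul_of_nonneg_right hC h6.le
        _ = 1 / 4 := by rw [mul_comm (Real.exp (K * x)), h5]
  have hNρ : 3 * (Λ * ρ) + y ≤ N * ρ ^ 2 / 4 := by
    have h1 : C * x ^ (n + (i + 1)) * ρ ^ 2 / 4 = (K + 1) * x ^ (n - (i + 1)) := by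
      have h2 : x ^ (n + (i + 1)) * (x ^ (n - (i + 1))) = (x ^ n) ^ 2 := by
        rw [← pow_add, ← pow_mul]
        congr 1
        omega
      have h3 : (4 : ℝ) ^ (n + 2) = (2 ^ (n + 2)) ^ 2 := by
        rw [← pow_mul, mul_comm, pow_mul]
        norm_num
      rw [hρ, hΛ, hCdef, h3]
      field_simp
      rw [← h2]
      ring
    have h4 : C * x ^ (n + (i + 1)) * ρ ^ 2 / 4 ≤ N * ρ ^ 2 / 4 := by
      apply div_le_div_of_nonneg_right _ (by norm_num)
      exact mul_le_mul_of_nonneg_right hN1 (sq_nonneg _)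
    rw [h1] at h4
    rw [hΛρ, hy]
    nlinarith
  have hc0 : (0 : ℝ) ≤ (2 ^ i - 1) / 2 ^ (n + 1) := by
    apply div_nonneg _ (by positivity)
    have : (1 : ℝ) ≤ 2 ^ i := one_le_pow₀ (by norm_num)
    linarith
  obtain ⟨B', W', T', r, hR', hB'eq, hr, hB'1, hT', hD', hBW⟩ := step μ hR hU N hNη
    ((2 ^ i - 1) / 2 ^ (n + 1)) (μ.real A / 2 ^ i) (x ^ n) Λ ρ y hΛ0 hρ0 hρ2 hy1 hc0 hxn hp0 hD1
    hLp hNρ
  have hLΛ : x ^ n / Λ = 1 / 2 ^ (n + 2) := by
    rw [hΛ]
    field_simp
  have h2in : (2 : ℝ) ^ (i + 1) ≤ 2 ^ n := pow_le_pow_right₀ (by norm_num) hi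
  have hr1 : r < 1 := by
    refine lt_of_le_of_lt hr ?_
    rw [hLΛ]
    have h1 : (2 : ℝ) ^ (n + 2) = 4 * 2 ^ n := by ring
    have h2 : (2 : ℝ) ^ (n + 1) = 2 * 2 ^ n := by ring
    have h3 : (2 : ℝ) ^ (i + 1) = 2 * 2 ^ i := by ring
    rw [h3] at h2in
    have h4 : (0 : ℝ) < 2 ^ n := by positivity
    rw [h1, h2, div_add_div _ _ (by positivity) (by positivity), div_lt_one (by positivity)]
    nlinarith
  refine ⟨B', W', T', ?_, hBW, ?_, ?_, ?_, ?_⟩
  · have h1 : kap n x (i + 1) = 2 * (Λ * ρ) := by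
      unfold kap
      rw [if_neg (Nat.succ_ne_zero i), hΛρ]
      ring
    have h2 : eta n x K (i + 1) = 12 * Real.exp (-y) := by
      unfold eta
      rw [if_neg (Nat.succ_ne_zero i)]
    rw [h1, h2]
    exact hR'
  · rw [hB'eq]
    exact DD_subset_EE μ i hR.pos hr1 hBE
  · refine le_trans ?_ hB'1
    apply div_le_div_of_nonneg_left measureReal_nonneg (by positivity)
    exact pow_le_pow_right₀ (by norm_num) (Nat.le_succ i)
  · have h1 : 2 * (((2 : ℝ) ^ i - 1) / 2 ^ (n + 1) + x ^ n / Λ) = (2 ^ (i + 1) - 1) / 2 ^ (n + 1) := by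
      rw [hLΛ]
      have h1 : (2 : ℝ) ^ (n + 2) = 2 * 2 ^ (n + 1) := by ring
      have h3 : (2 : ℝ) ^ (i + 1) = 2 * 2 ^ i := by ring
      rw [h1, h3]
      field_simp
      ring
    rw [h1] at hD'
    refine le_trans ?_ hD'
    calc μ.real A / 2 ^ (i + 1) = (μ.real A / 2 ^ i) / 2 := by
          rw [pow_succ]
          field_simp
      _ ≤ μ.real B / 2 := div_le_div_of_nonneg_right hB1 (by norm_num)
  · refine le_trans ?_ hT'
    have hX : 0 < x ^ (2 * n + 1) := by positivity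
    have h1 : kap n x i * N ≤ 2 * (C * x ^ (2 * n + 1)) := by
      have h2 : kap n x i ≤ x ^ (n - i) := by
        unfold kap
        by_cases hi0 : i = 0
        · rw [if_pos hi0, hi0, Nat.sub_zero]
        · rw [if_neg hi0]
          have : 0 < x ^ (n - i) := by positivity
          linarith
      have h3 : x ^ (n - i) * x ^ (n + (i + 1)) = x ^ (2 * n + 1) := by
        rw [← pow_add]
        congr 1
        omega
      have h4 : 0 < x ^ (n - i) := by positivity
      calc kap n x i * N ≤ x ^ (n - i) * N :=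
            mul_le_mul_of_nonneg_right h2 (Nat.cast_nonneg _)
        _ ≤ x ^ (n - i) * (2 * (C * x ^ (n + (i + 1)))) :=
            mul_le_mul_of_nonneg_left hN2 h4.le
        _ = 2 * (C * (x ^ (n - i) * x ^ (n + (i + 1)))) := by ring
        _ = _ := by rw [h3]
    have h5 : Real.exp (-2) ≤ 1 / 4 := by
      have h6 : Real.exp (-2) = Real.exp (-1) ^ 2 := by
        rw [← Real.exp_nat_mul]
        norm_num
      have h7 : Real.exp (-1) < 0.3678794412 := Real.exp_neg_one_lt_d9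
      have h8 : 0 < Real.exp (-1) := Real.exp_pos _
      rw [h6]
      nlinarith
    have h9 : 2 ≤ C * x ^ (2 * n + 1) := by
      have h10 : 1 ≤ x ^ (2 * n + 1) := one_le_pow₀ hx
      have h11 : 2 ≤ C := by
        rw [hCdef]
        have h12 : (1 : ℝ) ≤ 4 ^ (n + 2) := one_le_pow₀ (by norm_num)
        nlinarith
      nlinarith
    have h13 : Real.exp (-(3 * ((i + 1 : ℕ) : ℝ) * C * x ^ (2 * n + 1))) ≤
        Real.exp (-(kap n x i * N)) * Real.exp (-2) * Real.exp (-(3 * i * C * x ^ (2 * n + 1))) := by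
      rw [← Real.exp_add, ← Real.exp_add]
      apply Real.exp_le_exp.mpr
      push_cast
      nlinarith
    refine h13.trans ?_
    calc Real.exp (-(kap n x i * N)) * Real.exp (-2) * Real.exp (-(3 * i * C * x ^ (2 * n + 1)))
        ≤ Real.exp (-(kap n x i * N)) * (1 / 4) * μ.real T := by
          apply mul_le_mul _ hT1 (Real.exp_pos _).le (by positivity)
          exact mul_le_mul_of_nonneg_left h5 (Real.exp_pos _).le
      _ = Real.exp (-(kap n x i * N)) / 4 * μ.real T := by ring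

theorem state_all (μ : Measure G) [IsProbabilityMeasure μ] [μ.IsAddLeftInvariant] {U A : Set G}
    (hA : MeasurableSet A) (hU : MeasurableSet U) (hAU : ∀ a ∈ A, ∀ b ∈ A, a + b ∈ U)
    (n : ℕ) (x K : ℝ) (hx : 1 ≤ x) (hK : 1 ≤ K)
    (hα : Real.exp (-(x ^ n)) ≤ μ.real A / 2 ^ n)
    (hC : 96 * (6400 * (K + 1) * 4 ^ (n + 2)) * x ^ (2 * n) ≤ Real.exp (K * x)) :
    ∀ i : ℕ, i ≤ n → State μ U A n x K (6400 * (K + 1) * 4 ^ (n + 2)) i := by
  intro i
  induction i with
  | zero =>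
    intro _
    exact state_zero μ hA hAU n x K _ hα
  | succ i ih =>
    intro hi
    exact state_succ μ hU n x K hx hK hα hC i hi (ih (by omega))

/-- The outcome of the recursion. -/
theorem levels (μ : Measure G) [IsProbabilityMeasure μ] [μ.IsAddLeftInvariant] {U A : Set G}
    (hA : MeasurableSet A) (hU : MeasurableSet U) (hAU : ∀ a ∈ A, ∀ b ∈ A, a + b ∈ U)
    (n : ℕ) (hn : 1 ≤ n) (x K : ℝ) (hx : 1 ≤ x) (hK : 10 ≤ K)
    (hα : Real.exp (-(x ^ n)) ≤ μ.real A / 2 ^ n)
    (hC : 96 * (6400 * (K + 1) * 4 ^ (n + 2)) * x ^ (2 * n) ≤ Real.exp (K * x)) :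
    ∃ B T : Set G, MeasurableSet B ∧ MeasurableSet T ∧ 0 < μ.real B ∧ B ⊆ EE U A n ∧
      Real.exp (-(3 * n * (6400 * (K + 1) * 4 ^ (n + 2)) * x ^ (2 * n + 1))) ≤ μ.real T ∧
      ∀ t ∈ T, μ.real {b | b ∈ B ∧ b + t ∉ B} ≤ μ.real B / 8 := by
  obtain ⟨B, W, T, hR, hBW, hBE, -, -, hT⟩ :=
    state_all μ hA hU hAU n x K hx (by linarith) hα hC n le_rfl
  refine ⟨B, T, hR.mB, hR.mT, hR.pos, hBE, hT, ?_⟩
  intro t ht
  have h1 := hR.stay t ht
  have h2 := hR.growth
  have hk : kap n x n = 1 / 20 := by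
    unfold kap
    rw [if_neg (by omega), Nat.sub_self, pow_zero]
  have he : eta n x K n ≤ 1 / 100 := by
    unfold eta
    rw [if_neg (by omega), Nat.sub_self, pow_zero, mul_one]
    have h3 : Real.exp (-K) ≤ Real.exp (-10) := Real.exp_le_exp.mpr (by linarith)
    have h4 : Real.exp (-10) = Real.exp (-1) ^ 10 := by
      rw [← Real.exp_nat_mul]
      norm_num
    have h5 : Real.exp (-1) < 0.3678794412 := Real.exp_neg_one_lt_d9
    have h6 : Real.exp (-1) ^ 10 ≤ (0.37 : ℝ) ^ 10 :=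
      pow_le_pow_left₀ (Real.exp_pos _).le (by linarith) 10
    have h7 : (0.37 : ℝ) ^ 10 ≤ 1 / 1200 := by norm_num
    linarith
  rw [hk] at h2
  have hexp : Real.exp (1 / 20) ≤ 1 + 11 / 200 := by
    have h3 := Real.abs_exp_sub_one_sub_id_le (x := (1 : ℝ) / 20)
      (by rw [abs_le]; constructor <;> norm_num)
    have h4 := (abs_le.mp h3).2
    norm_num at h4 ⊢
    linarith
  have hsub : {b | b ∈ B ∧ b + t ∉ B} ⊆
      {b | b ∈ B ∧ b + t ∉ W} ∪ ((fun b => t + b) ⁻¹' (W \ B)) := by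
    rintro b ⟨hb, hbt⟩
    by_cases hW : b + t ∈ W
    · right
      refine ⟨?_, ?_⟩
      · change t + b ∈ W
        rw [add_comm]
        exact hW
      · change t + b ∉ B
        rw [add_comm]
        exact hbt
    · exact Or.inl ⟨hb, hW⟩
  have h3 := (measureReal_mono hsub (measure_ne_top μ _)).trans (measureReal_union_le _ _)
  have h4 : μ.real ((fun b => t + b) ⁻¹' (W \ B)) = μ.real (W \ B) := by
    rw [measureReal_def, measureReal_def, measure_preimage_add]
  have h5 : μ.real (W \ B) = μ.real W - μ.real B := by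
    rw [measureReal_sdiff hBW hR.mB]
  rw [h4, h5] at h3
  have h6 : μ.real W ≤ (1 + 11 / 200) * μ.real B :=
    h2.trans (mul_le_mul_of_nonneg_right hexp hR.pos.le)
  have h7 : eta n x K n * μ.real B ≤ 1 / 100 * μ.real B :=
    mul_le_mul_of_nonneg_right he hR.pos.le
  have h8 := hR.pos
  linarith

end Pool.Agent.Helper30.BX
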