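import Pool.Agent.Helper30.BX.Step2

/-!
# The recursion, version for small doubling

The level increments telescope: `Λ (c_i - i δ) ≤ log (μ B_i / α) + log (p_i / α) + i log (8 n)`.
-/

set_option autoImplicit false

open MeasureTheory Set

namespace Pool.Agent.Helper30.BX

variable {G : Type*} [AddCommGroup G] [MeasurableSpace G] [MeasurableAdd₂ G] [MeasurableNeg G]

/-- The state after `i` of `n` steps. -/
def State2 (μ : Measure G) (U A : Set G) (Λ : ℝ) (n : ℕ) (κ η σ : ℝ) (i : ℕ) : Prop :=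
  ∃ (B W T Bs : Set G) (c p : ℝ), Rel μ B W T κ η ∧ (i = 0 ∨ B ⊆ W) ∧ MeasurableSet Bs ∧ 0 < μ.real Bs ∧
    (∀ x ∈ B, vv μ Bs U x ≤ 1 / 4) ∧ 0 ≤ c ∧ c ≤ 1 / 4 ∧ 0 < p ∧ p ≤ μ.real (DD μ B U c) ∧
    μ.real B ≤ 2 * μ.real U ∧
    Λ * (c - i / (8 * n)) ≤ (Real.log (μ.real B) - Real.log (μ.real A)) +
      (Real.log p - Real.log (μ.real A)) + i * Real.log (8 * n) ∧
    Real.exp (-σ) * μ.real A ≤ μ.real T

theorem state2_zero (μ : Measure G) [IsProbabilityMeasure μ] [μ.IsAddLeftInvariant] {U A : Set G}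
    (hA : MeasurableSet A) (hU : MeasurableSet U) (hpos : 0 < μ.real A)
    (hAU : ∀ a ∈ A, ∀ b ∈ A, a + b ∈ U) (ℓ Λ : ℝ) (n : ℕ)
    (hK : μ.real U ≤ Real.exp ℓ * μ.real A) : State2 μ U A Λ n ℓ 0 0 0 := by
  have hv : ∀ x ∈ A, vv μ A U x = 0 := by
    intro x hx
    have h2 : {b | b ∈ A ∧ x + b ∉ U} = ∅ := by
      ext b
      constructor
      · intro h
        exact absurd (hAU x hx b h.1) h.2
      · intro h
        exact absurd h (notMem_empty _)
    unfold vv
    rw [h2, measureReal_empty, zero_div]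
  have hne : A.Nonempty := by
    rw [nonempty_iff_ne_empty]
    rintro rfl
    simp at hpos
  have hAleU : μ.real A ≤ μ.real U := by
    obtain ⟨a, ha⟩ := hne
    have h1 : A ⊆ (fun x => a + x) ⁻¹' U := fun x hx => hAU a ha x hx
    have h2 : μ.real ((fun x => a + x) ⁻¹' U) = μ.real U := by
      rw [measureReal_def, measureReal_def, measure_preimage_add]
    rw [← h2]
    exact measureReal_mono h1 (measure_ne_top _ _)
  refine ⟨A, U, A, A, 0, μ.real A, ⟨hA, hU, hA, hpos, hK, ?_⟩, Or.inl rfl, hA, hpos, ?_, le_rfl,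
    by norm_num, hpos, ?_, ?_, ?_, ?_⟩
  · intro t ht
    have h2 : {b | b ∈ A ∧ b + t ∉ U} = ∅ := by
      ext b
      constructor
      · intro h
        exact absurd (hAU b h.1 t ht) h.2
      · intro h
        exact absurd h (notMem_empty _)
    rw [h2, measureReal_empty, zero_mul]
  · intro x hx
    rw [hv x hx]
    norm_num
  · refine measureReal_mono ?_ (measure_ne_top _ _)
    intro x hx
    exact (hv x hx).le
  · linarith
  · simp
  · rw [neg_zero, Real.exp_zero, one_mul]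

theorem state2_succ (μ : Measure G) [IsProbabilityMeasure μ] [μ.IsAddLeftInvariant] {U A : Set G}
    (hU : MeasurableSet U) (hposA : 0 < μ.real A) (ℓ Λ : ℝ) (n : ℕ) (hn : 1 ≤ n) (hℓ : 1 ≤ ℓ)
    (hK : μ.real U ≤ Real.exp ℓ * μ.real A)
    (hΛ : 8 * (2 * (ℓ + 1) + n * Real.log (8 * n)) ≤ Λ) (κ η σ : ℝ) (i : ℕ) (hi : i < n)
    (k y : ℝ) (N : ℕ) (hk0 : 0 < k) (hk : k ≤ ℓ) (hy : 1 ≤ y)
    (hN : 3 * (k / 2) + y ≤ N * (k / (2 * Λ)) ^ 2 / 4) (hNη : N * η ≤ 1 / 4)
    (hS : State2 μ U A Λ n κ η σ i) :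
    State2 μ U A Λ n k (20 * Real.exp (-y)) (σ + κ * N + 2) (i + 1) := by
  obtain ⟨B, W, T, Bs, c, p, hR, -, -, -, -, hc0, hc, hp, hpD, hBU, hInv, hT⟩ := hS
  have hnR : (1 : ℝ) ≤ n := by exact_mod_cast hn
  have hlog8 : 0 ≤ Real.log (8 * n) := Real.log_nonneg (by linarith)
  have hΛ16 : 16 * ℓ ≤ Λ := by nlinarith [mul_nonneg (by linarith : (0 : ℝ) ≤ n) hlog8]
  have hΛ0 : 0 < Λ := by linarith
  set ρ : ℝ := k / (2 * Λ) with hρ
  have hρ0 : 0 < ρ := by positivity
  have hΛρ : Λ * ρ = k / 2 := by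
    rw [hρ]
    field_simp
  have hρ16 : ρ ≤ 1 / 16 := by
    rw [hρ, div_le_iff₀ (by positivity)]
    linarith
  set α := μ.real A with hα
  set δ : ℝ := 1 / (8 * n) with hδ
  have hδ0 : 0 < δ := by positivity
  have hδ8 : δ ≤ 1 / 8 := by
    rw [hδ, div_le_div_iff₀ (by positivity) (by norm_num)]
    linarith
  have hiR : (i : ℝ) + 1 ≤ n := by exact_mod_cast hi
  have hiδ : (i : ℝ) / (8 * n) ≤ 1 / 8 - δ := by
    rw [hδ, div_le_iff₀ (by positivity)]
    have h1 : (1 / 8 - 1 / (8 * (n : ℝ))) * (8 * n) = n - 1 := by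
      field_simp
    rw [h1]
    linarith
  have hlog2 : Real.log 2 ≤ 1 := by
    have := Real.log_two_lt_d9
    linarith
  have hUα : Real.log (2 * μ.real U) ≤ Real.log α + (ℓ + 1) := by
    have hUpos : 0 < μ.real U := by
      have := hR.pos
      linarith
    have h1 : 2 * μ.real U ≤ 2 * (Real.exp ℓ * α) := by linarith
    have h2 := Real.log_le_log (by positivity) h1
    have h3 : Real.log (2 * (Real.exp ℓ * α)) = Real.log 2 + (ℓ + Real.log α) := by
      rw [Real.log_mul (by norm_num) (by positivity), Real.log_mul (by positivity) hposA.ne',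
        Real.log_exp]
    rw [h3] at h2
    linarith
  have hBlog : Real.log (μ.real B) ≤ Real.log α + (ℓ + 1) :=
    (Real.log_le_log hR.pos hBU).trans hUα
  have hnD : (i : ℝ) * Real.log (8 * n) ≤ n * Real.log (8 * n) :=
    mul_le_mul_of_nonneg_right (by linarith) hlog8
  -- the hypothesis on `U`
  have hUp : 2 * μ.real U ≤ Real.exp (Λ * (1 / 4 - c)) * p := by
    have hUpos : 0 < 2 * μ.real U := by
      have := hR.pos
      linarith
    have h1 : Real.log (2 * μ.real U) ≤ Λ * (1 / 4 - c) + Real.log p := by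
      have h2 : Λ * (1 / 4 - (i : ℝ) / (8 * n)) ≥ Λ * (1 / 8) := by
        apply mul_le_mul_of_nonneg_left _ hΛ0.le
        linarith
      have h3 : Λ * (1 / 4 - c) = Λ * (1 / 4 - (i : ℝ) / (8 * n)) - Λ * (c - i / (8 * n)) := by ring
      rw [h3]
      linarith
    have h2 := Real.exp_le_exp.mpr h1
    rw [Real.exp_log hUpos, Real.exp_add, Real.exp_log hp] at h2
    exact h2
  obtain ⟨B', W', T', r, hR', hB'eq, hcr, hr4, hexp, hB'U, hT', hD', hBW⟩ := step2 μ hR hU N hNη
    c p Λ ρ y δ hΛ0 hρ0 hρ16 hy hc0 hc hδ0 (by linarith) hp hpD hUp (by rw [hΛρ]; exact hN)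
  have hB'pos := hR'.pos
  -- the increment
  have hinc : Λ * (r - c) + Real.log p ≤ Real.log (μ.real B') := by
    have h1 := Real.log_le_log (by positivity) hexp
    rw [Real.log_mul (Real.exp_pos _).ne' hp.ne', Real.log_exp] at h1
    exact h1
  have hB'log : Real.log (μ.real B') ≤ Real.log α + (ℓ + 1) :=
    (Real.log_le_log hB'pos hB'U).trans hUα
  have hri : Λ * (r - i / (8 * n)) ≤ (Real.log (μ.real B) - Real.log α) +
      (Real.log (μ.real B') - Real.log α) + i * Real.log (8 * n) := by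
    have h1 : Λ * (r - i / (8 * n)) = Λ * (r - c) + Λ * (c - i / (8 * n)) := by ring
    rw [h1]
    linarith
  have hr8 : r ≤ 1 / 8 + i / (8 * n) := by
    have h1 : Λ * (r - i / (8 * n)) ≤ Λ * (1 / 8) := by linarith
    have h2 := le_of_mul_le_mul_left h1 hΛ0
    linarith
  refine ⟨B', W', T', B, r + δ, δ * μ.real B, ?_, Or.inr hBW, hR.mB, hR.pos, ?_, by linarith,
    by linarith, mul_pos hδ0 hR.pos, hD', hB'U, ?_, ?_⟩
  · have h1 : 2 * (Λ * ρ) = k := by
      rw [hΛρ]
      ring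
    rw [h1] at hR'
    exact hR'
  · intro x hx
    rw [hB'eq] at hx
    exact le_trans hx hr4
  · have h1 : ((i + 1 : ℕ) : ℝ) / (8 * n) = i / (8 * n) + δ := by
      rw [hδ]
      push_cast
      ring
    have h2 : Real.log (δ * μ.real B) = -Real.log (8 * n) + Real.log (μ.real B) := by
      rw [Real.log_mul hδ0.ne' hR.pos.ne', hδ, Real.log_div one_ne_zero (by positivity),
        Real.log_one, zero_sub]
    rw [h1, h2]
    have h3 : Λ * (r + δ - (i / (8 * n) + δ)) = Λ * (r - i / (8 * n)) := by ring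
    rw [h3]
    push_cast
    linarith
  · refine le_trans ?_ hT'
    have h5 : Real.exp (-2) ≤ 1 / 4 := by
      have h6 : Real.exp (-2) = Real.exp (-1) ^ 2 := by
        rw [← Real.exp_nat_mul]
        norm_num
      have h7 : Real.exp (-1) < 0.3678794412 := Real.exp_neg_one_lt_d9
      have h8 : 0 < Real.exp (-1) := Real.exp_pos _
      rw [h6]
      nlinarith
    have h6 : Real.exp (-(σ + κ * N + 2)) = Real.exp (-(κ * N)) * Real.exp (-2) * Real.exp (-σ) := by
      rw [← Real.exp_add, ← Real.exp_add]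
      congr 1
      ring
    rw [h6]
    calc Real.exp (-(κ * N)) * Real.exp (-2) * Real.exp (-σ) * α
        = Real.exp (-(κ * N)) * Real.exp (-2) * (Real.exp (-σ) * α) := by ring
      _ ≤ Real.exp (-(κ * N)) * (1 / 4) * μ.real T := by
          apply mul_le_mul _ hT (by positivity) (by positivity)
          exact mul_le_mul_of_nonneg_left h5 (Real.exp_pos _).le
      _ = Real.exp (-(κ * N)) / 4 * μ.real T := by ring

end Pool.Agent.Helper30.BX
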