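import Pool.Agent.Helper30.BX.Chernoff

/-!
# Most samples see the level sets correctly

`DD r = {x | vv x ≤ r}` are the level sets of the miss probability. If they grow at most
exponentially (rate `Λ`) from the level `r` on, then for at least half of the samples `b` the
empirical level set `{x | miss b x ≤ (r + ρ) N}` contains almost all of `DD r` and is almost
contained in `DD (r + 2 ρ)`.
-/

set_option autoImplicit false

open MeasureTheory Set

namespace Pool.Agent.Helper30.BX

variable {G : Type*} [AddCommGroup G] [MeasurableSpace G] [MeasurableAdd₂ G] [MeasurableNeg G]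

/-- The level sets of the miss probability. -/
def DD (μ : Measure G) (B U : Set G) (r : ℝ) : Set G := {x | vv μ B U x ≤ r}

theorem DD_mono (μ : Measure G) (B U : Set G) {r s : ℝ} (h : r ≤ s) :
    DD μ B U r ⊆ DD μ B U s := fun _ hx => le_trans hx h

theorem measurable_vv (μ : Measure G) [IsProbabilityMeasure μ] {B U : Set G}
    (hB : MeasurableSet B) (hU : MeasurableSet U) : Measurable (vv μ B U) := by
  have hadd : Measurable (fun p : G × G => p.1 + p.2) := measurable_fst.add measurable_snd
  have hS : MeasurableSet {p : G × G | p.2 ∈ B ∧ p.1 + p.2 ∉ U} :=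
    (measurable_snd hB).inter (hadd hU.compl)
  have h1 := measurable_measure_prodMk_left (ν := μ) hS
  have h2 : vv μ B U = fun x => (μ (Prod.mk x ⁻¹' {p : G × G | p.2 ∈ B ∧ p.1 + p.2 ∉ U})).toReal /
      μ.real B := by
    funext x
    rfl
  rw [h2]
  exact h1.ennreal_toReal.div_const _

theorem measurableSet_DD (μ : Measure G) [IsProbabilityMeasure μ] {B U : Set G}
    (hB : MeasurableSet B) (hU : MeasurableSet U) (r : ℝ) : MeasurableSet (DD μ B U r) :=
  measurableSet_le (measurable_vv μ hB hU) measurable_const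

theorem measurable_miss {U : Set G} (hU : MeasurableSet U) (N : ℕ) :
    Measurable (fun p : (Fin N → G) × G => miss U p.1 p.2) := by
  unfold miss
  apply Finset.measurable_sum
  intro j _
  have h1 : Measurable (fun p : (Fin N → G) × G => p.1 j) :=
    (measurable_pi_apply j).comp measurable_fst
  have h2 : Measurable (fun p : (Fin N → G) × G => p.2 + p.1 j) := measurable_snd.add h1
  have h3 : Measurable ((Uᶜ).indicator (fun _ => (1 : ℝ))) :=
    measurable_const.indicator hU.compl
  exact h3.comp h2

/-- The set of pairs (sample, misplaced point). -/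
def errS (μ : Measure G) (B U : Set G) (N : ℕ) (r ρ : ℝ) : Set ((Fin N → G) × G) :=
  {p | (∀ j, p.1 j ∈ B) ∧ ((p.2 ∈ DD μ B U r ∧ (r + ρ) * N < miss U p.1 p.2) ∨
    (p.2 ∉ DD μ B U (r + 2 * ρ) ∧ miss U p.1 p.2 ≤ (r + ρ) * N))}

theorem measurableSet_errS (μ : Measure G) [IsProbabilityMeasure μ] {B U : Set G}
    (hB : MeasurableSet B) (hU : MeasurableSet U) (N : ℕ) (r ρ : ℝ) :
    MeasurableSet (errS μ B U N r ρ) := by
  have h1 : MeasurableSet {p : (Fin N → G) × G | ∀ j, p.1 j ∈ B} := by
    have : {p : (Fin N → G) × G | ∀ j, p.1 j ∈ B} = Prod.fst ⁻¹' (univ.pi (fun _ => B)) := by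
      ext p
      simp
    rw [this]
    exact measurable_fst (MeasurableSet.univ_pi (fun _ => hB))
  have h2 : MeasurableSet {p : (Fin N → G) × G | (r + ρ) * N < miss U p.1 p.2} :=
    measurableSet_lt measurable_const (measurable_miss hU N)
  have h3 : MeasurableSet {p : (Fin N → G) × G | miss U p.1 p.2 ≤ (r + ρ) * N} :=
    measurableSet_le (measurable_miss hU N) measurable_const
  exact h1.inter (((measurable_snd (measurableSet_DD μ hB hU r)).inter h2).union
    ((measurable_snd (measurableSet_DD μ hB hU (r + 2 * ρ)).compl).inter h3))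

/-- The slice bound. -/
theorem slice_bound (μ : Measure G) [IsProbabilityMeasure μ] {B U : Set G}
    (hB : MeasurableSet B) (hU : MeasurableSet U) (hpos : 0 < μ.real B) (N J : ℕ) (r ρ : ℝ)
    (hρ0 : 0 < ρ) (hρ : ρ ≤ 2) (hJ : 1 ≤ r + (J + 2) * ρ) (x : G) :
    (Measure.pi (fun _ : Fin N => μ)).real {b | (b, x) ∈ errS μ B U N r ρ} ≤
      (μ.real B) ^ N * ((DD μ B U r).indicator (fun _ => Real.exp (-(N * ρ ^ 2 / 4))) x +
        ∑ j ∈ Finset.range J, (DD μ B U (r + (j + 3) * ρ)).indicator
          (fun _ => Real.exp (-((2 * j + 1) * (N * ρ ^ 2 / 4)))) x) := by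
  classical
  have hBN : 0 ≤ (μ.real B) ^ N := pow_nonneg measureReal_nonneg _
  have hsum0 : 0 ≤ ∑ j ∈ Finset.range J, (DD μ B U (r + (j + 3) * ρ)).indicator
          (fun _ => Real.exp (-((2 * j + 1) * (N * ρ ^ 2 / 4)))) x :=
    Finset.sum_nonneg (fun j _ => indicator_nonneg (fun _ _ => (Real.exp_pos _).le) x)
  have hind0 : 0 ≤ (DD μ B U r).indicator (fun _ => Real.exp (-(N * ρ ^ 2 / 4))) x :=
    indicator_nonneg (fun _ _ => (Real.exp_pos _).le) x
  by_cases h0 : x ∈ DD μ B U r
  · have h2 : x ∈ DD μ B U (r + 2 * ρ) := DD_mono μ B U (by linarith) h0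
    have h3 : (Measure.pi (fun _ : Fin N => μ)).real {b | (b, x) ∈ errS μ B U N r ρ} ≤
        (Measure.pi (fun _ : Fin N => μ)).real
          {b | (∀ j, b j ∈ B) ∧ (r + ρ) * N < miss U b x} := by
      refine measureReal_mono ?_ (measure_ne_top _ _)
      rintro b ⟨hb, h | h⟩
      · exact ⟨hb, h.2⟩
      · exact absurd h2 h.1
    refine (h3.trans (upper_tail μ hB hU hpos N r ρ hρ0.le hρ x h0)).trans ?_
    apply mul_le_mul_of_nonneg_left _ hBN
    rw [indicator_of_mem h0]
    linarith
  · by_cases h2 : x ∈ DD μ B U (r + 2 * ρ)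
    · have h3 : {b : Fin N → G | (b, x) ∈ errS μ B U N r ρ} = ∅ := by
        ext b
        constructor
        · rintro ⟨hb, h | h⟩
          · exact absurd h.1 h0
          · exact absurd h2 h.1
        · intro h
          exact absurd h (notMem_empty _)
      rw [h3, measureReal_empty]
      exact mul_nonneg hBN (add_nonneg hind0 hsum0)
    · -- the shell of `x`
      have hv1 := vv_le_one μ B U x
      have hex : ∃ j : ℕ, vv μ B U x ≤ r + (j + 3) * ρ := by
        refine ⟨J, ?_⟩
        nlinarith
      have hJex : vv μ B U x ≤ r + ((Nat.find hex : ℕ) + 3) * ρ := Nat.find_spec hex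
      set k := Nat.find hex with hk
      have hk2 : r + (k + 2) * ρ < vv μ B U x := by
        by_cases hk0 : k = 0
        · rw [hk0]
          have h4 : ¬ vv μ B U x ≤ r + 2 * ρ := h2
          push Not at h4
          simpa using h4
        · have h4 := Nat.find_min hex (m := k - 1) (by rw [← hk]; omega)
          push Not at h4
          have h5 : ((k - 1 : ℕ) : ℝ) = (k : ℝ) - 1 := by
            rw [Nat.cast_sub (by omega)]
            simp
          rw [h5] at h4
          calc r + (k + 2) * ρ = r + ((k : ℝ) - 1 + 3) * ρ := by ring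
            _ < _ := h4
      have hkJ : k < J := by
        by_contra hcon
        push Not at hcon
        have h4 : (J : ℝ) ≤ k := by exact_mod_cast hcon
        have h5 : r + (J + 2) * ρ ≤ r + (k + 2) * ρ := by nlinarith
        linarith
      have h3 : (Measure.pi (fun _ : Fin N => μ)).real {b | (b, x) ∈ errS μ B U N r ρ} ≤
          (Measure.pi (fun _ : Fin N => μ)).real
            {b | (∀ j, b j ∈ B) ∧ miss U b x ≤ (r + ρ) * N} := by
        refine measureReal_mono ?_ (measure_ne_top _ _)
        rintro b ⟨hb, h | h⟩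
        · exact absurd h.1 h0
        · exact ⟨hb, h.2⟩
      have h4 := lower_tail μ hB hU hpos N (r + ρ) ((k + 1) * ρ) ρ hρ0.le hρ x
        (by nlinarith)
      refine (h3.trans h4).trans ?_
      apply mul_le_mul_of_nonneg_left _ hBN
      have h5 : Real.exp (-(N * (ρ / 2) * ((k + 1) * ρ - ρ / 2))) =
          (DD μ B U (r + (k + 3) * ρ)).indicator
            (fun _ => Real.exp (-((2 * k + 1) * (N * ρ ^ 2 / 4)))) x := by
        rw [indicator_of_mem (show x ∈ DD μ B U (r + (k + 3) * ρ) from hJex)]
        congr 1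
        ring
      rw [h5]
      have h6 := Finset.single_le_sum (f := fun j : ℕ => (DD μ B U (r + (j + 3) * ρ)).indicator
          (fun _ => Real.exp (-((2 * j + 1) * (N * ρ ^ 2 / 4)))) x)
        (fun j _ => indicator_nonneg (fun _ _ => (Real.exp_pos _).le) x)
        (Finset.mem_range.mpr hkJ)
      linarith

end Pool.Agent.Helper30.BX
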