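import Pool.Agent.Helper30.BX.Good

/-!
# One step: from the sampling set `B` to the level set `B'`
-/

set_option autoImplicit false

open MeasureTheory Set

namespace Pool.Agent.Helper30.BX

variable {G : Type*} [AddCommGroup G] [MeasurableSpace G] [MeasurableAdd₂ G] [MeasurableNeg G]

/-- The choice of the level. -/
theorem exists_level (f : ℕ → ℝ) (hf1 : ∀ i, f i ≤ 1) (τ p L : ℝ) (hτ : 0 < τ)
    (hp : 0 < p) (hp0 : p ≤ f 0) (hL : Real.exp (-L) ≤ p) :
    ∃ i : ℕ, τ * i ≤ L ∧ p ≤ f i ∧ ∀ j : ℕ, f (i + j) ≤ Real.exp (τ * j) * f i := by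
  classical
  obtain ⟨I, hI⟩ : ∃ I : ℕ, Real.exp (-(τ * I)) < p := by
    obtain ⟨I, hI⟩ := exists_nat_gt (L / τ)
    refine ⟨I, lt_of_lt_of_le ?_ hL⟩
    apply Real.exp_lt_exp.mpr
    rw [div_lt_iff₀ hτ] at hI
    linarith
  obtain ⟨i, hi, hmax⟩ := Finset.exists_max_image (Finset.range (I + 1))
    (fun i : ℕ => Real.exp (-(τ * i)) * f i) ⟨0, Finset.mem_range.mpr (Nat.succ_pos I)⟩
  have h0 : p ≤ Real.exp (-(τ * i)) * f i := by
    have h1 := hmax 0 (Finset.mem_range.mpr (Nat.succ_pos I))
    simp only [Nat.cast_zero, mul_zero, neg_zero, Real.exp_zero, one_mul] at h1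
    linarith
  have hall : ∀ k : ℕ, Real.exp (-(τ * k)) * f k ≤ Real.exp (-(τ * i)) * f i := by
    intro k
    by_cases hk : k < I + 1
    · exact hmax k (Finset.mem_range.mpr hk)
    · push Not at hk
      have hk2 : (I : ℝ) ≤ k := by exact_mod_cast (by omega : I ≤ k)
      calc Real.exp (-(τ * k)) * f k ≤ Real.exp (-(τ * k)) * 1 :=
            mul_le_mul_of_nonneg_left (hf1 k) (Real.exp_pos _).le
        _ ≤ Real.exp (-(τ * I)) := by
            rw [mul_one]
            apply Real.exp_le_exp.mpr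
            nlinarith
        _ ≤ p := hI.le
        _ ≤ _ := h0
  have hfi : 0 < f i := by
    by_contra hcon
    push Not at hcon
    have h1 : Real.exp (-(τ * i)) * f i ≤ 0 :=
      mul_nonpos_of_nonneg_of_nonpos (Real.exp_pos _).le hcon
    linarith
  refine ⟨i, ?_, ?_, ?_⟩
  · have h1 : Real.exp (-L) ≤ Real.exp (-(τ * i)) := by
      calc Real.exp (-L) ≤ p := hL
        _ ≤ Real.exp (-(τ * i)) * f i := h0
        _ ≤ Real.exp (-(τ * i)) * 1 := mul_le_mul_of_nonneg_left (hf1 i) (Real.exp_pos _).le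
        _ = _ := mul_one _
    have h2 := Real.exp_le_exp.mp h1
    linarith
  · refine h0.trans ?_
    have h1 : Real.exp (-(τ * i)) ≤ 1 := by
      apply Real.exp_le_one_iff.mpr
      have : 0 ≤ τ * (i : ℝ) := mul_nonneg hτ.le (Nat.cast_nonneg i)
      linarith
    calc Real.exp (-(τ * i)) * f i ≤ 1 * f i := mul_le_mul_of_nonneg_right h1 hfi.le
      _ = f i := one_mul _
  · intro j
    have h1 := hall (i + j)
    have h2 : Real.exp (τ * ((i + j : ℕ) : ℝ)) * (Real.exp (-(τ * ((i + j : ℕ) : ℝ))) * f (i + j)) ≤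
        Real.exp (τ * ((i + j : ℕ) : ℝ)) * (Real.exp (-(τ * i)) * f i) :=
      mul_le_mul_of_nonneg_left h1 (Real.exp_pos _).le
    rw [← mul_assoc, ← mul_assoc, ← Real.exp_add, ← Real.exp_add, add_neg_cancel, Real.exp_zero,
      one_mul] at h2
    have h3 : τ * ((i + j : ℕ) : ℝ) + -(τ * i) = τ * j := by
      push_cast
      ring
    rw [h3] at h2
    exact h2

/-- Exchanging the two averages. -/
theorem exchange (μ : Measure G) [IsProbabilityMeasure μ] {B B' U : Set G}
    (hB : MeasurableSet B) (hB' : MeasurableSet B') (hU : MeasurableSet U)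
    (hpos : 0 < μ.real B) (hpos' : 0 < μ.real B') (r c : ℝ) (hr : ∀ x ∈ B', vv μ B U x ≤ r)
    (hc : 0 < c) (hrc : 2 * r ≤ c) :
    μ.real B / 2 ≤ μ.real (DD μ B' U c) := by
  classical
  have hadd : Measurable (fun p : G × G => p.1 + p.2) := measurable_fst.add measurable_snd
  set S : Set (G × G) := {p | p.1 ∈ B ∧ p.2 ∈ B' ∧ p.1 + p.2 ∉ U} with hS
  have hSm : MeasurableSet S :=
    (measurable_fst hB).inter ((measurable_snd hB').inter (hadd hU.compl))
  -- upper bound
  have h1 : (μ.prod μ) S ≤ ENNReal.ofReal (r * μ.real B) * μ B' := by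
    rw [Measure.prod_apply_symm hSm]
    calc ∫⁻ x, μ ((fun b => (b, x)) ⁻¹' S) ∂μ
        = ∫⁻ x in B', μ ((fun b => (b, x)) ⁻¹' S) ∂μ := by
          rw [← lintegral_indicator hB']
          congr 1
          funext x
          by_cases hx : x ∈ B'
          · rw [indicator_of_mem hx]
          · rw [indicator_of_notMem hx]
            have : (fun b => (b, x)) ⁻¹' S = ∅ := by
              ext b
              constructor
              · intro h
                exact absurd h.2.1 hx
              · intro h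
                exact absurd h (notMem_empty _)
            rw [this, measure_empty]
      _ ≤ ∫⁻ _x in B', ENNReal.ofReal (r * μ.real B) ∂μ := by
          apply setLIntegral_mono' hB'
          intro x hx
          have h2 := hr x hx
          unfold vv at h2
          rw [div_le_iff₀ hpos] at h2
          have h3 : (fun b => (b, x)) ⁻¹' S ⊆ {b | b ∈ B ∧ x + b ∉ U} := by
            rintro b ⟨hb, -, hbx⟩
            refine ⟨hb, ?_⟩
            rw [add_comm]
            exact hbx
          refine (measure_mono h3).trans ?_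
          rw [measureReal_def] at h2
          exact (ENNReal.le_ofReal_iff_toReal_le (measure_ne_top _ _)
            (le_trans ENNReal.toReal_nonneg h2)).mpr h2
      _ = _ := by rw [setLIntegral_const]
  have hr0 : 0 ≤ r * μ.real B := by
    have hne : B'.Nonempty := by
      rw [nonempty_iff_ne_empty]
      rintro rfl
      simp at hpos'
    obtain ⟨x, hx⟩ := hne
    exact mul_nonneg ((vv_nonneg μ B U x).trans (hr x hx)) hpos.le
  have h1r : (μ.prod μ).real S ≤ r * μ.real B * μ.real B' := by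
    have := ENNReal.toReal_mono (ENNReal.mul_ne_top ENNReal.ofReal_ne_top (measure_ne_top _ _)) h1
    rw [ENNReal.toReal_mul, ENNReal.toReal_ofReal hr0] at this
    exact this
  -- Markov
  have hf : Measurable (fun b : G => μ (Prod.mk b ⁻¹' S)) := measurable_measure_prodMk_left hSm
  have h2 := mul_meas_ge_le_lintegral (μ := μ) hf (ENNReal.ofReal (c * μ.real B'))
  rw [← Measure.prod_apply hSm] at h2
  have hcB : 0 < c * μ.real B' := mul_pos hc hpos'
  have h3 := ENNReal.toReal_mono (measure_ne_top _ _) h2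
  rw [ENNReal.toReal_mul, ENNReal.toReal_ofReal hcB.le] at h3
  have h4 : c * μ.real B' * μ.real {b | ENNReal.ofReal (c * μ.real B') ≤ μ (Prod.mk b ⁻¹' S)} ≤
      c * μ.real B' * (μ.real B / 2) := by
    calc _ ≤ (μ.prod μ).real S := h3
      _ ≤ r * μ.real B * μ.real B' := h1r
      _ ≤ (c / 2) * μ.real B * μ.real B' := by
          apply mul_le_mul_of_nonneg_right _ hpos'.le
          apply mul_le_mul_of_nonneg_right _ hpos.le
          linarith
      _ = c * μ.real B' * (μ.real B / 2) := by ring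
  have h5 := le_of_mul_le_mul_left h4 hcB
  have h6 : B ⊆ DD μ B' U c ∪
      {b | ENNReal.ofReal (c * μ.real B') ≤ μ (Prod.mk b ⁻¹' S)} := by
    intro b hb
    by_cases hbD : b ∈ DD μ B' U c
    · exact Or.inl hbD
    · right
      change ENNReal.ofReal (c * μ.real B') ≤ μ (Prod.mk b ⁻¹' S)
      have h7 : ¬ vv μ B' U b ≤ c := hbD
      push Not at h7
      unfold vv at h7
      rw [lt_div_iff₀ hpos'] at h7
      have h8 : Prod.mk b ⁻¹' S = {x | x ∈ B' ∧ b + x ∉ U} := by
        ext x
        constructor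
        · rintro ⟨-, h, h'⟩
          exact ⟨h, h'⟩
        · rintro ⟨h, h'⟩
          exact ⟨hb, h, h'⟩
      rw [h8]
      rw [measureReal_def μ {x | x ∈ B' ∧ b + x ∉ U}] at h7
      exact (ENNReal.ofReal_le_iff_le_toReal (measure_ne_top _ _)).mpr h7.le
  have h7 := (measureReal_mono h6 (measure_ne_top μ _)).trans (measureReal_union_le _ _)
  linarith

/-- The step lemma. -/
theorem step (μ : Measure G) [IsProbabilityMeasure μ] [μ.IsAddLeftInvariant]
    {B W T U : Set G} {κ η : ℝ} (hR : Rel μ B W T κ η) (hU : MeasurableSet U) (N : ℕ)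
    (hN1 : N * η ≤ 1 / 4) (c p L Λ ρ y : ℝ) (hΛ : 0 < Λ) (hρ0 : 0 < ρ) (hρ : ρ ≤ 2)
    (hy : 1 ≤ y) (hc : 0 ≤ c) (hL0 : 0 < L) (hp : 0 < p) (hpD : p ≤ μ.real (DD μ B U c))
    (hL : Real.exp (-L) ≤ p) (hN : 3 * (Λ * ρ) + y ≤ N * ρ ^ 2 / 4) :
    ∃ (B' W' T' : Set G) (r : ℝ), Rel μ B' W' T' (2 * (Λ * ρ)) (12 * Real.exp (-y)) ∧
      B' = DD μ B U r ∧ r ≤ c + L / Λ ∧ p ≤ μ.real B' ∧
      Real.exp (-(κ * N)) / 4 * μ.real T ≤ μ.real T' ∧
      μ.real B / 2 ≤ μ.real (DD μ B' U (2 * (c + L / Λ))) ∧ B' ⊆ W' := by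
  classical
  have hD : ∀ s, MeasurableSet (DD μ B U s) := measurableSet_DD μ hR.mB hU
  obtain ⟨i, hi1, hi2, hi3⟩ := exists_level (fun i : ℕ => μ.real (DD μ B U (c + i * ρ)))
    (fun i => measureReal_le_one) (Λ * ρ) p L (mul_pos hΛ hρ0) hp (by simpa using hpD) hL
  set r : ℝ := c + i * ρ with hr
  have hrL : r ≤ c + L / Λ := by
    rw [hr]
    have : (i : ℝ) * ρ ≤ L / Λ := by
      rw [le_div_iff₀ hΛ]
      linarith
    linarith
  have hgrow : ∀ j : ℕ, μ.real (DD μ B U (r + j * ρ)) ≤
      Real.exp (Λ * ρ * j) * μ.real (DD μ B U r) := by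
    intro j
    have h1 := hi3 j
    have h2 : c + ((i + j : ℕ) : ℝ) * ρ = r + j * ρ := by
      rw [hr]
      push_cast
      ring
    simp only [h2] at h1
    exact h1
  have hpos' : 0 < μ.real (DD μ B U r) := lt_of_lt_of_le hp hi2
  obtain ⟨Good, hGm, hGB, hGhalf, hGerr⟩ := exists_good μ hR.mB hU hR.pos N Λ r ρ y hΛ.le hρ0 hρ
    hy hpos' hgrow hN
  obtain ⟨z, hz⟩ := pigeon μ hR N hN1 Good hGm hGB hGhalf
  set Tz : Set G := {t | t ∈ T ∧ (fun j => z j - t) ∈ Good} with hTz
  have hex : μ.real B / 2 ≤ μ.real (DD μ (DD μ B U r) U (2 * (c + L / Λ))) := by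
    apply exchange μ hR.mB (hD r) hU hR.pos hpos' r (2 * (c + L / Λ)) (fun x hx => hx)
    · have : 0 < L / Λ := div_pos hL0 hΛ
      linarith
    · linarith
  have hW'growth : μ.real (DD μ B U (r + 2 * ρ)) ≤
      Real.exp (2 * (Λ * ρ)) * μ.real (DD μ B U r) := by
    have h1 := hgrow 2
    have h2 : ((2 : ℕ) : ℝ) = 2 := by norm_num
    rw [h2] at h1
    calc _ ≤ _ := h1
      _ = _ := by
        congr 2
        ring
  have hsub : DD μ B U r ⊆ DD μ B U (r + 2 * ρ) := DD_mono μ B U (by linarith)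
  -- measurability of `Tz`
  have hTzm : MeasurableSet Tz := by
    apply hR.mT.inter
    have h1 : Measurable (fun t : G => (fun j => z j - t : Fin N → G)) := by
      apply measurable_pi_lambda
      intro j
      simp only [sub_eq_add_neg]
      exact measurable_const.add measurable_neg
    exact h1 hGm
  rcases Tz.eq_empty_or_nonempty with hemp | ⟨t₀, ht₀⟩
  · refine ⟨DD μ B U r, DD μ B U (r + 2 * ρ), ∅, r, ⟨hD _, hD _, MeasurableSet.empty, hpos',
      hW'growth, fun t ht => absurd ht (notMem_empty _)⟩, rfl, hrL, hi2, ?_, hex, hsub⟩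
    rw [hemp] at hz
    exact hz
  · refine ⟨DD μ B U r, DD μ B U (r + 2 * ρ), {s | t₀ + s ∈ Tz}, r, ⟨hD _, hD _, ?_, hpos',
      hW'growth, ?_⟩, rfl, hrL, hi2, ?_, hex, hsub⟩
    · have h1 : Measurable (fun s : G => t₀ + s) := measurable_const.add measurable_id
      exact h1 hTzm
    · intro s hs
      set a : Fin N → G := fun j => z j - t₀ with ha
      set a' : Fin N → G := fun j => z j - (t₀ + s) with ha'
      have hag : a ∈ Good := ht₀.2
      have hag' : a' ∈ Good := hs.2
      have hmiss : ∀ x, miss U a' (x + s) = miss U a x := by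
        intro x
        unfold miss
        apply Finset.sum_congr rfl
        intro j _
        congr 1
        rw [ha, ha']
        simp only
        abel
      have h1 : {b | b ∈ DD μ B U r ∧ b + s ∉ DD μ B U (r + 2 * ρ)} ⊆
          {x | (a, x) ∈ errS μ B U N r ρ} ∪
          ((fun x => s + x) ⁻¹' {x | (a', x) ∈ errS μ B U N r ρ}) := by
        rintro x ⟨hx, hxs⟩
        by_cases hm : (r + ρ) * N < miss U a x
        · left
          exact ⟨hGB a hag, Or.inl ⟨hx, hm⟩⟩
        · right
          push Not at hm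
          refine ⟨hGB a' hag', Or.inr ⟨?_, ?_⟩⟩
          · change s + x ∉ DD μ B U (r + 2 * ρ)
            rw [add_comm s x]
            exact hxs
          · change miss U a' (s + x) ≤ (r + ρ) * N
            rw [add_comm s x, hmiss]
            exact hm
      have h2 := (measureReal_mono h1 (measure_ne_top μ _)).trans (measureReal_union_le _ _)
      have h3 : μ.real ((fun x => s + x) ⁻¹' {x | (a', x) ∈ errS μ B U N r ρ}) =
          μ.real {x | (a', x) ∈ errS μ B U N r ρ} := by
        rw [measureReal_def, measureReal_def, measure_preimage_add]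
      have h4 := hGerr a hag
      have h5 := hGerr a' hag'
      rw [h3] at h2
      linarith
    · have h1 : μ.real {s | t₀ + s ∈ Tz} = μ.real Tz := by
        rw [measureReal_def, measureReal_def]
        congr 1
        exact measure_preimage_add μ t₀ Tz
      rw [h1]
      exact hz

end Pool.Agent.Helper30.BX
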