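import Pool.Agent.Helper30.BX.Good2

/-!
# One step, version for small doubling
-/

set_option autoImplicit false

open MeasureTheory Set

namespace Pool.Agent.Helper30.BX

variable {G : Type*} [AddCommGroup G] [MeasurableSpace G] [MeasurableAdd₂ G] [MeasurableNeg G]

/-- The choice of the level among the levels with index at most `I`. -/
theorem exists_level2 (f : ℕ → ℝ) (I : ℕ) (τ p : ℝ) (hp0 : p ≤ f 0) :
    ∃ i : ℕ, i ≤ I ∧ Real.exp (τ * i) * p ≤ f i ∧
      ∀ j : ℕ, i + j ≤ I → f (i + j) ≤ Real.exp (τ * j) * f i := by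
  classical
  obtain ⟨i, hi, hmax⟩ := Finset.exists_max_image (Finset.range (I + 1))
    (fun i : ℕ => Real.exp (-(τ * i)) * f i) ⟨0, Finset.mem_range.mpr (Nat.succ_pos I)⟩
  have hiI : i ≤ I := by
    have := Finset.mem_range.mp hi
    omega
  have h0 : p ≤ Real.exp (-(τ * i)) * f i := by
    have h1 := hmax 0 (Finset.mem_range.mpr (Nat.succ_pos I))
    simp only [Nat.cast_zero, mul_zero, neg_zero, Real.exp_zero, one_mul] at h1
    linarith
  refine ⟨i, hiI, ?_, ?_⟩
  · have h2 := mul_le_mul_of_nonneg_left h0 (Real.exp_pos (τ * i)).le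
    rw [← mul_assoc, ← Real.exp_add, add_neg_cancel, Real.exp_zero, one_mul] at h2
    exact h2
  · intro j hj
    have h1 := hmax (i + j) (Finset.mem_range.mpr (by omega))
    have h2 : Real.exp (τ * ((i + j : ℕ) : ℝ)) * (Real.exp (-(τ * ((i + j : ℕ) : ℝ))) * f (i + j)) ≤
        Real.exp (τ * ((i + j : ℕ) : ℝ)) * (Real.exp (-(τ * i)) * f i) :=
      mul_le_mul_of_nonneg_left h1 (Real.exp_pos _).le
    rw [← mul_assoc, ← mul_assoc, ← Real.exp_add, ← Real.exp_add, add_neg_cancel, Real.exp_zero,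
      one_mul] at h2
    have h3 : τ * ((i + j : ℕ) : ℝ) + -(τ * i) = τ * j := by
      push_cast
      ring
    rw [h3] at h2
    exact h2

/-- Exchanging the two averages, additive form. -/
theorem exchange2 (μ : Measure G) [IsProbabilityMeasure μ] {B B' U : Set G}
    (hB : MeasurableSet B) (hB' : MeasurableSet B') (hU : MeasurableSet U)
    (hpos : 0 < μ.real B) (hpos' : 0 < μ.real B') (r δ : ℝ) (hr : ∀ x ∈ B', vv μ B U x ≤ r)
    (hδ : 0 < δ) (hrδ : r + δ ≤ 1) :
    δ * μ.real B ≤ μ.real (DD μ B' U (r + δ)) := by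
  classical
  have hadd : Measurable (fun p : G × G => p.1 + p.2) := measurable_fst.add measurable_snd
  set S : Set (G × G) := {p | p.1 ∈ B ∧ p.2 ∈ B' ∧ p.1 + p.2 ∉ U} with hS
  have hSm : MeasurableSet S :=
    (measurable_fst hB).inter ((measurable_snd hB').inter (hadd hU.compl))
  have hne : B'.Nonempty := by
    rw [nonempty_iff_ne_empty]
    rintro rfl
    simp at hpos'
  have hr0' : 0 ≤ r := by
    obtain ⟨x, hx⟩ := hne
    exact (vv_nonneg μ B U x).trans (hr x hx)
  have hr0 : 0 ≤ r * μ.real B := mul_nonneg hr0' hpos.le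
  -- upper bound
  have h1 : (μ.prod μ) S ≤ ENNReal.ofReal (r * μ.real B) * μ B' := by
    rw [Measure.prod_apply_symm hSm]
    calc ∫⁻ x, μ ((fun b => (b, x)) ⁻¹' S) ∂μ
        = ∫⁻ x in B', μ ((fun b => (b, x)) ⁻¹' S) ∂μ := by
          rw [← lintegral_indicator hB']
          congr 1
          funext x
          by_cases hx : x ∈ B'
          · rw [indicator_of_mem hx]
          · rw [indicator_of_notMem hx]
            have : (fun b => (b, x)) ⁻¹' S = ∅ := by
              ext b
              constructor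
              · intro h
                exact absurd h.2.1 hx
              · intro h
                exact absurd h (notMem_empty _)
            rw [this, measure_empty]
      _ ≤ ∫⁻ _x in B', ENNReal.ofReal (r * μ.real B) ∂μ := by
          apply setLIntegral_mono' hB'
          intro x hx
          have h2 := hr x hx
          unfold vv at h2
          rw [div_le_iff₀ hpos] at h2
          have h3 : (fun b => (b, x)) ⁻¹' S ⊆ {b | b ∈ B ∧ x + b ∉ U} := by
            rintro b ⟨hb, -, hbx⟩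
            refine ⟨hb, ?_⟩
            rw [add_comm]
            exact hbx
          refine (measure_mono h3).trans ?_
          rw [measureReal_def] at h2
          exact (ENNReal.le_ofReal_iff_toReal_le (measure_ne_top _ _)
            (le_trans ENNReal.toReal_nonneg h2)).mpr h2
      _ = _ := by rw [setLIntegral_const]
  have h1r : (μ.prod μ).real S ≤ r * μ.real B * μ.real B' := by
    have := ENNReal.toReal_mono (ENNReal.mul_ne_top ENNReal.ofReal_ne_top (measure_ne_top _ _)) h1
    rw [ENNReal.toReal_mul, ENNReal.toReal_ofReal hr0] at this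
    exact this
  -- Markov
  have hf : Measurable (fun b : G => μ (Prod.mk b ⁻¹' S)) := measurable_measure_prodMk_left hSm
  have h2 := mul_meas_ge_le_lintegral (μ := μ) hf (ENNReal.ofReal ((r + δ) * μ.real B'))
  rw [← Measure.prod_apply hSm] at h2
  have hc : 0 < r + δ := by linarith
  have hcB : 0 < (r + δ) * μ.real B' := mul_pos hc hpos'
  have h3 := ENNReal.toReal_mono (measure_ne_top _ _) h2
  rw [ENNReal.toReal_mul, ENNReal.toReal_ofReal hcB.le] at h3
  have h4 : (r + δ) * μ.real B' *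
      μ.real {b | ENNReal.ofReal ((r + δ) * μ.real B') ≤ μ (Prod.mk b ⁻¹' S)} ≤
      (r + δ) * μ.real B' * ((1 - δ) * μ.real B) := by
    calc _ ≤ (μ.prod μ).real S := h3
      _ ≤ r * μ.real B * μ.real B' := h1r
      _ ≤ ((r + δ) * (1 - δ)) * μ.real B * μ.real B' := by
          apply mul_le_mul_of_nonneg_right _ hpos'.le
          apply mul_le_mul_of_nonneg_right _ hpos.le
          nlinarith
      _ = (r + δ) * μ.real B' * ((1 - δ) * μ.real B) := by ring
  have h5 := le_of_mul_le_mul_left h4 hcB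
  have h6 : B ⊆ DD μ B' U (r + δ) ∪
      {b | ENNReal.ofReal ((r + δ) * μ.real B') ≤ μ (Prod.mk b ⁻¹' S)} := by
    intro b hb
    by_cases hbD : b ∈ DD μ B' U (r + δ)
    · exact Or.inl hbD
    · right
      change ENNReal.ofReal ((r + δ) * μ.real B') ≤ μ (Prod.mk b ⁻¹' S)
      have h7 : ¬ vv μ B' U b ≤ r + δ := hbD
      push Not at h7
      unfold vv at h7
      rw [lt_div_iff₀ hpos'] at h7
      have h8 : Prod.mk b ⁻¹' S = {x | x ∈ B' ∧ b + x ∉ U} := by
        ext x
        constructor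
        · rintro ⟨-, h, h'⟩
          exact ⟨h, h'⟩
        · rintro ⟨h, h'⟩
          exact ⟨hb, h, h'⟩
      rw [h8]
      rw [measureReal_def μ {x | x ∈ B' ∧ b + x ∉ U}] at h7
      exact (ENNReal.ofReal_le_iff_le_toReal (measure_ne_top _ _)).mpr h7.le
  have h7 := (measureReal_mono h6 (measure_ne_top μ _)).trans (measureReal_union_le _ _)
  linarith

/-- The step lemma. -/
theorem step2 (μ : Measure G) [IsProbabilityMeasure μ] [μ.IsAddLeftInvariant]
    {B W T U : Set G} {κ η : ℝ} (hR : Rel μ B W T κ η) (hU : MeasurableSet U) (N : ℕ)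
    (hN1 : N * η ≤ 1 / 4) (c p Λ ρ y δ : ℝ) (hΛ : 0 < Λ) (hρ0 : 0 < ρ) (hρ : ρ ≤ 1 / 16)
    (hy : 1 ≤ y) (hc0 : 0 ≤ c) (hc : c ≤ 1 / 4) (hδ0 : 0 < δ) (hδ : δ ≤ 3 / 4) (hp : 0 < p)
    (hpD : p ≤ μ.real (DD μ B U c)) (hUp : 2 * μ.real U ≤ Real.exp (Λ * (1 / 4 - c)) * p)
    (hN : 3 * (Λ * ρ) + y ≤ N * ρ ^ 2 / 4) :
    ∃ (B' W' T' : Set G) (r : ℝ), Rel μ B' W' T' (2 * (Λ * ρ)) (20 * Real.exp (-y)) ∧
      B' = DD μ B U r ∧ c ≤ r ∧ r ≤ 1 / 4 ∧ Real.exp (Λ * (r - c)) * p ≤ μ.real B' ∧
      μ.real B' ≤ 2 * μ.real U ∧ Real.exp (-(κ * N)) / 4 * μ.real T ≤ μ.real T' ∧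
      δ * μ.real B ≤ μ.real (DD μ B' U (r + δ)) ∧ B' ⊆ W' := by
  classical
  have hD : ∀ s, MeasurableSet (DD μ B U s) := measurableSet_DD μ hR.mB hU
  set I : ℕ := ⌊(1 / 2 - c) / ρ⌋₊ with hI
  have hIle : c + I * ρ ≤ 1 / 2 := by
    have h1 : (I : ℝ) ≤ (1 / 2 - c) / ρ := Nat.floor_le (div_nonneg (by linarith) hρ0.le)
    rw [le_div_iff₀ hρ0] at h1
    linarith
  obtain ⟨i, hi1, hi2, hi3⟩ := exists_level2 (fun i : ℕ => μ.real (DD μ B U (c + i * ρ))) I
    (Λ * ρ) p (by simpa using hpD)
  set r : ℝ := c + i * ρ with hr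
  have hcr : c ≤ r := by
    rw [hr]
    have : 0 ≤ (i : ℝ) * ρ := mul_nonneg (Nat.cast_nonneg _) hρ0.le
    linarith
  have hr2 : r ≤ 1 / 2 := by
    rw [hr]
    have h1 : (i : ℝ) ≤ I := by exact_mod_cast hi1
    nlinarith
  have hexp : Real.exp (Λ * (r - c)) * p ≤ μ.real (DD μ B U r) := by
    have h1 : Λ * (r - c) = Λ * ρ * i := by
      rw [hr]
      ring
    rw [h1]
    exact hi2
  have hDU : μ.real (DD μ B U r) ≤ 2 * μ.real U := DD_le μ hR.mB hU hR.pos hr2
  have hr4 : r ≤ 1 / 4 := by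
    have h1 : Real.exp (Λ * (r - c)) * p ≤ Real.exp (Λ * (1 / 4 - c)) * p :=
      hexp.trans (hDU.trans hUp)
    have h2 := Real.exp_le_exp.mp (le_of_mul_le_mul_right h1 hp)
    have h3 := le_of_mul_le_mul_left h2 hΛ
    linarith
  have hpr : p ≤ μ.real (DD μ B U r) := by
    refine le_trans ?_ hexp
    have h1 : 1 ≤ Real.exp (Λ * (r - c)) := Real.one_le_exp (mul_nonneg hΛ.le (by linarith))
    nlinarith
  have hgrow : ∀ j : ℕ, r + j * ρ ≤ 1 / 2 → μ.real (DD μ B U (r + j * ρ)) ≤
      Real.exp (Λ * ρ * j) * μ.real (DD μ B U r) := by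
    intro j hj
    have h2 : c + ((i + j : ℕ) : ℝ) * ρ = r + j * ρ := by
      rw [hr]
      push_cast
      ring
    have hij : i + j ≤ I := by
      rw [hI]
      apply Nat.le_floor
      rw [le_div_iff₀ hρ0]
      linarith
    have h1 := hi3 j hij
    simp only [h2] at h1
    exact h1
  have hpos' : 0 < μ.real (DD μ B U r) := lt_of_lt_of_le hp hpr
  have hfar : μ.real U ≤ Real.exp (Λ / 2) * μ.real (DD μ B U r) := by
    have h1 : Real.exp (Λ * (1 / 4 - c)) ≤ Real.exp (Λ / 2) := by
      apply Real.exp_le_exp.mpr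
      nlinarith
    have h2 : Real.exp (Λ * (1 / 4 - c)) * p ≤ Real.exp (Λ / 2) * μ.real (DD μ B U r) :=
      mul_le_mul h1 hpr hp.le (Real.exp_pos _).le
    have h3 : 0 ≤ μ.real U := measureReal_nonneg
    linarith
  obtain ⟨Good, hGm, hGB, hGhalf, hGerr⟩ := exists_good2 μ hR.mB hU hR.pos N Λ r ρ y hΛ.le hρ0 hρ
    hr4 hy hpos' hgrow hfar hN
  obtain ⟨z, hz⟩ := pigeon μ hR N hN1 Good hGm hGB hGhalf
  set Tz : Set G := {t | t ∈ T ∧ (fun j => z j - t) ∈ Good} with hTz
  have hex : δ * μ.real B ≤ μ.real (DD μ (DD μ B U r) U (r + δ)) :=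
    exchange2 μ hR.mB (hD r) hU hR.pos hpos' r δ (fun x hx => hx) hδ0 (by linarith)
  have hW'growth : μ.real (DD μ B U (r + 2 * ρ)) ≤
      Real.exp (2 * (Λ * ρ)) * μ.real (DD μ B U r) := by
    have h2 : ((2 : ℕ) : ℝ) = 2 := by norm_num
    have h1 := hgrow 2 (by rw [h2]; linarith)
    rw [h2] at h1
    calc _ ≤ _ := h1
      _ = _ := by
        congr 2
        ring
  have hsub : DD μ B U r ⊆ DD μ B U (r + 2 * ρ) := DD_mono μ B U (by linarith)
  -- measurability of `Tz`
  have hTzm : MeasurableSet Tz := by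
    apply hR.mT.inter
    have h1 : Measurable (fun t : G => (fun j => z j - t : Fin N → G)) := by
      apply measurable_pi_lambda
      intro j
      simp only [sub_eq_add_neg]
      exact measurable_const.add measurable_neg
    exact h1 hGm
  rcases Tz.eq_empty_or_nonempty with hemp | ⟨t₀, ht₀⟩
  · refine ⟨DD μ B U r, DD μ B U (r + 2 * ρ), ∅, r, ⟨hD _, hD _, MeasurableSet.empty, hpos',
      hW'growth, fun t ht => absurd ht (notMem_empty _)⟩, rfl, hcr, hr4, hexp, hDU, ?_, hex, hsub⟩
    rw [hemp] at hz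
    exact hz
  · refine ⟨DD μ B U r, DD μ B U (r + 2 * ρ), {s | t₀ + s ∈ Tz}, r, ⟨hD _, hD _, ?_, hpos',
      hW'growth, ?_⟩, rfl, hcr, hr4, hexp, hDU, ?_, hex, hsub⟩
    · have h1 : Measurable (fun s : G => t₀ + s) := measurable_const.add measurable_id
      exact h1 hTzm
    · intro s hs
      set a : Fin N → G := fun j => z j - t₀ with ha
      set a' : Fin N → G := fun j => z j - (t₀ + s) with ha'
      have hag : a ∈ Good := ht₀.2
      have hag' : a' ∈ Good := hs.2
      have hmiss : ∀ x, miss U a' (x + s) = miss U a x := by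
        intro x
        unfold miss
        apply Finset.sum_congr rfl
        intro j _
        congr 1
        rw [ha, ha']
        simp only
        abel
      have h1 : {b | b ∈ DD μ B U r ∧ b + s ∉ DD μ B U (r + 2 * ρ)} ⊆
          {x | (a, x) ∈ errS μ B U N r ρ} ∪
          ((fun x => s + x) ⁻¹' {x | (a', x) ∈ errS μ B U N r ρ}) := by
        rintro x ⟨hx, hxs⟩
        by_cases hm : (r + ρ) * N < miss U a x
        · left
          exact ⟨hGB a hag, Or.inl ⟨hx, hm⟩⟩
        · right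
          push Not at hm
          refine ⟨hGB a' hag', Or.inr ⟨?_, ?_⟩⟩
          · change s + x ∉ DD μ B U (r + 2 * ρ)
            rw [add_comm s x]
            exact hxs
          · change miss U a' (s + x) ≤ (r + ρ) * N
            rw [add_comm s x, hmiss]
            exact hm
      have h2 := (measureReal_mono h1 (measure_ne_top μ _)).trans (measureReal_union_le _ _)
      have h3 : μ.real ((fun x => s + x) ⁻¹' {x | (a', x) ∈ errS μ B U N r ρ}) =
          μ.real {x | (a', x) ∈ errS μ B U N r ρ} := by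
        rw [measureReal_def, measureReal_def, measure_preimage_add]
      have h4 := hGerr a hag
      have h5 := hGerr a' hag'
      rw [h3] at h2
      linarith
    · have h1 : μ.real {s | t₀ + s ∈ Tz} = μ.real Tz := by
        rw [measureReal_def, measureReal_def]
        congr 1
        exact measure_preimage_add μ t₀ Tz
      rw [h1]
      exact hz

end Pool.Agent.Helper30.BX
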