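import Pool.Agent.Helper30.BX.Lattice

/-!
# A subtorus inside `B - B` for an almost invariant set `B`
-/

set_option autoImplicit false

open MeasureTheory Set UnitAddTorus

namespace Pool.Agent.Helper30.BX

/-- If `B` is almost invariant under all translations from `T`, then `B - B` contains a closed
subtorus of codimension at most `4 log (1 / μ T)`. -/
theorem torus_of_invariant (d : ℕ) (B T : Set (Fin d → UnitAddCircle)) (hB : MeasurableSet B)
    (hT : MeasurableSet T) (hBpos : 0 < (Pd d).real B) (hTpos : 0 < (Pd d).real T)
    (hinv : ∀ t ∈ T, (Pd d).real {b | b ∈ B ∧ b + t ∉ B} ≤ (Pd d).real B / 8) :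
    ∃ (k : ℕ) (φ : (Fin k → UnitAddCircle) →+ (Fin d → UnitAddCircle)),
      Continuous φ ∧ Function.Injective φ ∧ (d : ℝ) - k ≤ 4 * Real.log (1 / (Pd d).real T) ∧
      ∀ y, ∃ b ∈ B, b + φ y ∈ B := by
  classical
  obtain ⟨w, hw0, hwsum, hwt⟩ := exists_weights d B hB
  set S : Set (Fin d → ℤ) :=
    {n | ∫ t in T, (1 - (mFourier n t).re) ∂(Pd d) ≤ 3 / 10 * (Pd d).real T} with hS
  obtain ⟨r, v, hvS, hvind, hvmax⟩ := exists_max_indep d S
  have hv : ∀ m : Fin r → ℤ, ∑ i, m i • v i = 0 → m = 0 := by
    intro m hm
    funext i
    exact Fintype.linearIndependent_iff.mp hvind m hm i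
  have hr := rank_bound d r v hv T hTpos (fun i => hvS i)
  obtain ⟨k, M, P, hk, hPM, hvM⟩ := exists_matrices d r v
  refine ⟨k, torHom M, torHom_continuous M, torHom_injective M P hPM, ?_, ?_⟩
  · have h1 : (d : ℝ) ≤ k + r := by exact_mod_cast hk
    linarith
  · intro y
    by_contra hcon
    push Not at hcon
    have hone : ∀ n ∈ S, mFourier n (torHom M y) = 1 := by
      intro n hn
      apply mF_torHom
      intro j
      obtain ⟨c, m, hc, hcm⟩ := hvmax n hn
      have h1 : c * ∑ i, n i * M i j = 0 := by
        have h2 : c * ∑ i, n i * M i j = ∑ i, (c • n) i * M i j := by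
          rw [Finset.mul_sum]
          apply Finset.sum_congr rfl
          intro i _
          rw [Pi.smul_apply, smul_eq_mul]
          ring
        rw [h2, hcm]
        have h3 : ∀ i, (∑ l, m l • v l) i * M i j = ∑ l, m l * (v l i * M i j) := by
          intro i
          rw [Finset.sum_apply, Finset.sum_mul]
          apply Finset.sum_congr rfl
          intro l _
          rw [Pi.smul_apply, smul_eq_mul]
          ring
        rw [Finset.sum_congr rfl (fun i _ => h3 i), Finset.sum_comm]
        apply Finset.sum_eq_zero
        intro l _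
        rw [← Finset.mul_sum, hvM, mul_zero]
      rcases mul_eq_zero.mp h1 with h | h
      · exact absurd h hc
      · exact h
    set x := torHom M y with hx
    have hBx : {b | b ∈ B ∧ b + x ∉ B} = B := by
      ext b
      constructor
      · exact fun h => h.1
      · exact fun h => ⟨h, hcon b h⟩
    have hsum := hwt x
    rw [hBx] at hsum
    have hre : ∀ n : Fin d → ℤ, ∀ t, |(mFourier n t).re| ≤ 1 := by
      intro n t
      have := Complex.abs_re_le_norm (mFourier n t)
      rw [mF_mul_conj] at this
      exact this
    have hnn : ∀ n : Fin d → ℤ, ∀ t, 0 ≤ w n * (1 - (mFourier n t).re) := by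
      intro n t
      have := (abs_le.mp (hre n t)).2
      exact mul_nonneg (hw0 n) (by linarith)
    have hint : ∀ n : Fin d → ℤ, Integrable (fun t => (1 - (mFourier n t).re)) (Pd d) := by
      intro n
      have hc : Continuous (fun t => (1 - (mFourier n t).re)) :=
        continuous_const.sub (Complex.continuous_re.comp (mFourier n).continuous)
      refine Integrable.of_bound (C := 2) hc.aestronglyMeasurable (ae_of_all _ ?_)
      intro t
      rw [Real.norm_eq_abs, abs_le]
      have := abs_le.mp (hre n t)
      constructor <;> linarith [this.1, this.2]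
    -- finite sums off `S`
    have hoff : ∀ F : Finset (Fin d → ℤ), (∀ n ∈ F, n ∉ S) →
        ∑ n ∈ F, w n ≤ 5 / 12 * (Pd d).real B := by
      intro F hF
      have h1 : 3 / 10 * (Pd d).real T * ∑ n ∈ F, w n ≤
          ∫ t in T, ∑ n ∈ F, w n * (1 - (mFourier n t).re) ∂(Pd d) := by
        rw [integral_finsetSum _ (fun n _ => ((hint n).const_mul (w n)).integrableOn),
          Finset.mul_sum]
        apply Finset.sum_le_sum
        intro n hn
        rw [integral_const_mul]
        have h2 : ¬ ∫ t in T, (1 - (mFourier n t).re) ∂(Pd d) ≤ 3 / 10 * (Pd d).real T := hF n hn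
        push Not at h2
        calc 3 / 10 * (Pd d).real T * w n = w n * (3 / 10 * (Pd d).real T) := by ring
          _ ≤ w n * ∫ t in T, (1 - (mFourier n t).re) ∂(Pd d) :=
              mul_le_mul_of_nonneg_left h2.le (hw0 n)
      have h2 : ∫ t in T, ∑ n ∈ F, w n * (1 - (mFourier n t).re) ∂(Pd d) ≤
          ∫ _t in T, (Pd d).real B / 8 ∂(Pd d) := by
        apply setIntegral_mono_on _ _ hT
        · intro t ht
          have h3 := sum_le_hasSum F (fun n _ => hnn n t) (hwt t)
          exact h3.trans (hinv t ht)
        · exact (integrable_finsetSum _ (fun n _ => (hint n).const_mul (w n))).integrableOn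
        · exact (integrable_const _).integrableOn
      rw [setIntegral_const, smul_eq_mul] at h2
      have h3 := h1.trans h2
      have h4 : (Pd d).real T * (3 / 10 * ∑ n ∈ F, w n) ≤ (Pd d).real T * ((Pd d).real B / 8) := by
        linarith
      have h5 := le_of_mul_le_mul_left h4 hTpos
      linarith
    have hle : (Pd d).real B ≤ 5 / 6 * (Pd d).real B := by
      apply hasSum_le_of_sum_le hsum
      intro F
      have h1 : ∑ n ∈ F, w n * (1 - (mFourier n x).re) ≤
          ∑ n ∈ F.filter (fun n => n ∉ S), 2 * w n := by
        rw [Finset.sum_filter]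
        apply Finset.sum_le_sum
        intro n _
        by_cases hn : n ∈ S
        · rw [if_neg (fun h => h hn), hone n hn]
          simp
        · rw [if_pos hn]
          have := (abs_le.mp (hre n x)).1
          nlinarith [hw0 n]
      rw [← Finset.mul_sum] at h1
      have h2 := hoff (F.filter (fun n => n ∉ S)) (fun n hn => (Finset.mem_filter.mp hn).2)
      linarith
    linarith

end Pool.Agent.Helper30.BX
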